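import Pool.Agent.Run7.h446.Smyth.Iface

/-!
# Piece NEAR of the Smyth project (MP_ed3ef1_nt)
-/

set_option autoImplicit false

open Finset

noncomputable section

namespace Pool.Agent.Run7.h704.SmythNEAR

open Pool.Agent.Run7.h446.Smyth

/-- Gaussian sums over a free abelian group, reindexed. -/
theorem gauss_basis (hG : St_gauss) {V : Type} [NormedAddCommGroup V] [InnerProductSpace ℝ V]
    {G : Type} [AddCommGroup G] {D : ℕ} (b : Module.Basis (Fin D) ℤ G) (φ : G →+ V)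
    (hind : LinearIndependent ℝ (fun l => φ (b l))) :
    ∃ c > (0 : ℝ), ∃ C > (0 : ℝ), ∀ N : ℕ, 1 ≤ N → ∃ κ : ℝ, 0 ≤ κ ∧ κ ≤ C * (N : ℝ) ^ D ∧
      ∀ s ∈ Submodule.span ℝ (Set.range fun l => φ (b l)),
        Summable (fun y : G => Real.exp (-‖s + φ y‖ ^ 2 / N)) ∧
        |∑' y : G, Real.exp (-‖s + φ y‖ ^ 2 / N) - κ| ≤
          C * (N : ℝ) ^ D * Real.exp (-c * N) := by
  obtain ⟨c, hc, C, hC, h⟩ := hG V D (fun l => φ (b l)) hind
  refine ⟨c, hc, C, hC, fun N hN => ?_⟩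
  obtain ⟨κ, hκ0, hκ1, hκ⟩ := h N hN
  refine ⟨κ, hκ0, hκ1, fun s hs => ?_⟩
  obtain ⟨h1, h2⟩ := hκ s hs
  have he : (fun y : Fin D → ℤ => Real.exp (-‖s + ∑ l, (y l : ℝ) • φ (b l)‖ ^ 2 / N)) =
      (fun y : G => Real.exp (-‖s + φ y‖ ^ 2 / N)) ∘ b.equivFun.symm := by
    funext y
    simp only [Function.comp_apply, Module.Basis.equivFun_symm_apply, map_sum, map_zsmul]
    simp only [Int.cast_smul_eq_zsmul]
  rw [he] at h1 h2
  constructor
  · exact (b.equivFun.symm.toEquiv.summable_iff).1 h1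
  · have h3 := b.equivFun.symm.toEquiv.tsum_eq (fun y : G => Real.exp (-‖s + φ y‖ ^ 2 / N))
    rw [← h3]
    exact h2

variable {ι Λ A V W : Type} [Fintype ι] [AddCommGroup Λ] [AddCommGroup A]
    [NormedAddCommGroup V] [InnerProductSpace ℝ V]
    [NormedAddCommGroup W] [InnerProductSpace ℝ W]

/-- the fibre of `p` over `p x₀` -/
def fib (p : Λ →+ A) (x₀ : Λ) (t : A) (h : p x₀ = t) : p.ker ≃ {x : Λ // p x = t} where
  toFun y := ⟨x₀ + y, by rw [map_add, (AddMonoidHom.mem_ker).1 y.2, add_zero, h]⟩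
  invFun x := ⟨x.1 - x₀, by rw [AddMonoidHom.mem_ker, map_sub, x.2, h, sub_self]⟩
  left_inv y := by apply Subtype.ext; simp
  right_inv x := by apply Subtype.ext; simp

theorem fibre (hG : St_gauss) (S : Sys ι Λ A V W) (i : ι) :
    ∃ c > (0 : ℝ), ∃ C > (0 : ℝ), ∀ N : ℕ, 1 ≤ N → ∃ κ : ℝ,
      ∀ t : A, |∑' x : {x : Λ // S.π i x = t}, Real.exp (-‖S.r i x‖ ^ 2 / N) - κ| ≤
          C * (N : ℝ) ^ (S.rkL i) * Real.exp (-c * N) := by
  obtain ⟨c, hc, C, hC, h⟩ := gauss_basis hG (S.basisL i) (S.g.comp (S.π i).ker.subtype)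
    (S.basisL_ind i)
  refine ⟨c, hc, C, hC, fun N hN => ?_⟩
  obtain ⟨κ, _, _, hκ⟩ := h N hN
  refine ⟨κ, fun t => ?_⟩
  obtain ⟨x₀, hx₀⟩ := S.surj i t
  obtain ⟨_, h2⟩ := hκ (S.r i x₀) (S.r_span i x₀)
  have h3 := (fib (S.π i) x₀ t hx₀).tsum_eq
    (fun x : {x : Λ // S.π i x = t} => Real.exp (-‖S.r i x‖ ^ 2 / N))
  rw [← h3]
  have h4 : (fun y : (S.π i).ker => Real.exp (-‖S.r i x₀ + (S.g.comp (S.π i).ker.subtype) y‖ ^ 2 /
      N)) = fun y : (S.π i).ker => Real.exp (-‖S.r i ((fib (S.π i) x₀ t hx₀) y : Λ)‖ ^ 2 / N) := by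
    funext y
    have : S.r i ((fib (S.π i) x₀ t hx₀) y : Λ) = S.r i x₀ +
        (S.g.comp (S.π i).ker.subtype) y := by
      change S.r i (x₀ + y) = S.r i x₀ + S.g y
      rw [map_add, S.r_ker i y ((AddMonoidHom.mem_ker).1 y.2)]
    rw [this]
  rw [h4] at h2
  exact h2

theorem core (S : Sys ι Λ A V W) (N : ℕ)
    (hE : Summable fun x : Λ => Real.exp (-‖S.g x‖ ^ 2 / N))
    (hF : Summable fun t : A => Real.exp (-‖S.f t‖ ^ 2 / N)) (κ : ι → ℝ) (err : ℝ)
    (hfib : ∀ i t, |∑' x : {x : Λ // S.π i x = t}, Real.exp (-‖S.r i x‖ ^ 2 / N) - κ i| ≤ err)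
    (i j : ι) (t : A) :
    |∑' x : {x : Λ // S.π i x = t}, Real.exp (-‖S.g x‖ ^ 2 / N) -
      ∑' x : {x : Λ // S.π j x = t}, Real.exp (-‖S.g x‖ ^ 2 / N)| ≤ 4 * err := by
  set e : A → ℝ := fun t => Real.exp (-‖S.f t‖ ^ 2 / N) with he
  set Sf : ι → A → ℝ := fun i t => ∑' x : {x : Λ // S.π i x = t},
    Real.exp (-‖S.r i x‖ ^ 2 / N) with hSf
  have he0 : ∀ t, 0 ≤ e t := fun t => (Real.exp_pos _).le
  have he1 : ∀ t, e t ≤ 1 := by
    intro t
    apply Real.exp_le_one_iff.2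
    apply div_nonpos_of_nonpos_of_nonneg
    · have := sq_nonneg ‖S.f t‖
      linarith
    · exact Nat.cast_nonneg N
  have hM : ∀ i t, ∑' x : {x : Λ // S.π i x = t}, Real.exp (-‖S.g x‖ ^ 2 / N) =
      e t * Sf i t := by
    intro i t
    rw [hSf]
    simp only
    rw [← tsum_mul_left]
    congr 1
    funext x
    rw [he]
    simp only
    rw [← Real.exp_add, S.pyth i x, x.2]
    congr 1
    ring
  have herr : 0 ≤ err := (abs_nonneg _).trans (hfib i t)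
  set Z := ∑' x : Λ, Real.exp (-‖S.g x‖ ^ 2 / N) with hZ
  set θ := ∑' t : A, e t with hθ
  have hθpos : 0 < θ := hF.tsum_pos he0 0 (Real.exp_pos _)
  have hZi : ∀ i, |Z - κ i * θ| ≤ err * θ := by
    intro i
    have hs : Summable ((fun x : Λ => Real.exp (-‖S.g x‖ ^ 2 / N)) ∘
        (Equiv.sigmaFiberEquiv (S.π i))) := (Equiv.sigmaFiberEquiv (S.π i)).summable_iff.2 hE
    have h1 : Z = ∑' t : A, e t * Sf i t := by
      rw [hZ, ← (Equiv.sigmaFiberEquiv (S.π i)).tsum_eq]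
      have h2 := hs.tsum_sigma
      simp only [Function.comp_apply] at h2
      rw [h2]
      congr 1
      funext t
      rw [← hM]
      rfl
    have h2 : Summable fun t : A => e t * Sf i t := by
      have h3 := hs.sigma
      have h4 : (fun t : A => e t * Sf i t) = fun t : A => ∑' x : {x : Λ // S.π i x = t},
          ((fun x : Λ => Real.exp (-‖S.g x‖ ^ 2 / N)) ∘
          (Equiv.sigmaFiberEquiv (S.π i))) ⟨t, x⟩ := by
        funext t
        rw [← hM]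
        rfl
      rw [h4]
      exact h3
    have h3 : Summable fun t : A => κ i * e t := hF.mul_left _
    have h4 : Z - κ i * θ = ∑' t : A, (e t * Sf i t - κ i * e t) := by
      rw [h2.tsum_sub h3, ← h1, hθ, tsum_mul_left]
    have h5 : ∀ t : A, |e t * Sf i t - κ i * e t| ≤ err * e t := by
      intro t
      have : e t * Sf i t - κ i * e t = e t * (Sf i t - κ i) := by ring
      rw [this, abs_mul, abs_of_nonneg (he0 t), mul_comm]
      exact mul_le_mul_of_nonneg_right (hfib i t) (he0 t)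
    have h6 : Summable fun t : A => |e t * Sf i t - κ i * e t| :=
      Summable.of_nonneg_of_le (fun t => abs_nonneg _) h5 (hF.mul_left _)
    rw [h4]
    calc |∑' t : A, (e t * Sf i t - κ i * e t)| ≤ ∑' t : A, |e t * Sf i t - κ i * e t| := by
          have := norm_tsum_le_tsum_norm (f := fun t : A => e t * Sf i t - κ i * e t) h6
          simpa [Real.norm_eq_abs] using this
      _ ≤ ∑' t : A, err * e t := h6.tsum_le_tsum h5 (hF.mul_left _)
      _ = err * θ := by rw [tsum_mul_left]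
  have hκ : |κ i - κ j| ≤ 2 * err := by
    have h1 := hZi i
    have h2 := hZi j
    have h3 : |κ i - κ j| * θ ≤ 2 * err * θ := by
      rw [← abs_of_pos hθpos, ← abs_mul, abs_of_pos hθpos]
      rw [abs_le] at h1 h2 ⊢
      constructor <;> nlinarith [h1.1, h1.2, h2.1, h2.2]
    exact le_of_mul_le_mul_right h3 hθpos
  rw [hM, hM, ← mul_sub, abs_mul, abs_of_nonneg (he0 t)]
  have h1 := hfib i t
  have h2 := hfib j t
  have h3 : |Sf i t - Sf j t| ≤ 4 * err := by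
    rw [abs_le] at h1 h2 hκ ⊢
    constructor <;> linarith [h1.1, h1.2, h2.1, h2.2, hκ.1, hκ.2]
  calc e t * |Sf i t - Sf j t| ≤ 1 * (4 * err) :=
        mul_le_mul (he1 t) h3 (abs_nonneg _) zero_le_one
    _ = 4 * err := one_mul _

theorem mapDomain_eq_tsum {X Y : Type} (p : X → Y) (w : X →₀ ℝ) (t : Y) :
    Finsupp.mapDomain p w t = ∑' x : {x : X // p x = t}, w x := by
  classical
  have h1 : ∑' x : {x : X // p x = t}, w x = ∑' x : X, Set.indicator {x | p x = t} w x :=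
    tsum_subtype {x | p x = t} w
  rw [h1, tsum_eq_sum (s := w.support)]
  · rw [Finsupp.mapDomain, Finsupp.sum_apply, Finsupp.sum]
    apply Finset.sum_congr rfl
    intro x _
    rw [Finsupp.single_apply, Set.indicator_apply]
    rfl
  · intro x hx
    rw [Finsupp.mem_support_iff, not_not] at hx
    rw [Set.indicator_apply, hx]
    simp

theorem trunc (S : Sys ι Λ A V W) (N : ℕ) (hN : 1 ≤ N) (ρ η : ℝ) (hρ : 0 < ρ)
    (hη1 : η < 1)
    (hE : Summable fun x : Λ => Real.exp (-‖S.g x‖ ^ 2 / N))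
    (hEη : Summable fun x : Λ => Real.exp (-(η * ‖S.g x‖ ^ 2) / N)) (w : Λ →₀ ℝ)
    (hw1 : ∀ x, ‖S.g x‖ ≤ ρ * N → w x = Real.exp (-‖S.g x‖ ^ 2 / N))
    (hw2 : ∀ x, ρ * N < ‖S.g x‖ → w x = 0) (i : ι) (t : A) :
    |∑' x : {x : Λ // S.π i x = t}, Real.exp (-‖S.g x‖ ^ 2 / N) -
      Finsupp.mapDomain (S.π i) w t| ≤
      Real.exp (-(1 - η) * ρ ^ 2 * N) * ∑' x : Λ, Real.exp (-(η * ‖S.g x‖ ^ 2) / N) := by
  have hN' : (0 : ℝ) < N := by exact_mod_cast hN
  have hw0 : ∀ x, 0 ≤ w x := by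
    intro x
    rcases le_or_gt ‖S.g x‖ (ρ * N) with h | h
    · rw [hw1 x h]; exact (Real.exp_pos _).le
    · rw [hw2 x h]
  have hwE : ∀ x, w x ≤ Real.exp (-‖S.g x‖ ^ 2 / N) := by
    intro x
    rcases le_or_gt ‖S.g x‖ (ρ * N) with h | h
    · rw [hw1 x h]
    · rw [hw2 x h]; exact (Real.exp_pos _).le
  have hws : Summable fun x : Λ => w x := Summable.of_nonneg_of_le hw0 hwE hE
  set q := Real.exp (-(1 - η) * ρ ^ 2 * N) with hq
  have hdiff : ∀ x, Real.exp (-‖S.g x‖ ^ 2 / N) - w x ≤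
      q * Real.exp (-(η * ‖S.g x‖ ^ 2) / N) := by
    intro x
    rcases le_or_gt ‖S.g x‖ (ρ * N) with h | h
    · rw [hw1 x h, sub_self]
      positivity
    · rw [hw2 x h, sub_zero, hq, ← Real.exp_add]
      apply Real.exp_le_exp.2
      have h1 : (ρ * N) ^ 2 ≤ ‖S.g x‖ ^ 2 := by
        apply pow_le_pow_left₀ (by positivity) h.le
      have h2 : ρ ^ 2 * N ≤ ‖S.g x‖ ^ 2 / N := by
        rw [le_div_iff₀ hN']
        nlinarith
      have h3 : (1 - η) * (ρ ^ 2 * N) ≤ (1 - η) * (‖S.g x‖ ^ 2 / N) :=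
        mul_le_mul_of_nonneg_left h2 (by linarith)
      have h4 : -‖S.g x‖ ^ 2 / N = -((1 - η) * (‖S.g x‖ ^ 2 / N)) + -(η * ‖S.g x‖ ^ 2) / N := by
        field_simp
        ring
      rw [h4]
      have h5 : -(1 - η) * ρ ^ 2 * N = -((1 - η) * (ρ ^ 2 * N)) := by ring
      rw [h5]
      linarith
  have hE' : Summable fun x : {x : Λ // S.π i x = t} => Real.exp (-‖S.g (x : Λ)‖ ^ 2 / N) :=
    hE.subtype _
  have hws' : Summable fun x : {x : Λ // S.π i x = t} => w (x : Λ) := hws.subtype _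
  have hEη' : Summable fun x : {x : Λ // S.π i x = t} =>
      q * Real.exp (-(η * ‖S.g (x : Λ)‖ ^ 2) / N) := (hEη.subtype _).mul_left q
  rw [mapDomain_eq_tsum, ← hE'.tsum_sub hws', abs_of_nonneg]
  · calc ∑' x : {x : Λ // S.π i x = t}, (Real.exp (-‖S.g (x : Λ)‖ ^ 2 / N) - w (x : Λ))
        ≤ ∑' x : {x : Λ // S.π i x = t}, q * Real.exp (-(η * ‖S.g (x : Λ)‖ ^ 2) / N) :=
          (hE'.sub hws').tsum_le_tsum (fun x => hdiff x) hEη'
      _ = q * ∑' x : {x : Λ // S.π i x = t}, Real.exp (-(η * ‖S.g (x : Λ)‖ ^ 2) / N) := by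
          rw [tsum_mul_left]
      _ ≤ q * ∑' x : Λ, Real.exp (-(η * ‖S.g x‖ ^ 2) / N) := by
          apply mul_le_mul_of_nonneg_left _ (Real.exp_pos _).le
          exact tsum_comp_le_tsum_of_inj hEη (fun x => (Real.exp_pos _).le)
            (Subtype.val_injective (p := fun x : Λ => S.π i x = t))
  · apply tsum_nonneg
    intro x
    have := hwE (x : Λ)
    linarith

theorem main (hG : St_gauss) (hC : St_count) : St_near := by
  intro ι Λ A V W _ _ _ _ _ _ _ S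
  choose cf hcf Cf hCf hfib using fibre hG S
  obtain ⟨c, hc, hcle⟩ : ∃ c > (0 : ℝ), ∀ i, c ≤ cf i := by
    rcases isEmpty_or_nonempty ι with h | h
    · exact ⟨1, one_pos, fun i => (h.false i).elim⟩
    · obtain ⟨i0, hi0⟩ := Finite.exists_min cf
      exact ⟨cf i0, hcf i0, hi0⟩
  refine ⟨c, hc, fun ρ hρ hρc η hη0 hη1 => ?_⟩
  -- the scaled lattice
  obtain ⟨cg, hcg, Cg, hCg, hg⟩ := gauss_basis hG S.basis S.g S.basis_ind
  obtain ⟨ca, hca, Ca, hCa, ha⟩ := gauss_basis hG S.basisA S.f S.basisA_ind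
  have hsq : Real.sqrt η ≠ 0 := (Real.sqrt_pos.2 hη0).ne'
  set φ : Λ →+ V := (DistribSMul.toAddMonoidHom V (Real.sqrt η)).comp S.g with hφ
  have hφa : ∀ x, φ x = Real.sqrt η • S.g x := fun x => rfl
  have hφind : LinearIndependent ℝ (fun l => φ (S.basis l)) := by
    have h1 := S.basis_ind.units_smul (fun _ => Units.mk0 (Real.sqrt η) hsq)
    exact h1
  obtain ⟨c2, hc2, C2, hC2, h2⟩ := gauss_basis hG S.basis φ hφind
  obtain ⟨CC, DD, hCC, hcount⟩ := hC ι Λ A V W S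
  set C1 := ∑ i, Cf i with hC1
  have hC1' : 0 ≤ C1 := Finset.sum_nonneg fun i _ => (hCf i).le
  refine ⟨4 * C1 + 4 * C2 + 1, (∑ i, S.rkL i) + S.rk, by positivity, fun N hN => ?_⟩
  have hN1 : (1 : ℝ) ≤ N := by exact_mod_cast hN
  have hN' : (0 : ℝ) < N := by linarith
  -- the weight
  have hfin : {x : Λ | ‖S.g x‖ ≤ ρ * N}.Finite := by
    refine (hcount (max 1 (ρ * N)) (le_max_left _ _)).2.2.1.subset ?_
    intro x hx
    have hx' : ‖S.g x‖ ≤ ρ * N := hx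
    exact hx'.trans (le_max_right _ _)
  classical
  obtain ⟨w, hw1, hw2⟩ : ∃ w : Λ →₀ ℝ,
      (∀ x, ‖S.g x‖ ≤ ρ * N → w x = Real.exp (-‖S.g x‖ ^ 2 / N)) ∧
      (∀ x, ρ * N < ‖S.g x‖ → w x = 0) := by
    refine ⟨Finsupp.ofSupportFinite (fun x => if ‖S.g x‖ ≤ ρ * N then
      Real.exp (-‖S.g x‖ ^ 2 / N) else 0) ?_, ?_, ?_⟩
    · refine hfin.subset ?_
      intro x hx
      rw [Function.mem_support] at hx
      by_contra h
      apply hx
      have h' : ¬ ‖S.g x‖ ≤ ρ * N := h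
      rw [if_neg h']
    · intro x hx
      rw [Finsupp.ofSupportFinite_coe]
      rw [if_pos hx]
    · intro x hx
      rw [Finsupp.ofSupportFinite_coe]
      rw [if_neg (not_le.2 hx)]
  refine ⟨w, hw1, hw2, fun i j t => ?_⟩
  -- summability
  obtain ⟨κg, _, _, hκg⟩ := hg N hN
  obtain ⟨κa, _, _, hκa⟩ := ha N hN
  obtain ⟨κ2, hκ20, hκ21, hκ2⟩ := h2 N hN
  have hE : Summable fun x : Λ => Real.exp (-‖S.g x‖ ^ 2 / N) := by
    have := (hκg 0 (Submodule.zero_mem _)).1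
    simpa only [zero_add] using this
  have hF : Summable fun t : A => Real.exp (-‖S.f t‖ ^ 2 / N) := by
    have := (hκa 0 (Submodule.zero_mem _)).1
    simpa only [zero_add] using this
  have hnorm : ∀ x, ‖φ x‖ ^ 2 = η * ‖S.g x‖ ^ 2 := by
    intro x
    rw [hφa, norm_smul, mul_pow, Real.norm_eq_abs, sq_abs, Real.sq_sqrt hη0.le]
  have hEη : Summable fun x : Λ => Real.exp (-(η * ‖S.g x‖ ^ 2) / N) := by
    have := (hκ2 0 (Submodule.zero_mem _)).1
    simpa only [zero_add, hnorm] using this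
  have hZη : ∑' x : Λ, Real.exp (-(η * ‖S.g x‖ ^ 2) / N) ≤ 2 * C2 * (N : ℝ) ^ S.rk := by
    have h3 := (hκ2 0 (Submodule.zero_mem _)).2
    simp only [zero_add, hnorm] at h3
    have h4 := (abs_le.1 h3).2
    have h5 : Real.exp (-c2 * N) ≤ 1 := by
      apply Real.exp_le_one_iff.2
      nlinarith
    have h6 : C2 * (N : ℝ) ^ S.rk * Real.exp (-c2 * N) ≤ C2 * (N : ℝ) ^ S.rk := by
      have : 0 ≤ C2 * (N : ℝ) ^ S.rk := by positivity
      nlinarith
    linarith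
  -- full marginals
  choose κ hκ using fun i => hfib i N hN
  set q := Real.exp (-(1 - η) * ρ ^ 2 * N) with hq
  have hq0 : 0 < q := Real.exp_pos _
  set D1 := ∑ i, S.rkL i with hD1
  have herr : ∀ i, Cf i * (N : ℝ) ^ S.rkL i * Real.exp (-cf i * N) ≤
      C1 * (N : ℝ) ^ D1 * q := by
    intro i
    have e1 : Cf i ≤ C1 := Finset.single_le_sum (f := Cf) (fun i _ => (hCf i).le)
      (Finset.mem_univ i)
    have e2 : (N : ℝ) ^ S.rkL i ≤ (N : ℝ) ^ D1 :=
      pow_le_pow_right₀ hN1 (Finset.single_le_sum (f := S.rkL) (fun i _ => Nat.zero_le _)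
        (Finset.mem_univ i))
    have e3 : Real.exp (-cf i * N) ≤ q := by
      apply Real.exp_le_exp.2
      have := hcle i
      have e4 : (1 - η) * ρ ^ 2 ≤ cf i := by nlinarith [sq_nonneg ρ]
      nlinarith
    have := (hCf i).le
    exact mul_le_mul (mul_le_mul e1 e2 (by positivity) hC1') e3 (Real.exp_pos _).le
      (by positivity)
  have hcore := core S N hE hF κ (C1 * (N : ℝ) ^ D1 * q)
    (fun i t => (hκ i t).trans (herr i)) i j t
  have hti := trunc S N hN ρ η hρ hη1 hE hEη w hw1 hw2 i t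
  have htj := trunc S N hN ρ η hρ hη1 hE hEη w hw1 hw2 j t
  have hb : q * ∑' x : Λ, Real.exp (-(η * ‖S.g x‖ ^ 2) / N) ≤ q * (2 * C2 * (N : ℝ) ^ S.rk) :=
    mul_le_mul_of_nonneg_left hZη hq0.le
  have hti' := hti.trans hb
  have htj' := htj.trans hb
  have hfinal : |Finsupp.mapDomain (S.π i) w t - Finsupp.mapDomain (S.π j) w t| ≤
      4 * (C1 * (N : ℝ) ^ D1 * q) + 2 * (q * (2 * C2 * (N : ℝ) ^ S.rk)) := by
    rw [abs_le] at hcore hti' htj' ⊢
    constructor <;> linarith [hcore.1, hcore.2, hti'.1, hti'.2, htj'.1, htj'.2]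
  refine hfinal.trans ?_
  have e1 : (N : ℝ) ^ D1 ≤ (N : ℝ) ^ (D1 + S.rk) := pow_le_pow_right₀ hN1 (by omega)
  have e2 : (N : ℝ) ^ S.rk ≤ (N : ℝ) ^ (D1 + S.rk) := pow_le_pow_right₀ hN1 (by omega)
  have e3 : C1 * (N : ℝ) ^ D1 * q ≤ C1 * (N : ℝ) ^ (D1 + S.rk) * q :=
    mul_le_mul_of_nonneg_right (mul_le_mul_of_nonneg_left e1 hC1') hq0.le
  have e4 : q * (2 * C2 * (N : ℝ) ^ S.rk) ≤ q * (2 * C2 * (N : ℝ) ^ (D1 + S.rk)) :=
    mul_le_mul_of_nonneg_left (mul_le_mul_of_nonneg_left e2 (by positivity)) hq0.le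
  have e5 : 0 ≤ (N : ℝ) ^ (D1 + S.rk) * q := by positivity
  nlinarith [e3, e4, e5]

end Pool.Agent.Run7.h704.SmythNEAR
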