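import Pool.Agent.Run7.h46.S.Defs

/-!
# Piece P3 of helper46's project (MP_9a84bf_lc): existence of existentially closed structures
-/

set_option autoImplicit false

namespace Run7.h704.H46P3

open Filter Function Run7.h46 Run7.h46.S FirstOrder FirstOrder.Language

variable {L : FirstOrder.Language.{0, 0}}

theorem finSym (L : FirstOrder.Language.{0, 0}) [Finite L.Symbols] :
    Finite (Σ n, L.Relations n) :=
  Finite.of_injective (fun R : (Σ n, L.Relations n) => (Sum.inr R : L.Symbols))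
    (fun _ _ h => Sum.inr_injective h)

theorem limEmb [Finite L.Symbols] {J X : Type} (𝒰 : Ultrafilter J) (B : Str L ℕ)
    (ψ : J → X → ℕ) (hψ : ∀ a b, a ≠ b → ∀ᶠ F in (𝒰 : Filter J), ψ F a ≠ ψ F b)
    (A : Str L X) (hA : ∀ R x, A R x ↔ ∀ᶠ F in (𝒰 : Filter J), B R (ψ F ∘ x)) :
    FinEmb A B := by
  classical
  intro s'
  have e1 : ∀ᶠ F in (𝒰 : Filter J), ∀ p : s' × s', p.1 ≠ p.2 →
      ψ F p.1 ≠ ψ F p.2 := by
    rw [eventually_all]
    rintro ⟨a, b⟩
    by_cases hab : a = b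
    · exact Eventually.of_forall fun F h => absurd hab h
    · filter_upwards [hψ a b (fun h => hab (Subtype.ext h))] with F hF _
      exact hF
  have e2 : ∀ᶠ F in (𝒰 : Filter J),
      ∀ p : (Σ R : (Σ n, L.Relations n), (Fin R.1 → s')),
        (A p.1 (fun i => (p.2 i : X)) ↔ B p.1 (ψ F ∘ fun i => (p.2 i : X))) := by
    have hfin := finSym L
    rw [eventually_all]
    rintro ⟨R, x⟩
    by_cases h : A R (fun i => (x i : X))
    · filter_upwards [(hA _ _).1 h] with F hF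
      exact ⟨fun _ => hF, fun _ => h⟩
    · have : ∀ᶠ F in (𝒰 : Filter J), ¬ B R (ψ F ∘ fun i => (x i : X)) := by
        rw [Ultrafilter.eventually_not, ← hA]
        exact h
      filter_upwards [this] with F hF
      exact ⟨fun h1 => absurd h1 h, fun h1 => absurd h1 hF⟩
  obtain ⟨F, hF1, hF2⟩ := (e1.and e2).exists
  refine ⟨ψ F, ?_, ?_⟩
  · intro a ha b hb hab
    by_contra hne
    exact hF1 ⟨⟨a, ha⟩, ⟨b, hb⟩⟩ (fun h => hne (congrArg Subtype.val h)) hab
  · intro R x hx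
    exact hF2 ⟨R, fun i => ⟨x i, hx i⟩⟩

/-- cone ultrafilter -/
theorem cone (X : Type) : ∃ 𝒰 : Ultrafilter (Finset X), ∀ F : Finset X,
    ∀ᶠ F' in (𝒰 : Filter (Finset X)), F ⊆ F' := by
  classical
  exact ⟨Ultrafilter.of atTop, fun F => Ultrafilter.of_le atTop (eventually_ge_atTop F)⟩

/-- Joint embedding of countably many structures. -/
theorem joint [Finite L.Symbols] (B : Str L ℕ) (I : Type) [Countable I] (N : I → Type)
    [∀ i, Countable (N i)] (A : ∀ i, Str L (N i)) (h : ∀ i, FinEmb (A i) B) :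
    ∃ (N₀ : Type) (_ : Countable N₀) (A₀ : Str L N₀), FinEmb A₀ B ∧
      ∀ i, ∃ ι : N i → N₀, Injective ι ∧ A₀.pull ι = A i := by
  classical
  obtain ⟨𝒰, h𝒰⟩ := cone (Σ i, N i)
  choose φ hφ hφ' using h
  let sec : Finset (Σ i, N i) → ∀ i, Finset (N i) := fun F i =>
    F.preimage (Sigma.mk i) (sigma_mk_injective.injOn)
  let γ : (Σ i, N i) → (𝒰 : Filter (Finset (Σ i, N i))).Germ ℕ := fun p =>
    ((fun F => φ p.1 (sec F p.1) p.2 : Finset (Σ i, N i) → ℕ) :
      (𝒰 : Filter (Finset (Σ i, N i))).Germ ℕ)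
  let N₀ : Set ((𝒰 : Filter (Finset (Σ i, N i))).Germ ℕ) := Set.range γ
  let ψ : Finset (Σ i, N i) → N₀ → ℕ := fun F x => (Quotient.out x.1) F
  have hψ : ∀ a b : N₀, a ≠ b → ∀ᶠ F in (𝒰 : Filter (Finset (Σ i, N i))), ψ F a ≠ ψ F b := by
    intro a b hab
    by_contra hcon
    have h1 : ∀ᶠ F in (𝒰 : Filter (Finset (Σ i, N i))), ψ F a = ψ F b := by
      rw [← Ultrafilter.eventually_not] at hcon
      filter_upwards [hcon] with F hF
      exact not_not.1 hF
    have h2 := (Germ.coe_eq (l := (𝒰 : Filter (Finset (Σ i, N i))))).2 h1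
    have ea : ((Quotient.out a.1 : Finset (Σ i, N i) → ℕ) :
      (𝒰 : Filter (Finset (Σ i, N i))).Germ ℕ) = a.1 := Quotient.out_eq _
    have eb : ((Quotient.out b.1 : Finset (Σ i, N i) → ℕ) :
      (𝒰 : Filter (Finset (Σ i, N i))).Germ ℕ) = b.1 := Quotient.out_eq _
    exact hab (Subtype.ext (ea.symm.trans (h2.trans eb)))
  have hout : ∀ p : (Σ i, N i), ∀ᶠ F in (𝒰 : Filter (Finset (Σ i, N i))),
      ψ F ⟨γ p, p, rfl⟩ = φ p.1 (sec F p.1) p.2 := by
    intro p
    have ea : ((Quotient.out (γ p) : Finset (Σ i, N i) → ℕ) :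
      (𝒰 : Filter (Finset (Σ i, N i))).Germ ℕ) = γ p := Quotient.out_eq _
    exact Germ.coe_eq.1 ea
  have hsec : ∀ p : (Σ i, N i), ∀ᶠ F in (𝒰 : Filter (Finset (Σ i, N i))), p.2 ∈ sec F p.1 := by
    intro p
    filter_upwards [h𝒰 {p}] with F hF
    rw [Finset.mem_preimage]
    exact hF (Finset.mem_singleton_self p)
  refine ⟨N₀, (Set.countable_range γ).to_subtype,
    fun R x => ∀ᶠ F in (𝒰 : Filter (Finset (Σ i, N i))), B R (ψ F ∘ x),
    limEmb 𝒰 B ψ hψ _ (fun R x => Iff.rfl), fun i => ⟨fun a => ⟨γ ⟨i, a⟩, ⟨i, a⟩, rfl⟩, ?_, ?_⟩⟩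
  · intro a b hab
    have h1 : γ ⟨i, a⟩ = γ ⟨i, b⟩ := congrArg Subtype.val hab
    have h2 := Germ.coe_eq.1 h1
    obtain ⟨F, h3, h4, h5⟩ := (h2.and ((hsec ⟨i, a⟩).and (hsec ⟨i, b⟩))).exists
    exact hφ i (sec F i) h4 h5 h3
  · funext R x
    rw [eq_iff_iff, Str.pull_apply]
    have h1 : ∀ᶠ F in (𝒰 : Filter (Finset (Σ i, N i))), ∀ k : Fin R.1,
        ψ F ⟨γ ⟨i, x k⟩, ⟨i, x k⟩, rfl⟩ = φ i (sec F i) (x k) ∧ x k ∈ sec F i :=
      eventually_all.2 fun k => (hout ⟨i, x k⟩).and (hsec ⟨i, x k⟩)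
    have h2 : ∀ᶠ F in (𝒰 : Filter (Finset (Σ i, N i))),
        (A i R x ↔ B R (ψ F ∘ (fun a => (⟨γ ⟨i, a⟩, ⟨i, a⟩, rfl⟩ : N₀)) ∘ x)) := by
      filter_upwards [h1] with F hF
      rw [hφ' i (sec F i) R x (fun k => (hF k).2)]
      have : φ i (sec F i) ∘ x = ψ F ∘ (fun a => (⟨γ ⟨i, a⟩, ⟨i, a⟩, rfl⟩ : N₀)) ∘ x := by
        funext k
        exact (hF k).1.symm
      rw [this]
    constructor
    · intro h3
      obtain ⟨F, h4, h5⟩ := (h2.and h3).exists
      exact h4.2 h5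
    · intro h3
      filter_upwards [h2] with F h4
      exact h4.1 h3

/-- adding infinitely many new points -/
theorem addpoints [Finite L.Symbols] (B : Str L ℕ) (N₀ : Type) (A₀ : Str L N₀)
    (h : FinEmb A₀ B) : ∃ D : Str L (N₀ ⊕ ℕ), D.pull Sum.inl = A₀ ∧ FinEmb D B := by
  classical
  obtain ⟨𝒰, h𝒰⟩ := cone N₀
  choose φ hφ hφ' using h
  have hg : ∀ F : Finset N₀, ∃ g : ℕ → ℕ, Injective g ∧ ∀ m, g m ∉ F.image (φ F) := by
    intro F
    have h1 : Infinite (((F.image (φ F) : Finset ℕ) : Set ℕ)ᶜ : Set ℕ) :=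
      ((F.image (φ F)).finite_toSet.infinite_compl).to_subtype
    obtain ⟨e⟩ := nonempty_equiv_of_countable (α := ℕ)
      (β := (((F.image (φ F) : Finset ℕ) : Set ℕ)ᶜ : Set ℕ))
    exact ⟨fun m => (e m).1, fun a b hab => e.injective (Subtype.ext hab),
      fun m hm => (e m).2 (Finset.mem_coe.2 hm)⟩
  choose g hg1 hg2 using hg
  let ψ : Finset N₀ → N₀ ⊕ ℕ → ℕ := fun F => Sum.elim (φ F) (g F)
  have hψ : ∀ a b : N₀ ⊕ ℕ, a ≠ b → ∀ᶠ F in (𝒰 : Filter (Finset N₀)), ψ F a ≠ ψ F b := by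
    rintro (a | a) (b | b) hab
    · filter_upwards [h𝒰 {a, b}] with F hF h1
      exact hab (by rw [hφ F (hF (by simp)) (hF (by simp)) h1])
    · filter_upwards [h𝒰 {a}] with F hF h1
      have h1' : φ F a = g F b := h1
      exact hg2 F b (by rw [← h1']; exact Finset.mem_image_of_mem _ (hF (by simp)))
    · filter_upwards [h𝒰 {b}] with F hF h1
      have h1' : g F a = φ F b := h1
      exact hg2 F a (by rw [h1']; exact Finset.mem_image_of_mem _ (hF (by simp)))
    · refine Eventually.of_forall fun F h1 => hab ?_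
      have h1' : g F a = g F b := h1
      rw [hg1 F h1']
  refine ⟨fun R x => ∀ᶠ F in (𝒰 : Filter (Finset N₀)), B R (ψ F ∘ x), ?_,
    limEmb 𝒰 B ψ hψ _ (fun R x => Iff.rfl)⟩
  funext R x
  rw [eq_iff_iff, Str.pull_apply]
  have h2 : ∀ᶠ F in (𝒰 : Filter (Finset N₀)), (A₀ R x ↔ B R (ψ F ∘ Sum.inl ∘ x)) := by
    filter_upwards [h𝒰 (Finset.univ.image x)] with F hF
    exact hφ' F R x (fun i => hF (by simp))
  constructor
  · intro h3
    obtain ⟨F, h4, h5⟩ := (h2.and h3).exists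
    exact h4.2 h5
  · intro h3
    filter_upwards [h2] with F h4
    exact h4.1 h3

/-- agreement over a finite part -/
def Agr {N₀ : Type} (G : Finset ℕ) (D D' : Str L (N₀ ⊕ ℕ)) : Prop :=
  ∀ (R : Σ n, L.Relations n) (x : Fin R.1 → N₀ ⊕ ℕ), (∀ i m, x i = Sum.inr m → m ∈ G) →
    (D R x ↔ D' R x)

theorem Agr.mono {N₀ : Type} {G G' : Finset ℕ} (h : G ⊆ G') {D D' : Str L (N₀ ⊕ ℕ)}
    (hA : Agr G' D D') : Agr G D D' := fun R x hx => hA R x (fun i m hi => h (hx i m hi))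

theorem Agr.symm {N₀ : Type} {G : Finset ℕ} {D D' : Str L (N₀ ⊕ ℕ)} (hA : Agr G D D') :
    Agr G D' D := fun R x hx => (hA R x hx).symm

theorem Agr.trans {N₀ : Type} {G : Finset ℕ} {D D' D'' : Str L (N₀ ⊕ ℕ)} (hA : Agr G D D')
    (hA' : Agr G D' D'') : Agr G D D'' := fun R x hx => (hA R x hx).trans (hA' R x hx)

theorem Agr.refl {N₀ : Type} (G : Finset ℕ) (D : Str L (N₀ ⊕ ℕ)) : Agr G D D :=
  fun _ _ _ => Iff.rfl

/-- the class of conditions -/
def Kl (B : Str L ℕ) {N₀ : Type} (A₀ : Str L N₀) : Set (Str L (N₀ ⊕ ℕ)) :=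
  {D | D.pull Sum.inl = A₀ ∧ FinEmb D B}

/-- numbers occurring in a finite set -/
def nums {N₀ : Type} [DecidableEq ℕ] (s : Finset (N₀ ⊕ ℕ)) : Finset ℕ :=
  s.biUnion fun u => match u with
    | Sum.inl _ => ∅
    | Sum.inr m => {m}

theorem mem_nums {N₀ : Type} {s : Finset (N₀ ⊕ ℕ)} {m : ℕ} (h : Sum.inr m ∈ s) :
    m ∈ nums s := by
  unfold nums
  rw [Finset.mem_biUnion]
  exact ⟨Sum.inr m, h, by simp⟩

theorem Kl.closed {B : Str L ℕ} {N₀ : Type} {A₀ : Str L N₀} {D : Str L (N₀ ⊕ ℕ)}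
    (h : ∀ G : Finset ℕ, ∃ D' ∈ Kl B A₀, Agr G D' D) : D ∈ Kl B A₀ := by
  classical
  constructor
  · obtain ⟨D', hD', hA⟩ := h ∅
    rw [← hD'.1]
    funext R x
    rw [eq_iff_iff, Str.pull_apply, Str.pull_apply]
    exact (hA R _ (fun i m him => by simp at him)).symm
  · intro s
    obtain ⟨D', hD', hA⟩ := h (nums s)
    obtain ⟨f, hf, hf'⟩ := hD'.2 s
    refine ⟨f, hf, fun R x hx => ?_⟩
    rw [← hf' R x hx]
    refine (hA R x ?_).symm
    intro i m him
    apply mem_nums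
    rw [← him]
    exact hx i

theorem generic (B : Str L ℕ) {N₀ : Type} (A₀ : Str L N₀) {κ : Type} [Countable κ] [Nonempty κ]
    (U : κ → Set (Str L (N₀ ⊕ ℕ)))
    (hU : ∀ n D, D ∈ U n → ∃ G, ∀ D', Agr G D D' → D' ∈ U n)
    (D0 : Str L (N₀ ⊕ ℕ)) (hD0 : D0 ∈ Kl B A₀) :
    ∃ D ∈ Kl B A₀, ∀ n, D ∈ U n ∨ ∃ G, ∀ D' ∈ Kl B A₀, Agr G D D' → D' ∉ U n := by
  classical
  obtain ⟨e, he⟩ := exists_surjective_nat κ
  let St := {p : Str L (N₀ ⊕ ℕ) × Finset ℕ // p.1 ∈ Kl B A₀}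
  let P : ℕ → St → St → Prop := fun n s s' =>
    Agr s.1.2 s.1.1 s'.1.1 ∧ s.1.2 ⊆ s'.1.2 ∧ n ∈ s'.1.2 ∧
      ((∀ D'', Agr s'.1.2 s'.1.1 D'' → D'' ∈ U (e n)) ∨
        ∀ D'' ∈ Kl B A₀, Agr s.1.2 s.1.1 D'' → D'' ∉ U (e n))
  have hstep : ∀ n s, ∃ s', P n s s' := by
    rintro n ⟨⟨D, G⟩, hD⟩
    by_cases h : ∃ D' ∈ Kl B A₀, Agr G D D' ∧ D' ∈ U (e n)
    · obtain ⟨D', hD', hA, hU'⟩ := h
      obtain ⟨G', hG'⟩ := hU _ _ hU'
      refine ⟨⟨⟨D', G ∪ G' ∪ {n}⟩, hD'⟩, hA, ?_, by simp, Or.inl ?_⟩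
      · intro x hx; exact Finset.mem_union_left _ (Finset.mem_union_left _ hx)
      · intro D'' hA''
        refine hG' _ (hA''.mono ?_)
        intro x hx; exact Finset.mem_union_left _ (Finset.mem_union_right _ hx)
    · push Not at h
      refine ⟨⟨⟨D, G ∪ {n}⟩, hD⟩, Agr.refl _ _, ?_, by simp, Or.inr ?_⟩
      · intro x hx; exact Finset.mem_union_left _ hx
      · exact fun D'' hD'' hA'' => h D'' hD'' hA''
  choose F hF using hstep
  let S : ℕ → St := fun n => Nat.rec ⟨⟨D0, ∅⟩, hD0⟩ (fun n s => F n s) n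
  have hS : ∀ n, P n (S n) (S (n + 1)) := fun n => hF n (S n)
  have hmono : ∀ n k, n ≤ k → (S n).1.2 ⊆ (S k).1.2 ∧ Agr (S n).1.2 (S n).1.1 (S k).1.1 := by
    intro n k hnk
    induction k, hnk using Nat.le_induction with
    | base => exact ⟨subset_rfl, Agr.refl _ _⟩
    | succ k _ ih =>
      refine ⟨ih.1.trans (hS k).2.1, ih.2.trans ((hS k).1.mono ih.1)⟩
  let D : Str L (N₀ ⊕ ℕ) := fun R x => ∀ᶠ n in atTop, (S n).1.1 R x
  have hD : ∀ n, Agr (S n).1.2 (S n).1.1 D := by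
    intro n R x hx
    constructor
    · intro h
      filter_upwards [eventually_ge_atTop n] with k hk
      exact ((hmono n k hk).2 R x hx).1 h
    · intro h
      obtain ⟨k, hk, hk'⟩ := (h.and (eventually_ge_atTop n)).exists
      exact ((hmono n k hk').2 R x hx).2 hk
  have hcov : ∀ G : Finset ℕ, ∃ n, G ⊆ (S n).1.2 := by
    intro G
    refine ⟨G.sup id + 1, fun x hx => ?_⟩
    have h1 : x ≤ G.sup id := Finset.le_sup (f := id) hx
    exact (hmono (x + 1) (G.sup id + 1) (by omega)).1 ((hS x).2.2.1)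
  refine ⟨D, ?_, fun i => ?_⟩
  · refine Kl.closed fun G => ?_
    obtain ⟨n, hn⟩ := hcov G
    exact ⟨_, (S n).2, (hD n).mono hn⟩
  · obtain ⟨n, rfl⟩ := he i
    rcases (hS n).2.2.2 with h | h
    · left
      exact h D (hD (n + 1))
    · right
      refine ⟨(S n).1.2, fun D' hD' hA => h D' hD' ((hD n).trans hA)⟩

/-- finite reflection -/
def Refl {N N' : Type} (A : Str L N) (A' : Str L N') (ι : N → N') : Prop :=
  ∀ s' : Finset N', ∃ g : N' → N, (∀ n, ι n ∈ s' → g (ι n) = n) ∧ Set.InjOn g s' ∧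
    ∀ (R : Σ n, L.Relations n) (x : Fin R.1 → N'), (∀ k, x k ∈ s') → (A' R x ↔ A R (g ∘ x))

theorem Refl.retr {N N' : Type} {A : Str L N} {A' : Str L N'} {ι : N → N'}
    (h : Refl A A' ι) : ∃ 𝒱 : Ultrafilter (N' → N), Retr A A' ι 𝒱 := by
  classical
  obtain ⟨𝒰, h𝒰⟩ := cone N'
  choose g h1 h2 h3 using h
  refine ⟨𝒰.map g, ?_, ?_, ?_⟩
  · intro n
    rw [Ultrafilter.coe_map, eventually_map]
    filter_upwards [h𝒰 {ι n}] with F hF
    exact h1 F n (hF (by simp))
  · intro a b hab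
    rw [Ultrafilter.coe_map, eventually_map]
    filter_upwards [h𝒰 {a, b}] with F hF h4
    exact hab (h2 F (hF (by simp)) (hF (by simp)) h4)
  · intro R x
    rw [Ultrafilter.coe_map, eventually_map]
    filter_upwards [h𝒰 (Finset.univ.image x)] with F hF
    exact h3 F R x (fun i => hF (by simp))

theorem exists_ec [Finite L.Symbols] (B : Str L ℕ) (N₀ : Type) [Countable N₀] (A₀ : Str L N₀)
    (h : FinEmb A₀ B) : ∃ D : Str L (N₀ ⊕ ℕ), D.pull Sum.inl = A₀ ∧ FinEmb D B ∧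
      ∀ (N' : Type) (A' : Str L N') (ι : N₀ ⊕ ℕ → N'), Injective ι → FinEmb A' B →
        A'.pull ι = D → Refl D A' ι := by
  classical
  have hfin := finSym L
  obtain ⟨D0, hD0, hD0'⟩ := addpoints B N₀ A₀ h
  let κ : Type := Σ (s : Finset (N₀ ⊕ ℕ)) (k : ℕ), Str L (s ⊕ Fin k)
  have hκc : Countable κ := by
    have : ∀ (s : Finset (N₀ ⊕ ℕ)) (k : ℕ), Finite (Str L (s ⊕ Fin k)) := by
      intro s k
      unfold Str
      infer_instance
    infer_instance
  have hκn : Nonempty κ := ⟨⟨∅, 0, fun _ _ => True⟩⟩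
  let U : κ → Set (Str L (N₀ ⊕ ℕ)) := fun p => {D | ∃ f : Fin p.2.1 → N₀ ⊕ ℕ, Injective f ∧
    (∀ j, f j ∉ p.1) ∧ D.pull (Sum.elim (fun a : p.1 => (a : N₀ ⊕ ℕ)) f) = p.2.2}
  have hU : ∀ n D, D ∈ U n → ∃ G, ∀ D', Agr G D D' → D' ∈ U n := by
    rintro ⟨s, k, P⟩ D ⟨f, hf1, hf2, hf3⟩
    refine ⟨nums (s ∪ Finset.univ.image f), fun D' hA => ⟨f, hf1, hf2, ?_⟩⟩
    rw [← hf3]
    funext R x
    rw [eq_iff_iff, Str.pull_apply, Str.pull_apply]
    refine (hA R _ ?_).symm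
    intro i m him
    apply mem_nums
    rw [← him, Finset.mem_union]
    rcases hx : x i with a | j
    · left
      simp only [comp_apply, hx, Sum.elim_inl]
      exact a.2
    · right
      simp only [comp_apply, hx, Sum.elim_inr]
      exact Finset.mem_image_of_mem _ (Finset.mem_univ _)
  obtain ⟨D, hD, hgen⟩ := generic B A₀ U hU D0 ⟨hD0, hD0'⟩
  refine ⟨D, hD.1, hD.2, fun N' A' ι hι hA' hpull s' => ?_⟩
  -- the part of s' inside N
  let s : Finset (N₀ ⊕ ℕ) := s'.preimage ι hι.injOn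
  let G1 : Finset N' := s'.filter (fun a => a ∉ Set.range ι)
  let k := G1.card
  let e : Fin k ≃ G1 := G1.equivFin.symm
  let q : s ⊕ Fin k → N' := Sum.elim (fun a => ι a.1) (fun j => (e j).1)
  have heG : ∀ j, (e j).1 ∉ Set.range ι := fun j => (Finset.mem_filter.1 (e j).2).2
  have hDU : D ∈ U ⟨s, k, A'.pull q⟩ := by
    rcases hgen ⟨s, k, A'.pull q⟩ with h1 | ⟨G, h1⟩
    · exact h1
    · exfalso
      -- fresh numbers
      obtain ⟨m, hm1, hm2⟩ : ∃ m : Fin k → ℕ, Injective m ∧ ∀ j, m j ∉ G ∪ nums s := by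
        refine ⟨fun j => (G ∪ nums s).sup id + 1 + j, fun a b hab => Fin.ext (by
          have : (G ∪ nums s).sup id + 1 + (a : ℕ) = (G ∪ nums s).sup id + 1 + (b : ℕ) := hab
          omega), fun j hj => ?_⟩
        have := Finset.le_sup (f := id) hj
        simp only [id] at this
        omega
      let f : N₀ ⊕ ℕ → N' := fun a => if ha : ∃ j, a = Sum.inr (m j) then (e ha.choose).1 else ι a
      have hf1 : ∀ j, f (Sum.inr (m j)) = (e j).1 := by
        intro j
        have ha : ∃ j', (Sum.inr (m j) : N₀ ⊕ ℕ) = Sum.inr (m j') := ⟨j, rfl⟩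
        simp only [f]
        rw [dif_pos ha]
        have := ha.choose_spec
        have h2 : m j = m ha.choose := Sum.inr_injective this
        rw [← hm1 h2]
      have hf2 : ∀ a, (∀ j, a ≠ Sum.inr (m j)) → f a = ι a := by
        intro a ha
        simp only [f]
        rw [dif_neg (fun ⟨j, hj⟩ => ha j hj)]
      have hfinj : Injective f := by
        intro a b hab
        by_cases ha : ∃ j, a = Sum.inr (m j)
        · obtain ⟨j, rfl⟩ := ha
          rw [hf1] at hab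
          by_cases hb : ∃ j', b = Sum.inr (m j')
          · obtain ⟨j', rfl⟩ := hb
            rw [hf1] at hab
            have := e.injective (Subtype.ext hab)
            rw [this]
          · push Not at hb
            rw [hf2 b hb] at hab
            exact absurd ⟨b, hab.symm⟩ (heG j)
        · push Not at ha
          rw [hf2 a ha] at hab
          by_cases hb : ∃ j', b = Sum.inr (m j')
          · obtain ⟨j', rfl⟩ := hb
            rw [hf1] at hab
            exact absurd ⟨a, hab⟩ (heG j')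
          · push Not at hb
            rw [hf2 b hb] at hab
            exact hι hab
      refine h1 (A'.pull f) ⟨?_, (FinEmb.of_injective A' f hfinj).trans hA'⟩ ?_ ?_
      · rw [← hD.1, ← hpull, Str.pull_pull, Str.pull_pull]
        congr 1
        funext a
        exact hf2 _ (fun j => by simp)
      · intro R x hx
        rw [← hpull, Str.pull_apply, Str.pull_apply]
        have : f ∘ x = ι ∘ x := by
          funext i
          apply hf2
          intro j hj
          exact hm2 j (Finset.mem_union_left _ (hx i _ hj))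
        rw [this]
      · refine ⟨fun j => Sum.inr (m j), fun a b hab => hm1 (Sum.inr_injective hab), ?_, ?_⟩
        · intro j hj
          exact hm2 j (Finset.mem_union_right _ (mem_nums hj))
        · rw [Str.pull_pull]
          congr 1
          funext a
          rcases a with a | j
          · simp only [comp_apply, Sum.elim_inl, q]
            apply hf2
            intro j hj
            exact hm2 j (Finset.mem_union_right _ (mem_nums (hj ▸ a.2)))
          · simp only [comp_apply, Sum.elim_inr, q]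
            exact hf1 j
  obtain ⟨h0, h1, h2, h3⟩ := hDU
  let g : N' → N₀ ⊕ ℕ := fun a => if ha : ∃ n, ι n = a then ha.choose else
    if hb : a ∈ G1 then h0 (e.symm ⟨a, hb⟩) else Classical.choice ⟨Sum.inr 0⟩
  have hg1 : ∀ n, g (ι n) = n := by
    intro n
    have ha : ∃ n', ι n' = ι n := ⟨n, rfl⟩
    simp only [g]
    rw [dif_pos ha]
    exact hι ha.choose_spec
  have hg2 : ∀ j, g (e j).1 = h0 j := by
    intro j
    have ha : ¬ ∃ n, ι n = (e j).1 := fun ⟨n, hn⟩ => heG j ⟨n, hn⟩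
    simp only [g]
    rw [dif_neg ha, dif_pos (e j).2]
    simp
  have hcase : ∀ a ∈ s', (∃ b : s, a = q (Sum.inl b)) ∨ ∃ j, a = q (Sum.inr j) := by
    intro a ha
    by_cases hr : a ∈ Set.range ι
    · obtain ⟨n, rfl⟩ := hr
      exact Or.inl ⟨⟨n, Finset.mem_preimage.2 ha⟩, rfl⟩
    · right
      refine ⟨e.symm ⟨a, Finset.mem_filter.2 ⟨ha, hr⟩⟩, ?_⟩
      simp [q]
  have hgq : ∀ b, g (q b) = Sum.elim (fun a : s => (a : N₀ ⊕ ℕ)) h0 b := by
    rintro (b | j)
    · exact hg1 _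
    · exact hg2 _
  refine ⟨g, fun n _ => hg1 n, ?_, ?_⟩
  · intro a ha b hb hab
    rcases hcase a ha with ⟨a', rfl⟩ | ⟨j, rfl⟩ <;> rcases hcase b hb with ⟨b', rfl⟩ | ⟨j', rfl⟩
    · rw [hgq, hgq] at hab
      simp only [Sum.elim_inl] at hab
      rw [Subtype.ext hab]
    · rw [hgq, hgq] at hab
      simp only [Sum.elim_inl, Sum.elim_inr] at hab
      exact absurd (hab ▸ a'.2) (h2 j')
    · rw [hgq, hgq] at hab
      simp only [Sum.elim_inl, Sum.elim_inr] at hab
      exact absurd (hab ▸ b'.2) (h2 j)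
    · rw [hgq, hgq] at hab
      simp only [Sum.elim_inr] at hab
      rw [h1 hab]
  · intro R x hx
    have hy : ∀ i, ∃ y : s ⊕ Fin k, x i = q y := by
      intro i
      rcases hcase (x i) (hx i) with ⟨a', h4⟩ | ⟨j, h4⟩
      · exact ⟨_, h4⟩
      · exact ⟨_, h4⟩
    choose y hy using hy
    have hxy : x = q ∘ y := funext hy
    rw [hxy]
    have h4 : g ∘ q ∘ y = Sum.elim (fun a : s => (a : N₀ ⊕ ℕ)) h0 ∘ y := by
      funext i
      exact hgq _
    rw [h4, ← Str.pull_apply D, h3]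
    exact Iff.rfl

theorem main_P3 : StP3 := by
  classical
  intro L _ B I _ N _ A hA
  let N1 : Option I → Type := fun o => match o with
    | none => ℕ
    | some i => N i
  let A1 : ∀ o, Str L (N1 o) := fun o => match o with
    | none => B
    | some i => A i
  have hc : ∀ o, Countable (N1 o) := by
    rintro (_ | i)
    · exact (inferInstance : Countable ℕ)
    · exact (inferInstance : Countable (N i))
  have hA1 : ∀ o, FinEmb (A1 o) B := by
    rintro (_ | i)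
    · exact FinEmb.refl B
    · exact hA i
  obtain ⟨N₀, hN₀, A₀, hA₀, hj⟩ := joint B (Option I) N1 A1 hA1
  obtain ⟨D, hD1, hD2, hD3⟩ := exists_ec B N₀ A₀ hA₀
  obtain ⟨e⟩ := nonempty_equiv_of_countable (α := N₀ ⊕ ℕ) (β := ℕ)
  have hsub : ∀ o, ∃ ι : N1 o → ℕ, Injective ι ∧ (D.pull e.symm).pull ι = A1 o := by
    intro o
    obtain ⟨ι, hι, hι'⟩ := hj o
    refine ⟨e ∘ Sum.inl ∘ ι, e.injective.comp (Sum.inl_injective.comp hι), ?_⟩
    rw [Str.pull_pull, ← hι', ← hD1, Str.pull_pull]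
    congr 1
    funext a
    simp
  refine ⟨D.pull e.symm, ⟨(FinEmb.of_injective D _ e.symm.injective).trans hD2, ?_, ?_⟩,
    fun i => hsub (some i)⟩
  · obtain ⟨ι, hι, hι'⟩ := hsub none
    have hB : B = (D.pull e.symm).pull ι := hι'.symm
    have h1 := FinEmb.of_injective (D.pull e.symm) ι hι
    rw [hι'] at h1
    exact h1
  · intro N' A' ι hι hA' hpull
    have h1 : A'.pull (ι ∘ e) = D := by
      rw [← Str.pull_pull, hpull, Str.pull_pull]
      have : (e.symm ∘ e : N₀ ⊕ ℕ → N₀ ⊕ ℕ) = id := by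
        funext a
        simp
      rw [this]
      rfl
    have h2 := hD3 N' A' (ι ∘ e) (hι.comp e.injective) hA' h1
    apply Refl.retr
    intro s'
    obtain ⟨g, hg1, hg2, hg3⟩ := h2 s'
    refine ⟨e ∘ g, ?_, ?_, ?_⟩
    · intro n hn
      have h3 := hg1 (e.symm n) (by simpa using hn)
      simp only [comp_apply, Equiv.apply_symm_apply] at h3
      rw [comp_apply, h3, Equiv.apply_symm_apply]
    · intro a ha b hb hab
      exact hg2 ha hb (e.injective hab)
    · intro R x hx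
      rw [hg3 R x hx, Str.pull_apply]
      have : e.symm ∘ (e ∘ g) ∘ x = g ∘ x := by
        funext i
        simp
      rw [this]

end Run7.h704.H46P3
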