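import Pool.Agent.Run7.h704.Cond

set_option autoImplicit false

namespace Run7.h704

open Set

universe u v

variable {J : Type u} [LinearOrder J]

/-- The data of an amalgamation: `r` is below the restriction of `p` to the coordinates below `j`; the nodes of the
coordinates above `j` are extended by `ext`, and `X` is the new coordinate `j`. -/
structure Amg (p r : Cnd J) (j : J) (ext : Fn → Fn) (X : Set Fn) : Prop where
  le : r ≤ p.res (Iio j)
  supp : ∀ i, (r.S (some i)).Nonempty → i < j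
  mem : ∀ f ∈ p.S none, ext f ∈ r.S none
  agr : ∀ f ∈ p.S none, Agr p.ht (ext f) f
  sub : X ⊆ r.S none

variable {p r : Cnd J} {j : J} {ext : Fn → Fn} {X : Set Fn}

/-- The amalgamation. -/
def amg (h : Amg p r j ext X) : Cnd J where
  ht := r.ht
  R := r.R
  S o := {g | (g ∈ r.S o) ∨ (o = some j ∧ g ∈ X) ∨ (∃ i, o = some i ∧ j < i ∧ ∃ f ∈ p.S o, g = ext f)}
  norm f hf := by
    rcases hf with hf | ⟨h1, _⟩ | ⟨i, h1, _⟩
    · exact r.norm f hf
    · cases h1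
    · cases h1
  ne := by
    obtain ⟨f, hf⟩ := r.ne
    exact ⟨f, Or.inl hf⟩
  ctb := by
    refine r.ctb.mono ?_
    rintro f (hf | ⟨h1, _⟩ | ⟨i, h1, _⟩)
    · exact hf
    · cases h1
    · cases h1
  br f hf b hb n := by
    rcases hf with hf | ⟨h1, _⟩ | ⟨i, h1, _⟩
    · obtain ⟨g, hg, h2⟩ := r.br f hf b hb n
      exact ⟨g, Or.inl hg, h2⟩
    · cases h1
    · cases h1
  sub o f hf := by
    rcases hf with hf | ⟨h1, h2⟩ | ⟨i, h1, _, g, hg, rfl⟩
    · exact Or.inl (r.sub o hf)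
    · exact Or.inl (h.sub h2)
    · exact Or.inl (h.mem g (p.sub o hg))
  supp := by
    refine ((r.supp.union p.supp).insert (some j)).mono ?_
    rintro o ⟨f, hf | ⟨h1, h2⟩ | ⟨i, h1, _, g, hg, rfl⟩⟩
    · exact Or.inr (Or.inl ⟨f, hf⟩)
    · exact Or.inl h1
    · exact Or.inr (Or.inr ⟨g, hg⟩)

section

variable (h : Amg p r j ext X)
include h

@[simp] theorem amg_ht : (amg h).ht = r.ht := rfl

theorem mem_amg {o : Option J} {g : Fn} : g ∈ (amg h).S o ↔
    (g ∈ r.S o) ∨ (o = some j ∧ g ∈ X) ∨ (∃ i, o = some i ∧ j < i ∧ ∃ f ∈ p.S o, g = ext f) := Iff.rfl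

theorem mem_amg_none {g : Fn} : g ∈ (amg h).S none ↔ g ∈ r.S none := by
  rw [mem_amg]
  constructor
  · rintro (hf | ⟨h1, _⟩ | ⟨i, h1, _⟩)
    · exact hf
    · cases h1
    · cases h1
  · exact Or.inl

theorem mem_amg_lt {i : J} (hi : i < j) {g : Fn} : g ∈ (amg h).S (some i) ↔ g ∈ r.S (some i) := by
  rw [mem_amg]
  constructor
  · rintro (hf | ⟨h1, _⟩ | ⟨k, h1, h2, _⟩)
    · exact hf
    · cases h1
      exact absurd hi (lt_irrefl _)
    · cases h1
      exact absurd hi h2.asymm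
  · exact Or.inl

theorem mem_amg_self {g : Fn} : g ∈ (amg h).S (some j) ↔ g ∈ X := by
  rw [mem_amg]
  constructor
  · rintro (hf | ⟨h1, h2⟩ | ⟨k, h1, h2, _⟩)
    · exact absurd (h.supp j ⟨g, hf⟩) (lt_irrefl _)
    · exact h2
    · cases h1
      exact absurd h2 (lt_irrefl _)
  · exact fun h1 => Or.inr (Or.inl ⟨rfl, h1⟩)

theorem mem_amg_gt {i : J} (hi : j < i) {g : Fn} : g ∈ (amg h).S (some i) ↔ ∃ f ∈ p.S (some i), g = ext f := by
  rw [mem_amg]
  constructor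
  · rintro (hf | ⟨h1, h2⟩ | ⟨k, h1, h2, h3⟩)
    · exact absurd (h.supp i ⟨g, hf⟩) hi.asymm
    · cases h1
      exact absurd hi (lt_irrefl _)
    · exact h3
  · exact fun h1 => Or.inr (Or.inr ⟨i, rfl, hi, h1⟩)

theorem amg_le_right : amg h ≤ r := by
  refine ⟨le_rfl, fun _ _ => rfl, ?_, fun o f hf => ⟨f, Or.inl hf, Agr.refl _ _⟩⟩
  intro o ho g hg
  rcases hg with hf | ⟨h1, h2⟩ | ⟨i, h1, hi, f, hf, rfl⟩
  · exact ⟨g, hf, Agr.refl _ _⟩
  · subst h1
    exact absurd (h.supp j ho) (lt_irrefl _)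
  · subst h1
    exact absurd (h.supp i ho) hi.asymm

theorem amg_le_left (h1 : ∀ x ∈ X, (p.S (some j)).Nonempty → ∃ f ∈ p.S (some j), Agr p.ht x f)
    (h2 : ∀ f ∈ p.S (some j), ∃ x ∈ X, Agr p.ht x f) : amg h ≤ p := by
  refine ⟨h.le.ht, h.le.R, ?_, ?_⟩
  · intro o ho g hg
    rcases o with _ | i
    · rw [mem_amg_none] at hg
      obtain ⟨f, hf, h3⟩ := h.le.down none (p.res (Iio j)).ne g hg
      exact ⟨f, hf.1, h3⟩
    · rcases lt_trichotomy i j with hi | hi | hi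
      · rw [mem_amg_lt h hi] at hg
        obtain ⟨f0, hf0⟩ := ho
        obtain ⟨f, hf, h3⟩ := h.le.down (some i) ⟨f0, mem_res_some.2 ⟨hf0, hi⟩⟩ g hg
        exact ⟨f, hf.1, h3⟩
      · subst hi
        rw [mem_amg_self] at hg
        exact h1 g hg ho
      · rw [mem_amg_gt h hi] at hg
        obtain ⟨f, hf, rfl⟩ := hg
        exact ⟨f, hf, h.agr f (p.sub _ hf)⟩
  · intro o f hf
    rcases o with _ | i
    · obtain ⟨g, hg, h3⟩ := h.le.up none f (mem_res_none.2 hf)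
      exact ⟨g, (mem_amg_none h).2 hg, h3⟩
    · rcases lt_trichotomy i j with hi | hi | hi
      · obtain ⟨g, hg, h3⟩ := h.le.up (some i) f (mem_res_some.2 ⟨hf, hi⟩)
        exact ⟨g, (mem_amg_lt h hi).2 hg, h3⟩
      · subst hi
        obtain ⟨x, hx, h3⟩ := h2 f hf
        exact ⟨x, (mem_amg_self h).2 hx, h3⟩
      · exact ⟨ext f, (mem_amg_gt h hi).2 ⟨f, hf, rfl⟩, h.agr f (p.sub _ hf)⟩

theorem amg_res_le : (amg h).res (Iio j) ≤ r := (res_mono (amg_le_right h)).trans (res_le_of_supp h.supp)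

theorem le_amg_res : r ≤ (amg h).res (Iio j) := by
  refine ⟨le_rfl, fun _ _ => rfl, ?_, ?_⟩
  · rintro o ⟨f0, hf0⟩ g hg
    rcases o with _ | i
    · exact ⟨g, mem_res_none.2 ((mem_amg_none h).2 hg), Agr.refl _ _⟩
    · have hi : i < j := (mem_res_some.1 hf0).2
      exact ⟨g, mem_res_some.2 ⟨(mem_amg_lt h hi).2 hg, hi⟩, Agr.refl _ _⟩
  · intro o f hf
    rcases o with _ | i
    · exact ⟨f, (mem_amg_none h).1 (mem_res_none.1 hf), Agr.refl _ _⟩
    · obtain ⟨hf, hi⟩ := mem_res_some.1 hf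
      exact ⟨f, (mem_amg_lt h hi).1 hf, Agr.refl _ _⟩

end

variable [WellFoundedLT J] {e : J → Node → Set (Cnd J)}

theorem amg_mem (h : Amg p r j ext X) (hp : p ∈ PA e) (hr : r ∈ PA e)
    (hle : amg h ≤ p)
    (hX : X.Nonempty → Dns (PP e j) (e j))
    (hX2 : ∀ f ∈ X, ∀ g ∈ X, ∀ c, Agr c f g → f c ≠ g c → Frc (PP e j) (e j (node c f)) r) :
    amg h ∈ PA e := by
  rintro i ⟨f0, hf0⟩
  rcases lt_trichotomy i j with hi | hi | hi
  · rw [mem_amg_lt h hi] at hf0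
    refine ⟨(hr i ⟨f0, hf0⟩).1, fun f hf g hg c h1 h2 => ?_⟩
    refine (hr i).transfer (amg_le_right h) ⟨f0, hf0⟩ hf hg ?_ h1 h2
    exact r.lt_of_ne ((mem_amg_lt h hi).1 hf) ((mem_amg_lt h hi).1 hg) h2
  · subst hi
    rw [mem_amg_self] at hf0
    refine ⟨hX ⟨f0, hf0⟩, fun f hf g hg c h1 h2 => ?_⟩
    exact (hX2 f ((mem_amg_self h).1 hf) g ((mem_amg_self h).1 hg) c h1 h2).mono (amg_res_le h)
  · rw [mem_amg_gt h hi] at hf0
    obtain ⟨f0, hf0, rfl⟩ := hf0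
    refine ⟨(hp i ⟨f0, hf0⟩).1, fun f hf g hg c h1 h2 => ?_⟩
    refine (hp i).transfer hle ⟨f0, hf0⟩ hf hg ?_ h1 h2
    obtain ⟨f, hf', rfl⟩ := (mem_amg_gt h hi).1 hf
    obtain ⟨g, hg', rfl⟩ := (mem_amg_gt h hi).1 hg
    by_contra hc
    rw [not_lt] at hc
    have h3 : Agr p.ht f g := ((h.agr f (p.sub _ hf')).symm.trans (h1.mono hc)).trans (h.agr g (p.sub _ hg'))
    rw [p.eq_of_agr hf' hg' h3] at h2
    exact h2 rfl

omit [WellFoundedLT J] in
/-- Existence of an extension function. -/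
theorem exists_ext (hle : r ≤ p.res (Iio j)) :
    ∃ ext : Fn → Fn, (∀ f ∈ p.S none, ext f ∈ r.S none) ∧ ∀ f ∈ p.S none, Agr p.ht (ext f) f := by
  classical
  have h1 : ∀ f, ∃ g, f ∈ p.S none → g ∈ r.S none ∧ Agr p.ht g f := by
    intro f
    by_cases hf : f ∈ p.S none
    · obtain ⟨g, hg, h⟩ := hle.up none f (mem_res_none.2 hf)
      exact ⟨g, fun _ => ⟨hg, h⟩⟩
    · exact ⟨f, fun h => absurd h hf⟩
  choose ext hext using h1
  exact ⟨ext, fun f hf => (hext f hf).1, fun f hf => (hext f hf).2⟩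

/-- Pure amalgamation. -/
theorem amalgamate (hp : p ∈ PA e) (hr : r ∈ PP e j) (hle : r ≤ p.res (Iio j)) :
    ∃ q ∈ PA e, q ≤ p ∧ q ≤ r ∧ ∀ i, (q.S (some i)).Nonempty → i < j ∨ (p.S (some i)).Nonempty := by
  obtain ⟨ext, h1, h2⟩ := exists_ext hle
  have h : Amg p r j ext (ext '' p.S (some j)) :=
    ⟨hle, ((mem_PP e).1 hr).2, h1, h2, by
      rintro _ ⟨f, hf, rfl⟩
      exact h1 f (p.sub _ hf)⟩
  have hlep : amg h ≤ p := by
    refine amg_le_left h ?_ ?_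
    · rintro _ ⟨f, hf, rfl⟩ _
      exact ⟨f, hf, h2 f (p.sub _ hf)⟩
    · intro f hf
      exact ⟨ext f, ⟨f, hf, rfl⟩, h2 f (p.sub _ hf)⟩
  refine ⟨amg h, amg_mem h hp (PP_sub hr) hlep ?_ ?_, hlep, amg_le_right h, ?_⟩
  · rintro ⟨_, ⟨f, hf, rfl⟩⟩
    exact (hp j ⟨f, hf⟩).1
  · rintro _ ⟨f, hf, rfl⟩ _ ⟨g, hg, rfl⟩ c h3 h4
    have hc : c < p.ht := by
      by_contra hc
      rw [not_lt] at hc
      have h5 : Agr p.ht f g := ((h2 f (p.sub _ hf)).symm.trans (h3.mono hc)).trans (h2 g (p.sub _ hg))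
      rw [p.eq_of_agr hf hg h5] at h4
      exact h4 rfl
    have h5 := (hp j ⟨f, hf⟩).2 f hf g hg c
      ((((h2 f (p.sub _ hf)).mono hc.le).symm.trans h3).trans ((h2 g (p.sub _ hg)).mono hc.le))
      (by rw [← h2 f (p.sub _ hf) c hc, ← h2 g (p.sub _ hg) c hc]; exact h4)
    rw [← node_congr ((h2 f (p.sub _ hf)).mono hc.le)] at h5
    exact h5.mono hle
  · rintro i ⟨g, hg | ⟨h3, f, hf, rfl⟩ | ⟨k, h3, h4, f, hf, rfl⟩⟩
    · exact Or.inl (((mem_PP e).1 hr).2 i ⟨g, hg⟩)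
    · exact Or.inr ⟨f, by cases h3; exact hf⟩
    · exact Or.inr ⟨f, hf⟩

/-- A sentence about the initial segment of the iteration which is forced there is forced. -/
theorem Frc.lift {N : Set (Cnd J)} (h : Frc (PP e j) N (p.res (Iio j))) : Frc (PA e) N p := by
  intro q hq hqp
  obtain ⟨r, hr, hrq, n, hn, hnj, hrn⟩ := h (q.res (Iio j)) (res_mem_PP hq) (res_mono hqp)
  obtain ⟨s, hs, h1, h2, -⟩ := amalgamate hq hr hrq
  exact ⟨s, hs, h1, n, hn, PP_sub hnj, h2.trans hrn⟩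

/-- Splitting of a node of a coordinate. -/
theorem split (hp : p ∈ PA e) {s : Fn} (hs : s ∈ p.S (some j)) :
    ∃ q ∈ PA e, q ≤ p ∧ ∃ g0 ∈ q.S (some j), ∃ g1 ∈ q.S (some j), Agr p.ht g0 s ∧ Agr p.ht g1 s ∧
      ∃ c, p.ht ≤ c ∧ c < q.ht ∧ Agr c g0 g1 ∧ g0 c = 0 ∧ g1 c = 1 ∧
        (∀ h ∈ q.S (some j), Agr c h g0 → h c = 0 ∨ h c = 1) ∧
        Frc (PP e j) (e j (node c g0)) (q.res (Iio j)) := by
  obtain ⟨r, hr, hrp, g, hg, hgs, c, hpc, hcr, hF⟩ := (hp j ⟨s, hs⟩).1 (p.res (Iio j)) (res_mem_PP hp) s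
    (mem_res_none.2 (p.sub _ hs))
  obtain ⟨ext, h1, h2⟩ := exists_ext hrp
  obtain ⟨g0, hg0, h3, h4⟩ := r.br g hg c hcr 0
  obtain ⟨g1, hg1, h5, h6⟩ := r.br g hg c hcr 1
  have hg0s : Agr p.ht g0 s := (h3.mono hpc).trans hgs
  have hg1s : Agr p.ht g1 s := (h5.mono hpc).trans hgs
  have h : Amg p r j ext (ext '' {f | f ∈ p.S (some j) ∧ f ≠ s} ∪ {g0, g1}) :=
    ⟨hrp, ((mem_PP e).1 hr).2, h1, h2, by
      rintro _ (⟨f, hf, rfl⟩ | rfl | rfl)
      · exact h1 f (p.sub _ hf.1)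
      · exact hg0
      · exact hg1⟩
  have key : ∀ x ∈ ext '' {f | f ∈ p.S (some j) ∧ f ≠ s} ∪ {g0, g1}, ∃ f ∈ p.S (some j), Agr p.ht x f ∧
      (f ≠ s → x = ext f) ∧ (f = s → x = g0 ∨ x = g1) := by
    rintro _ (⟨f, hf, rfl⟩ | rfl | rfl)
    · exact ⟨f, hf.1, h2 f (p.sub _ hf.1), fun _ => rfl, fun h => absurd h hf.2⟩
    · exact ⟨s, hs, hg0s, fun h => absurd rfl h, fun _ => Or.inl rfl⟩
    · exact ⟨s, hs, hg1s, fun h => absurd rfl h, fun _ => Or.inr rfl⟩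
  have hlep : amg h ≤ p := by
    refine amg_le_left h ?_ ?_
    · intro x hx _
      obtain ⟨f, hf, hxf, -⟩ := key x hx
      exact ⟨f, hf, hxf⟩
    · intro f hf
      by_cases hfs : f = s
      · subst hfs
        exact ⟨g0, Or.inr (Or.inl rfl), hg0s⟩
      · exact ⟨ext f, Or.inl ⟨f, ⟨hf, hfs⟩, rfl⟩, h2 f (p.sub _ hf)⟩
  have hq : amg h ∈ PA e := by
    refine amg_mem h hp (PP_sub hr) hlep (fun _ => (hp j ⟨s, hs⟩).1) ?_
    intro x hx y hy d hxy hxy'
    obtain ⟨f, hf, hxf, hx1, hx2⟩ := key x hx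
    obtain ⟨f', hf', hyf, hy1, hy2⟩ := key y hy
    rcases lt_or_ge d p.ht with hd | hd
    · have h7 := (hp j ⟨s, hs⟩).2 f hf f' hf' d (((hxf.mono hd.le).symm.trans hxy).trans (hyf.mono hd.le))
        (by rw [← hxf d hd, ← hyf d hd]; exact hxy')
      rw [← node_congr (hxf.mono hd.le)] at h7
      exact h7.mono hrp
    · have h7 : f = f' := p.eq_of_agr hf hf' ((hxf.symm.trans (hxy.mono hd)).trans hyf)
      subst h7
      by_cases hfs : f = s
      · have h8 : d = c ∧ Agr c x g := by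
          rcases hx2 hfs with rfl | rfl <;> rcases hy2 hfs with rfl | rfl
          · exact absurd rfl hxy'
          · have : d = c := by
              rcases lt_trichotomy d c with hlt | heq | hlt
              · exact absurd ((h3 d hlt).trans (h5 d hlt).symm) hxy'
              · exact heq
              · have := hxy c hlt
                rw [h4, h6] at this
                exact absurd this (by norm_num)
            exact ⟨this, h3⟩
          · have : d = c := by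
              rcases lt_trichotomy d c with hlt | heq | hlt
              · exact absurd ((h5 d hlt).trans (h3 d hlt).symm) hxy'
              · exact heq
              · have := hxy c hlt
                rw [h4, h6] at this
                exact absurd this (by norm_num)
            exact ⟨this, h5⟩
          · exact absurd rfl hxy'
        obtain ⟨rfl, h9⟩ := h8
        rw [node_congr h9]
        exact hF
      · rw [hx1 hfs, hy1 hfs] at hxy'
        exact absurd rfl hxy'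
  refine ⟨amg h, hq, hlep, g0, (mem_amg_self h).2 (Or.inr (Or.inl rfl)), g1, (mem_amg_self h).2 (Or.inr (Or.inr rfl)),
    hg0s, hg1s, c, hpc, hcr, h3.trans h5.symm, h4, h6, ?_, ?_⟩
  · intro x hx hxg
    rw [mem_amg_self] at hx
    obtain ⟨f, hf, hxf, hx1, hx2⟩ := key x hx
    have h7 : f = s := p.eq_of_agr hf hs ((hxf.symm.trans (hxg.mono hpc)).trans hg0s)
    rcases hx2 h7 with rfl | rfl
    · exact Or.inl h4
    · exact Or.inr h6
  · rw [node_congr h3]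
    exact hF.mono (amg_res_le h)

/-- A fresh coordinate. -/
theorem fresh (hp : p ∈ PP e j) (hD : Dns (PP e j) (e j)) {s : Fn} (hs : s ∈ p.S none) :
    ∃ q ∈ PA e, q ≤ p ∧ q.ht = p.ht ∧ q.S none = p.S none ∧ q.S (some j) = {s} := by
  have hlt := ((mem_PP e).1 hp).2
  have h : Amg p p j id {s} :=
    ⟨le_res, hlt, fun f hf => hf, fun f _ => Agr.refl _ _, by rintro _ rfl; exact hs⟩
  have hlep : amg h ≤ p := amg_le_right h
  refine ⟨amg h, amg_mem h (PP_sub hp) (PP_sub hp) hlep (fun _ => hD) ?_, hlep, rfl, ?_, ?_⟩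
  · rintro _ rfl _ rfl c h1 h2
    exact absurd rfl h2
  · ext g
    exact mem_amg_none h
  · ext g
    exact mem_amg_self h

end Run7.h704
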