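import Mathlib

set_option autoImplicit false

namespace Run7.h704

open Set

universe u v

/-- The set `ω₁`. -/
abbrev W : Type := (Ordinal.omega.{0} 1).ToType

theorem W_mk : Cardinal.mk W = Cardinal.aleph 1 := by
  rw [Cardinal.mk_toType, Ordinal.card_omega]

instance : Nonempty W := by
  rw [← Cardinal.mk_ne_zero_iff, W_mk]
  exact (Cardinal.aleph_pos 1).ne'

theorem W_Iio_countable (a : W) : (Iio a).Countable := by
  have h : Cardinal.mk (Iio a) < Cardinal.mk W := Cardinal.mk_Iio_lt a (by
    rw [W_mk, Cardinal.ord_aleph]; simp)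
  rw [W_mk, ← Cardinal.succ_aleph0, Order.lt_succ_iff] at h
  exact Cardinal.le_aleph0_iff_set_countable.1 h

theorem W_Iic_countable (a : W) : (Iic a).Countable := by
  rw [← Iio_insert]
  exact (W_Iio_countable a).insert a

theorem W_bdd {s : Set W} (hs : s.Countable) : ∃ b, ∀ a ∈ s, a < b := by
  by_contra hc
  push Not at hc
  have h1 : (univ : Set W) ⊆ ⋃ a ∈ s, Iic a := by
    intro b _
    obtain ⟨a, ha, h⟩ := hc b
    exact mem_biUnion ha h
  have h2 : (univ : Set W).Countable := (hs.biUnion fun a _ => W_Iic_countable a).mono h1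
  have h3 : Cardinal.mk W ≤ Cardinal.aleph0 := by
    rw [← Cardinal.mk_univ]
    exact Cardinal.le_aleph0_iff_set_countable.2 h2
  rw [W_mk] at h3
  exact absurd h3 (not_le.2 Cardinal.aleph0_lt_aleph_one)

theorem W_gt (a : W) : ∃ b, a < b := by
  obtain ⟨b, hb⟩ := W_bdd (countable_singleton a)
  exact ⟨b, hb a rfl⟩

instance : NoMaxOrder W := ⟨W_gt⟩

/-- the successor -/
noncomputable def sc (a : W) : W := WellFounded.min wellFounded_lt (Ioi a) (W_gt a)

theorem lt_sc (a : W) : a < sc a := WellFounded.min_mem wellFounded_lt (Ioi a) (W_gt a)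

theorem lt_sc_iff {a b : W} : b < sc a ↔ b ≤ a := by
  constructor
  · intro h
    by_contra hc
    exact WellFounded.not_lt_min wellFounded_lt (Ioi a) (show b ∈ Ioi a from not_le.1 hc) h
  · exact fun h => h.trans_lt (lt_sc a)

theorem sc_le_iff {a b : W} : sc a ≤ b ↔ a < b := by
  rw [← not_lt, lt_sc_iff, not_le]

theorem W_lub (s : ℕ → W) : ∃ α, (∀ n, s n ≤ α) ∧ ∀ c < α, ∃ n, c < s n := by
  have hne : {b | ∀ n, s n ≤ b}.Nonempty := by
    obtain ⟨b, hb⟩ := W_bdd (countable_range s)
    exact ⟨b, fun n => (hb _ ⟨n, rfl⟩).le⟩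
  refine ⟨WellFounded.min wellFounded_lt _ hne, WellFounded.min_mem wellFounded_lt _ hne, fun c hc => ?_⟩
  by_contra h
  push Not at h
  exact WellFounded.not_lt_min wellFounded_lt {b | ∀ n, s n ≤ b} (show c ∈ {b | ∀ n, s n ≤ b} from h) hc

/-! ### Functions and nodes -/

/-- total functions, representing functions from countable ordinals to `ω` -/
abbrev Fn : Type := W → ℕ

/-- A function from a countable ordinal to `ω`. -/
def Node : Type := Σ a : W, (Set.Iio a → ℕ)

/-- The node of height `a` determined by the function `f`. -/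
def node (a : W) (f : Fn) : Node := ⟨a, fun b => f b.1⟩

/-- agreement below `a` -/
def Agr (a : W) (f g : Fn) : Prop := ∀ b < a, f b = g b

theorem Agr.refl (a : W) (f : Fn) : Agr a f f := fun _ _ => rfl
theorem Agr.symm {a : W} {f g : Fn} (h : Agr a f g) : Agr a g f := fun b hb => (h b hb).symm
theorem Agr.trans {a : W} {f g h : Fn} (h1 : Agr a f g) (h2 : Agr a g h) : Agr a f h :=
  fun b hb => (h1 b hb).trans (h2 b hb)
theorem Agr.mono {a b : W} {f g : Fn} (h : Agr b f g) (hab : a ≤ b) : Agr a f g :=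
  fun c hc => h c (hc.trans_le hab)

theorem node_congr {a : W} {f g : Fn} (h : Agr a f g) : node a f = node a g := by
  unfold node
  congr 1
  funext b
  exact h b.1 b.2

theorem node_inj {a b : W} {f g : Fn} (h : node a f = node b g) : a = b ∧ Agr a f g := by
  have h1 : a = b := congrArg Sigma.fst h
  subst h1
  refine ⟨rfl, fun c hc => ?_⟩
  have h2 := eq_of_heq (Sigma.mk.inj h).2
  exact congrFun h2 ⟨c, hc⟩

theorem node_eq_iff {a b : W} {f g : Fn} : node a f = node b g ↔ a = b ∧ Agr a f g :=
  ⟨node_inj, fun h => by obtain ⟨rfl, h⟩ := h; exact node_congr h⟩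

/-- the total function associated to a node -/
noncomputable def Node.fn (t : Node) : Fn := by
  classical
  exact fun b => if h : b < t.1 then t.2 ⟨b, h⟩ else 0

theorem Node.fn_of_lt (t : Node) {b : W} (h : b < t.1) : t.fn b = t.2 ⟨b, h⟩ := by
  unfold Node.fn
  simp [h]

theorem node_fn (t : Node) : node t.1 t.fn = t := by
  unfold node
  refine Sigma.ext rfl (heq_of_eq ?_)
  funext b
  exact t.fn_of_lt b.2

/-- Two functions which differ somewhere have a first difference. -/
theorem exists_diff {f g : Fn} {a : W} (h : ¬ Agr a f g) : ∃ c < a, Agr c f g ∧ f c ≠ g c := by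
  have hne : {c | c < a ∧ f c ≠ g c}.Nonempty := by
    unfold Agr at h
    push Not at h
    exact h
  obtain ⟨h1, h2⟩ := WellFounded.min_mem wellFounded_lt _ hne
  refine ⟨_, h1, fun b hb => ?_, h2⟩
  by_contra hc
  exact WellFounded.not_lt_min wellFounded_lt {c | c < a ∧ f c ≠ g c}
    (show b ∈ {c | c < a ∧ f c ≠ g c} from ⟨hb.trans h1, hc⟩) hb

end Run7.h704
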