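import Pool.Agent.Run7.h704.CC

set_option autoImplicit false

namespace Run7.h704

open Set Cardinal

/-- The conditions with support below `ρ`. -/
def CB (ρ : JJ) : Set (Cnd JJ) := {p | ∀ i, (p.S (some i)).Nonempty → i < ρ}

theorem mk_CB (ρ : JJ) : #(CB ρ) ≤ mu := by
  classical
  have h1 : ∀ p : CB ρ, ∃ x : Dt × (ℕ → Option (Iio ρ)), Tr p.1 x.1 (fun n => (x.2 n).map Subtype.val) ∧
      {o | (p.1.S o).Nonempty} = range (fun n => (x.2 n).map Subtype.val) := by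
    intro p
    obtain ⟨f, hf⟩ := exists_sp p.1
    have h2 : ∀ n, ∃ y : Option (Iio ρ), y.map Subtype.val = f n := by
      intro n
      have h3 : f n ∈ {o | (p.1.S o).Nonempty} := by
        rw [hf]
        exact ⟨n, rfl⟩
      cases h4 : f n with
      | none => exact ⟨none, rfl⟩
      | some i =>
        rw [h4] at h3
        exact ⟨some ⟨i, p.2 i h3⟩, rfl⟩
    choose g hg using h2
    have h5 : (fun n => (g n).map Subtype.val) = f := funext hg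
    obtain ⟨d, hd⟩ := exists_Tr p.1 f
    exact ⟨(d, g), by rw [h5]; exact hd, by rw [h5]; exact hf⟩
  choose F hF1 hF2 using h1
  have hinj : Function.Injective F := by
    intro p q h
    refine Subtype.ext (eq_of_Tr (hF1 p) ?_ (hF2 p).subset ?_)
    · rw [h]
      exact hF1 q
    · rw [h]
      exact (hF2 q).subset
  refine (mk_le_of_injective hinj).trans ?_
  rw [mk_prod, lift_id, lift_id, mk_arrow, lift_id, lift_id, mk_nat]
  refine mul_le_of_le aleph0_le_mu (mk_Dt.trans kp_le_mu) ?_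
  refine (power_le_power_right ?_).trans_eq mu_pow0
  rw [mk_option]
  exact add_le_of_le aleph0_le_mu (JJ_Iio ρ) (one_le_aleph0.trans aleph0_le_mu)

theorem mk_Node : #Node ≤ kp := by
  have h : Function.Injective (fun t : Node => (t.1, t.fn)) := by
    intro s t h
    simp only [Prod.mk.injEq] at h
    rw [← node_fn s, ← node_fn t, h.1, h.2]
  refine (mk_le_of_injective h).trans ?_
  rw [mk_prod, lift_id, lift_id]
  exact mul_le_of_le aleph0_le_kp (by rw [W_mk]; exact (cantor _).le) mk_Fn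

/-- The names. -/
abbrev NB : Type := {N : Node → Set (Cnd JJ) // ∃ ρ, ∀ t, N t ⊆ CB ρ ∧ #(N t) ≤ kp}

theorem mk_NB : #NB ≤ Order.succ mu := by
  classical
  let G : (Σ ρ : JJ, (Node → {X : Set (CB ρ) // #X ≤ kp})) → NB := fun x =>
    ⟨fun t => Subtype.val '' (x.2 t).1, x.1, fun t => ⟨by
      rintro _ ⟨p, _, rfl⟩
      exact p.2, mk_image_le.trans (x.2 t).2⟩⟩
  have hG : Function.Surjective G := by
    rintro ⟨N, ρ, h⟩
    refine ⟨⟨ρ, fun t => ⟨Subtype.val ⁻¹' N t, ?_⟩⟩, Subtype.ext (funext fun t => ?_)⟩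
    · refine le_trans ?_ (h t).2
      exact mk_preimage_of_injective _ _ Subtype.val_injective
    · ext p
      constructor
      · rintro ⟨p, hp, rfl⟩
        exact hp
      · intro hp
        exact ⟨⟨p, (h t).1 hp⟩, hp, rfl⟩
  refine (mk_le_of_surjective hG).trans ?_
  rw [mk_sigma]
  refine (sum_le_sum _ (fun _ => mu) fun ρ => ?_).trans ?_
  · rw [mk_arrow, lift_id, lift_id]
    have h1 : #{X : Set (CB ρ) // #X ≤ kp} ≤ mu := by
      refine (mk_bounded_set_le _ _).trans ?_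
      refine (power_le_power_right (max_le (mk_CB ρ) aleph0_le_mu)).trans_eq mu_pow
    refine (power_le_power_right h1).trans ?_
    refine (power_le_power_left ?_ mk_Node).trans_eq mu_pow
    exact (aleph0_pos.trans_le aleph0_le_mu).ne'
  · rw [sum_const', mk_JJ]
    exact mul_le_of_le (aleph0_le_mu.trans (Order.le_succ _)) le_rfl (Order.le_succ _)

/-- The bookkeeping function. -/
theorem exists_book : ∃ e : JJ → Node → Set (Cnd JJ), ∀ N : NB, ∀ ξ, ∃ j, ξ ≤ j ∧ e j = N.1 := by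
  classical
  have h1 : #(NB × JJ) ≤ #JJ := by
    rw [mk_prod, lift_id, lift_id, mk_JJ]
    exact mul_le_of_le (aleph0_le_mu.trans (Order.le_succ _)) mk_NB le_rfl
  obtain ⟨F⟩ := Cardinal.le_def _ _ |>.1 h1
  refine ⟨fun j => if h : ∃ x, F x = j then h.choose.1.1 else fun _ => ∅, fun N ξ => ?_⟩
  have h2 : ∃ k, ξ ≤ F (N, k) := by
    by_contra hc
    push Not at hc
    have h3 : Function.Injective (fun k : JJ => (⟨F (N, k), hc k⟩ : Iio ξ)) := by
      intro a b hab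
      have := F.injective (Subtype.ext_iff.1 hab)
      exact (Prod.mk.inj this).2
    have h4 := (mk_le_of_injective h3).trans (JJ_Iio ξ)
    rw [mk_JJ] at h4
    exact absurd h4 (not_le.2 (Order.lt_succ _))
  obtain ⟨k, hk⟩ := h2
  refine ⟨F (N, k), hk, ?_⟩
  have h5 : ∃ x, F x = F (N, k) := ⟨_, rfl⟩
  beta_reduce
  rw [dif_pos h5, F.injective h5.choose_spec]

section

variable {e : JJ → Node → Set (Cnd JJ)}

theorem exists_rk {p : Cnd JJ} (hp : p ∈ PA e) : ∃ ρ, p ∈ PP e ρ := by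
  have h1 : #{i | (p.S (some i)).Nonempty} ≤ mu := by
    have h2 : {i | (p.S (some i)).Nonempty}.Countable := p.supp.preimage (Option.some_injective _)
    exact (le_aleph0_iff_set_countable.2 h2).trans aleph0_le_mu
  obtain ⟨b, hb⟩ := JJ_bdd h1
  exact ⟨b, (mem_PP e).2 ⟨hp, fun i hi => hb i hi⟩⟩

theorem mk_PP (ρ : JJ) : #(PP e ρ) ≤ mu :=
  (mk_le_mk_of_subset fun _ hp => ((mem_PP e).1 hp).2).trans (mk_CB ρ)

/-- The property of the witnesses. -/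
def Wit (D : Node → Set (Cnd JJ)) (p : Cnd JJ) (f : Fn) (r : Cnd JJ) : Prop :=
  r ≤ p ∧ ∃ g ∈ r.S none, Agr p.ht g f ∧ ∃ c, p.ht ≤ c ∧ c < r.ht ∧ r ∈ D (node c g)

theorem exists_next {D : Node → Set (Cnd JJ)} (hD : ∀ p ∈ PA e, ∀ f ∈ p.S none, ∃ r ∈ PA e, Wit D p f r) (ρ : JJ) :
    ∃ ρ', ρ < ρ' ∧ ∀ p ∈ PP e ρ, ∀ f ∈ p.S none, ∃ r ∈ PP e ρ', Wit D p f r := by
  have h1 : ∀ x : {x : PP e ρ × Fn // x.2 ∈ x.1.1.S none}, ∃ ρ', ∃ r ∈ PP e ρ', Wit D x.1.1.1 x.1.2 r := by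
    rintro ⟨⟨⟨p, hp⟩, f⟩, hf⟩
    obtain ⟨r, hr, h⟩ := hD p (PP_sub hp) f hf
    obtain ⟨ρ', hρ'⟩ := exists_rk hr
    exact ⟨ρ', r, hρ', h⟩
  choose R hR using h1
  have h2 : #(range R ∪ {ρ} : Set JJ) ≤ mu := by
    refine (mk_union_le _ _).trans (add_le_of_le aleph0_le_mu ?_ ?_)
    · refine mk_range_le.trans ((mk_subtype_le _).trans ?_)
      rw [mk_prod, lift_id, lift_id]
      exact mul_le_of_le aleph0_le_mu (mk_PP ρ) (mk_Fn.trans kp_le_mu)
    · rw [mk_singleton]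
      exact one_le_aleph0.trans aleph0_le_mu
  obtain ⟨b, hb⟩ := JJ_bdd h2
  refine ⟨b, hb ρ (Or.inr rfl), fun p hp f hf => ?_⟩
  obtain ⟨r, hr, h⟩ := hR ⟨⟨⟨p, hp⟩, f⟩, hf⟩
  exact ⟨r, PP_mono (hb _ (Or.inl ⟨_, rfl⟩)).le hr, h⟩

/-- Closure of an initial segment. -/
theorem exists_clo {D : Node → Set (Cnd JJ)} (hD : ∀ p ∈ PA e, ∀ f ∈ p.S none, ∃ r ∈ PA e, Wit D p f r) (ξ : JJ) :
    ∃ ρ, ξ < ρ ∧ ∀ p ∈ PP e ρ, ∀ f ∈ p.S none, ∃ r ∈ PP e ρ, Wit D p f r := by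
  choose nx hnx1 hnx2 using exists_next hD
  have hb : ∀ (α : W) (rec : ∀ β : W, β < α → JJ), ∃ b, ξ < b ∧ ∀ β (h : β < α), nx (rec β h) < b := by
    intro α rec
    have h1 : #(insert ξ (range fun β : Iio α => nx (rec β.1 β.2)) : Set JJ) ≤ mu := by
      refine (le_aleph0_iff_set_countable.2 ?_).trans aleph0_le_mu
      have : Countable (Iio α) := (W_Iio_countable α).to_subtype
      exact (countable_range _).insert _
    obtain ⟨b, hb⟩ := JJ_bdd h1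
    exact ⟨b, hb _ (Or.inl rfl), fun β h => hb _ (Or.inr ⟨⟨β, h⟩, rfl⟩)⟩
  choose B hB1 hB2 using hb
  let h : W → JJ := WellFounded.fix (r := fun a b : W => a < b) wellFounded_lt B
  have hh : ∀ α, h α = B α fun β _ => h β := fun α => WellFounded.fix_eq _ _ _
  have h1 : ∀ α, ξ < h α := fun α => by
    rw [hh]
    exact hB1 _ _
  have h2 : ∀ α β, β < α → nx (h β) < h α := fun α β hβ => by
    rw [hh α]
    exact hB2 α (fun β _ => h β) β hβ
  have h3 : #(range h) ≤ mu := mk_range_le.trans (by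
    rw [W_mk]
    exact (cantor _).le.trans kp_le_mu)
  have hne : {b | ∀ α, h α < b}.Nonempty := by
    obtain ⟨b, hb⟩ := JJ_bdd h3
    exact ⟨b, fun α => hb _ ⟨α, rfl⟩⟩
  let ρ := WellFounded.min wellFounded_lt _ hne
  have hρ : ∀ α, h α < ρ := WellFounded.min_mem wellFounded_lt _ hne
  have hρ2 : ∀ i, i < ρ → ∃ α, i < h α := by
    intro i hi
    by_contra hc
    push Not at hc
    refine WellFounded.not_lt_min wellFounded_lt {b | ∀ α, h α < b} (show i ∈ {b | ∀ α, h α < b} from fun α => ?_) hi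
    exact (hnx1 (h α)).trans_le ((h2 _ _ (lt_sc α)).le.trans (hc (sc α)))
  refine ⟨ρ, (h1 (Classical.arbitrary W)).trans (hρ _), fun p hp f hf => ?_⟩
  have h4 : ∃ α, p ∈ PP e (h α) := by
    obtain ⟨hpA, hps⟩ := (mem_PP e).1 hp
    have h5 : ∀ i : {i | (p.S (some i)).Nonempty}, ∃ α, i.1 < h α := fun i => hρ2 _ (hps _ i.2)
    choose a ha using h5
    have h6 : Countable {i | (p.S (some i)).Nonempty} := (p.supp.preimage (Option.some_injective _)).to_subtype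
    obtain ⟨α, hα⟩ := W_bdd (countable_range a)
    refine ⟨α, (mem_PP e).2 ⟨hpA, fun i hi => (ha ⟨i, hi⟩).trans ?_⟩⟩
    exact (hnx1 _).trans (h2 _ _ (hα _ ⟨_, rfl⟩))
  obtain ⟨α, hα⟩ := h4
  obtain ⟨r, hr, h5⟩ := hnx2 (h α) p hα f hf
  exact ⟨r, PP_mono ((h2 _ _ (lt_sc α)).trans (hρ _)).le hr, h5⟩

/-- Maximal antichains. -/
theorem exists_maxAnti (S : Set (Cnd JJ)) : ∃ A ⊆ S, (∀ a ∈ A, ∀ b ∈ A, ∀ r ∈ PA e, r ≤ a → r ≤ b → a = b) ∧
    ∀ p ∈ S, p ∈ PA e → ∃ a ∈ A, ∃ r ∈ PA e, r ≤ a ∧ r ≤ p := by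
  obtain ⟨A, hA⟩ := zorn_subset {A : Set (Cnd JJ) | A ⊆ S ∧ ∀ a ∈ A, ∀ b ∈ A, ∀ r ∈ PA e, r ≤ a → r ≤ b → a = b}
    (fun c hc hch => ⟨⋃₀ c, ⟨sUnion_subset fun A hA => (hc hA).1, by
      rintro a ⟨A, hA, ha⟩ b ⟨B, hB, hb⟩
      rcases hch.total hA hB with h | h
      · exact (hc hB).2 a (h ha) b hb
      · exact (hc hA).2 a ha b (h hb)⟩, fun s hs => subset_sUnion_of_mem hs⟩)
  refine ⟨A, hA.1.1, hA.1.2, fun p hp hpA => ?_⟩
  by_contra hc
  push Not at hc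
  have h1 : insert p A ⊆ A := hA.2 ⟨insert_subset hp hA.1.1, by
    rintro a (rfl | ha) b (rfl | hb) r hr h1 h2
    · rfl
    · exact absurd h1 (hc b hb r hr h2)
    · exact absurd h2 (hc a ha r hr h1)
    · exact hA.1.2 a ha b hb r hr h1 h2⟩ (subset_insert _ _)
  exact hc p (h1 (mem_insert _ _)) p hpA le_rfl le_rfl

theorem BK_of (he : ∀ N : NB, ∀ ξ, ∃ j, ξ ≤ j ∧ e j = N.1) : BK e := by
  intro D hD1 hD2 hD3 q hq
  obtain ⟨ξ, hξ⟩ := exists_rk hq
  obtain ⟨ρ, hρ, hclo⟩ := exists_clo (e := e) (D := D) hD3 ξ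
  choose N hN1 hN2 hN3 using fun t => exists_maxAnti (e := e) (D t ∩ PP e ρ)
  obtain ⟨j, hj, hej⟩ := he ⟨N, ρ, fun t => ⟨fun p hp => ((mem_PP e).1 (hN1 t hp).2).2,
    cc (e := e) (N t) (fun p hp => PP_sub (hN1 t hp).2) (hN2 t)⟩⟩ ρ
  refine ⟨j, PP_mono (hρ.le.trans hj) hξ, ?_, ?_⟩
  · intro p hp f hf
    obtain ⟨r, hr, hrp, g, hg, hgf, c, hc1, hc2, hrD⟩ := hclo (p.res (Iio ρ)) (res_mem_PP (PP_sub hp)) f
      (mem_res_none.2 hf)
    obtain ⟨q, hq, hqp, hqr, hqs⟩ := amalgamate (PP_sub hp) hr hrp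
    obtain ⟨g', hg', hgg⟩ := hqr.up none g hg
    have hqj : q ∈ PP e j := (mem_PP e).2 ⟨hq, fun i hi => by
      rcases hqs i hi with h | h
      · exact h.trans_le hj
      · exact ((mem_PP e).1 hp).2 i h⟩
    refine ⟨q, hqj, hqp, g', hg', (hgg.mono hrp.ht).trans hgf, c, hc1, hc2.trans_le hqr.ht, ?_⟩
    rw [node_congr (hgg.mono hc2.le), hej]
    intro q' hq' hq'q
    have h1 : q'.res (Iio ρ) ∈ PP e ρ := res_mem_PP (PP_sub hq')
    have h2 : q'.res (Iio ρ) ≤ r := (res_mono (hq'q.trans hqr)).trans (res_le_of_supp ((mem_PP e).1 hr).2)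
    obtain ⟨a, ha, r1, hr1, hr1a, hr1q⟩ := hN3 (node c g) (q'.res (Iio ρ)) ⟨hD2 _ r hrD _ (PP_sub h1) h2, h1⟩ (PP_sub h1)
    have h3 : r1.res (Iio ρ) ≤ q'.res (Iio ρ) := (res_mono hr1q).trans (res_le_of_supp ((mem_PP e).1 h1).2)
    obtain ⟨s, hs, hsq, hsr, hss⟩ := amalgamate (PP_sub hq') (res_mem_PP hr1) h3
    refine ⟨s, (mem_PP e).2 ⟨hs, fun i hi => ?_⟩, hsq, a, ha, PP_mono hj (hN1 _ ha).2, ?_⟩
    · rcases hss i hi with h | h
      · exact h.trans_le hj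
      · exact ((mem_PP e).1 hq').2 i h
    · exact hsr.trans ((res_mono hr1a).trans (res_le_of_supp ((mem_PP e).1 (hN1 _ ha).2).2))
  · intro t n hn _
    rw [hej] at hn
    exact (hN1 t hn).1

end

end Run7.h704
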