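import Pool.Agent.Run7.h704.Card

set_option autoImplicit false

namespace Run7.h704

open Set Cardinal

/-- Codes for the countable data of a condition. -/
abbrev Dt : Type := W × (W → Set ℕ) × (ℕ → Fn) × (ℕ → Set ℕ)

theorem mk_Dt : #Dt ≤ kp := by
  have h0 := aleph0_le_kp
  have h1 : #W ≤ kp := by rw [W_mk]; exact (cantor _).le
  have h2 : #(W → Set ℕ) ≤ kp := by
    rw [mk_arrow, lift_id, lift_id, W_mk, mk_set, mk_nat, ← power_mul, aleph0_mul_eq (aleph0_le_aleph 1)]
    exact le_rfl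
  have h3 : #(ℕ → Fn) ≤ kp := by
    rw [mk_arrow, lift_id, lift_id, mk_nat]
    exact (power_le_power_right mk_Fn).trans_eq kp_pow
  have h4 : #(ℕ → Set ℕ) ≤ kp := by
    rw [mk_arrow, lift_id, lift_id, mk_nat, mk_set, mk_nat]
    refine (power_le_power_right ?_).trans_eq kp_pow
    exact power_le_power_left two_ne_zero (aleph0_le_aleph 1)
  rw [Dt, mk_prod, mk_prod, mk_prod]
  simp only [lift_id]
  exact mul_le_of_le h0 h1 (mul_le_of_le h0 h2 (mul_le_of_le h0 h3 h4))

section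

universe u

variable {J : Type u}

/-- The trace of a condition on countably many coordinates. -/
def Tr (p : Cnd J) (d : Dt) (f : ℕ → Option J) : Prop :=
  p.ht = d.1 ∧ p.R = d.2.1 ∧ p.S none = range d.2.2.1 ∧ ∀ n, p.S (f n) = d.2.2.1 '' d.2.2.2 n

theorem exists_Tr (p : Cnd J) (f : ℕ → Option J) : ∃ d, Tr p d f := by
  obtain ⟨u, hu⟩ := p.ctb.exists_eq_range p.ne
  refine ⟨(p.ht, p.R, u, fun n => {k | u k ∈ p.S (f n)}), rfl, rfl, hu, fun n => ?_⟩
  ext g
  constructor
  · intro hg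
    have h1 := p.sub _ hg
    rw [hu] at h1
    obtain ⟨k, rfl⟩ := h1
    exact ⟨k, hg, rfl⟩
  · rintro ⟨k, hk, rfl⟩
    exact hk

theorem exists_sp (p : Cnd J) : ∃ f : ℕ → Option J, {o | (p.S o).Nonempty} = range f :=
  p.supp.exists_eq_range ⟨none, p.ne⟩

theorem Cnd.ext' {p q : Cnd J} (h1 : p.ht = q.ht) (h2 : p.R = q.R) (h3 : p.S = q.S) : p = q := by
  cases p
  cases q
  simp only at h1 h2 h3
  subst h1 h2 h3
  rfl

theorem eq_of_Tr {p q : Cnd J} {d : Dt} {f : ℕ → Option J} (hp : Tr p d f) (hq : Tr q d f)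
    (h1 : {o | (p.S o).Nonempty} ⊆ range f) (h2 : {o | (q.S o).Nonempty} ⊆ range f) : p = q := by
  obtain ⟨a1, a2, a3, a4⟩ := hp
  obtain ⟨b1, b2, b3, b4⟩ := hq
  refine Cnd.ext' (a1.trans b1.symm) (a2.trans b2.symm) (funext fun o => ?_)
  by_cases ho : o ∈ range f
  · obtain ⟨n, rfl⟩ := ho
    rw [a4, b4]
  · have h3 : p.S o = ∅ := by
      rw [← not_nonempty_iff_eq_empty]
      exact fun h => ho (h1 h)
    have h4 : q.S o = ∅ := by
      rw [← not_nonempty_iff_eq_empty]
      exact fun h => ho (h2 h)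
    rw [h3, h4]

variable [LinearOrder J] [WellFoundedLT J] {e : J → Node → Set (Cnd J)}

/-- Conditions which agree on the common part of their supports are compatible. -/
theorem compat {p q : Cnd J} (hp : p ∈ PA e) (hq : q ∈ PA e) (h1 : p.ht = q.ht) (h2 : p.R = q.R)
    (h4 : ∀ o, (p.S o).Nonempty → (q.S o).Nonempty → p.S o = q.S o) :
    ∃ r ∈ PA e, r ≤ p ∧ r ≤ q := by
  let u : Cnd J :=
    { ht := p.ht
      R := p.R
      S := fun o => p.S o ∪ q.S o
      norm := by
        rintro f (hf | hf) b hb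
        · exact p.norm f hf b hb
        · exact q.norm f hf b (h1 ▸ hb)
      ne := p.ne.mono subset_union_left
      ctb := p.ctb.union q.ctb
      br := by
        rintro f (hf | hf) b hb n
        · obtain ⟨g, hg, h⟩ := p.br f hf b hb n
          exact ⟨g, Or.inl hg, h⟩
        · obtain ⟨g, hg, h⟩ := q.br f hf b (h1 ▸ hb) n
          exact ⟨g, Or.inr hg, h⟩
      sub := fun o => union_subset_union (p.sub o) (q.sub o)
      supp := by
        refine (p.supp.union q.supp).mono ?_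
        rintro o ⟨f, hf | hf⟩
        · exact Or.inl ⟨f, hf⟩
        · exact Or.inr ⟨f, hf⟩ }
  have hup : ∀ o, (p.S o).Nonempty → u.S o = p.S o := by
    intro o ho
    show p.S o ∪ q.S o = p.S o
    rcases (q.S o).eq_empty_or_nonempty with h | h
    · rw [h, union_empty]
    · rw [h4 o ho h, union_self]
  have huq : ∀ o, (q.S o).Nonempty → u.S o = q.S o := by
    intro o ho
    show p.S o ∪ q.S o = q.S o
    rcases (p.S o).eq_empty_or_nonempty with h | h
    · rw [h, empty_union]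
    · rw [h4 o h ho, union_self]
  have hle1 : u ≤ p := by
    refine ⟨le_rfl, fun _ _ => rfl, ?_, fun o f hf => ⟨f, Or.inl hf, Agr.refl _ _⟩⟩
    intro o ho g hg
    rw [hup o ho] at hg
    exact ⟨g, hg, Agr.refl _ _⟩
  have hle2 : u ≤ q := by
    refine ⟨h1.symm.le, fun b _ => congrFun h2 b, ?_, fun o f hf => ⟨f, Or.inr hf, Agr.refl _ _⟩⟩
    intro o ho g hg
    rw [huq o ho] at hg
    exact ⟨g, hg, Agr.refl _ _⟩
  refine ⟨u, ?_, hle1, hle2⟩
  rintro i ⟨f0, hf0 | hf0⟩
  · refine ⟨(hp i ⟨f0, hf0⟩).1, fun f hf g hg c h5 h6 => ?_⟩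
    have hf' := hf
    have hg' := hg
    rw [hup _ ⟨f0, hf0⟩] at hf' hg'
    exact (hp i).transfer hle1 ⟨f0, hf0⟩ hf hg (p.lt_of_ne hf' hg' h6) h5 h6
  · refine ⟨(hq i ⟨f0, hf0⟩).1, fun f hf g hg c h5 h6 => ?_⟩
    have hf' := hf
    have hg' := hg
    rw [huq _ ⟨f0, hf0⟩] at hf' hg'
    exact (hq i).transfer hle2 ⟨f0, hf0⟩ hf hg (q.lt_of_ne hf' hg' h6) h5 h6

end

theorem exists_closed {α L : Type} {β : α → Type} {κ : Cardinal.{0}}
    (hκ : sum (fun a => κ ^ #(β a)) ≤ κ) (Φ : ∀ a, (β a → L) → L) :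
    ∃ A : Set L, #A ≤ κ ∧ ∀ a f, (∀ i, f i ∈ A) → Φ a f ∈ A := by
  let ev : WType β → L := WType.elim L (fun t => Φ t.1 t.2)
  refine ⟨range ev, mk_range_le.trans (WType.cardinalMk_le_of_le' (by simpa using hκ)), fun a f hf => ?_⟩
  choose g hg using hf
  exact ⟨WType.mk a g, by simp only [ev, WType.elim]; congr 1; exact funext hg⟩

variable {J : Type} [LinearOrder J] [WellFoundedLT J] {e : J → Node → Set (Cnd J)}

/-- The arities. -/
def bt : Option (Dt × ℕ) → Type
  | none => Empty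
  | some _ => ℕ

/-- The chain condition. -/
theorem cc (A : Set (Cnd J)) (hA : A ⊆ PA e) (hanti : ∀ a ∈ A, ∀ b ∈ A, ∀ r ∈ PA e, r ≤ a → r ≤ b → a = b) :
    #A ≤ kp := by
  classical
  have h1 : ∀ (d : Dt) (f : ℕ → Option J), ∃ x : Option (Cnd J), (∀ p, x = some p → p ∈ A ∧ Tr p d f) ∧
      ((∃ p ∈ A, Tr p d f) → ∃ p, x = some p) := by
    intro d f
    by_cases h : ∃ p ∈ A, Tr p d f
    · obtain ⟨p, hp⟩ := h
      refine ⟨some p, fun q hq => ?_, fun _ => ⟨p, rfl⟩⟩
      cases hq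
      exact hp
    · exact ⟨none, fun q hq => (by cases hq), fun h' => absurd h' h⟩
  choose ch hch1 hch2 using h1
  choose sp hsp using exists_sp (J := J)
  let Φ : (a : Option (Dt × ℕ)) → (bt a → Option J) → Option J := fun a =>
    match a with
    | none => fun _ => none
    | some (d, n) => fun f => match ch d f with
      | some p => sp p n
      | none => none
  obtain ⟨B, hB, hcl⟩ := exists_closed (κ := kp) (by
    refine (sum_le_sum _ (fun _ => kp) ?_).trans ?_
    · rintro (_ | x)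
      · have : #(bt none) = 0 := mk_eq_zero_iff.2 (inferInstanceAs (IsEmpty Empty))
        rw [this, power_zero]
        exact one_le_aleph0.trans aleph0_le_kp
      · have : #(bt (some x)) = ℵ₀ := mk_nat
        rw [this, kp_pow]
    · rw [sum_const']
      refine mul_le_of_le aleph0_le_kp ?_ le_rfl
      rw [mk_option, mk_prod, lift_id, lift_id, mk_nat]
      exact add_le_of_le aleph0_le_kp (mul_le_of_le aleph0_le_kp mk_Dt aleph0_le_kp)
        (one_le_aleph0.trans aleph0_le_kp)) Φ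
  have hnone : none ∈ B := hcl none (fun x => nomatch (show Empty from x)) (fun x => nomatch (show Empty from x))
  have hsupp : ∀ d (f : ℕ → Option J), (∀ n, f n ∈ B) → ∀ p, ch d f = some p → ∀ o, (p.S o).Nonempty → o ∈ B := by
    intro d f hf p hp o ho
    have h2 : o ∈ range (sp p) := by
      rw [← hsp p]
      exact ho
    obtain ⟨n, rfl⟩ := h2
    have h3 := hcl (some (d, n)) f hf
    simp only [Φ, hp] at h3
    exact h3
  have key : ∀ p ∈ A, ∃ d, ∃ f : ℕ → B, ch d (fun n => (f n).1) = some p := by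
    intro p hp
    have h2 : ({o | (p.S o).Nonempty} ∩ B).Countable := p.supp.mono inter_subset_left
    obtain ⟨f, hf⟩ := h2.exists_eq_range ⟨none, p.ne, hnone⟩
    have hfB : ∀ n, f n ∈ B := fun n => by
      have : f n ∈ {o | (p.S o).Nonempty} ∩ B := by
        rw [hf]
        exact ⟨n, rfl⟩
      exact this.2
    obtain ⟨d, hd⟩ := exists_Tr p f
    obtain ⟨p', hp'⟩ := hch2 d f ⟨p, hp, hd⟩
    obtain ⟨hp'A, hd'⟩ := hch1 d f p' hp'
    refine ⟨d, fun n => ⟨f n, hfB n⟩, ?_⟩
    obtain ⟨a1, a2, a3, a4⟩ := hd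
    obtain ⟨b1, b2, b3, b4⟩ := hd'
    obtain ⟨r, hr, hr1, hr2⟩ := compat (hA hp) (hA hp'A) (a1.trans b1.symm) (a2.trans b2.symm) (by
      intro o ho ho'
      have h3 : o ∈ {o | (p.S o).Nonempty} ∩ B := ⟨ho, hsupp d f hfB p' hp' o ho'⟩
      rw [hf] at h3
      obtain ⟨n, rfl⟩ := h3
      rw [a4, b4])
    rw [hanti p hp p' hp'A r hr hr1 hr2]
    exact hp'
  have key' : ∀ p : A, ∃ x : Dt × (ℕ → B), ch x.1 (fun n => (x.2 n).1) = some p.1 := by
    intro p
    obtain ⟨d, f, h⟩ := key p.1 p.2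
    exact ⟨(d, f), h⟩
  choose F hF using key'
  have hinj : Function.Injective F := by
    intro p q h
    have h1 := hF p
    rw [h, hF q] at h1
    exact Subtype.ext (Option.some.inj h1).symm
  refine (mk_le_of_injective hinj).trans ?_
  rw [mk_prod, lift_id, lift_id, mk_arrow, lift_id, lift_id, mk_nat]
  exact mul_le_of_le aleph0_le_kp mk_Dt ((power_le_power_right hB).trans_eq kp_pow)

end Run7.h704
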