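import Pool.Agent.Run7.h704.Cat

set_option autoImplicit false

namespace Run7.h704

open Set Cardinal

/-! ### Cardinals -/

/-- `2 ^ ℵ₁` -/
noncomputable def kp : Cardinal.{0} := 2 ^ aleph 1

/-- `2 ^ 2 ^ ℵ₁` -/
noncomputable def mu : Cardinal.{0} := 2 ^ kp

theorem aleph0_le_kp : ℵ₀ ≤ kp := (aleph0_le_aleph 1).trans (cantor _).le

theorem kp_le_mu : kp ≤ mu := (cantor _).le

theorem aleph0_le_mu : ℵ₀ ≤ mu := aleph0_le_kp.trans kp_le_mu

theorem kp_pow : kp ^ ℵ₀ = kp := by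
  rw [kp, ← power_mul, mul_aleph0_eq (aleph0_le_aleph 1)]

theorem mu_pow : mu ^ kp = mu := by
  rw [mu, ← power_mul, mul_eq_self aleph0_le_kp]

theorem mu_pow0 : mu ^ ℵ₀ = mu := by
  rw [mu, ← power_mul, mul_aleph0_eq aleph0_le_kp]

theorem mk_Fn : #Fn ≤ kp := by
  rw [mk_arrow, lift_id, lift_id, W_mk, mk_nat, power_eq_two_power (aleph0_le_aleph 1) (by
    exact (natCast_lt_aleph0 (n := 2)).le) (aleph0_le_aleph 1)]
  exact le_rfl

/-- The index set. -/
abbrev JJ : Type := (Order.succ mu).ord.ToType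

theorem mk_JJ : #JJ = Order.succ mu := mk_ord_toType _

theorem JJ_Iio (j : JJ) : #(Iio j) ≤ mu := by
  have := mk_Iio_lt j (by rw [mk_JJ]; simp)
  rwa [mk_JJ, Order.lt_succ_iff] at this

theorem JJ_bdd {s : Set JJ} (hs : #s ≤ mu) : ∃ b, ∀ a ∈ s, a < b := by
  have h1 : Order.succ mu ≤ Order.cof JJ := by
    rw [Ordinal.cof_toType, (isRegular_succ aleph0_le_mu).cof_ord]
  by_contra hc
  push Not at hc
  have h2 : IsCofinal s := fun b => by
    obtain ⟨a, ha, h⟩ := hc b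
    exact ⟨a, ha, h⟩
  have h3 := (Order.le_cof_iff.1 h1) s h2
  exact absurd (h3.trans hs) (not_le.2 (Order.lt_succ _))

instance : Nonempty JJ := by
  rw [← mk_ne_zero_iff, mk_JJ]
  exact ((zero_le : 0 ≤ mu).trans_lt (Order.lt_succ _)).ne'

end Run7.h704
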