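import Pool.Agent.Run7.h704.Chain

set_option autoImplicit false

namespace Run7.h704

open Set

universe u v

variable {J : Type u} [LinearOrder J] [WellFoundedLT J] {e : J → Node → Set (Cnd J)}

/-- `z` is the meet of the incomparable nodes `x`, `y`. -/
def MeetOf (x y z : Node) : Prop :=
  z.1 < x.1 ∧ z.1 < y.1 ∧ Agr z.1 x.fn z.fn ∧ Agr z.1 y.fn z.fn ∧ x.fn z.1 ≠ y.fn z.1

theorem fn_node {a : W} {f : Fn} : Agr a (node a f).fn f := by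
  intro b hb
  exact (node a f).fn_of_lt hb

theorem NLe_node {a b : W} {f g : Fn} : NLe (node a f) (node b g) ↔ a ≤ b ∧ Agr a f g := by
  constructor
  · rintro ⟨h1, h2⟩
    exact ⟨h1, (fn_node.symm.trans h2).trans (fn_node.mono h1)⟩
  · rintro ⟨h1, h2⟩
    exact ⟨h1, (fn_node.trans h2).trans ((fn_node (a := b) (f := g)).mono h1).symm⟩

theorem MeetOf_node {a b : W} {f g : Fn} {z : Node} (h : MeetOf (node a f) (node b g) z) :
    z.1 < a ∧ z.1 < b ∧ z = node z.1 f ∧ Agr z.1 f g ∧ f z.1 ≠ g z.1 := by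
  obtain ⟨h1, h2, h3, h4, h5⟩ := h
  change z.1 < a at h1
  change z.1 < b at h2
  have h6 : Agr z.1 f z.fn := ((fn_node (a := a) (f := f)).mono h1.le).symm.trans h3
  have h7 : Agr z.1 g z.fn := ((fn_node (a := b) (f := g)).mono h2.le).symm.trans h4
  refine ⟨h1, h2, ?_, h6.trans h7.symm, ?_⟩
  · rw [node_congr h6, node_fn]
  · rw [← fn_node (a := a) (f := f) z.1 h1, ← fn_node (a := b) (f := g) z.1 h2]
    exact h5

/-- The truth values of `t ∈ K` (`ε = true`) and of `t ∉ K`. -/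
def FF (K : Node → Set (PT e)) (ε : Bool) (t : Node) : Set (PT e) :=
  {p | if ε then Mt (K t) p else ∀ q ≤ p, ¬ Mt (K t) q}

theorem FF_mono {K : Node → Set (PT e)} {ε : Bool} {t : Node} {p q : PT e} (h : p ∈ FF K ε t) (hq : q ≤ p) :
    q ∈ FF K ε t := by
  cases ε
  · exact fun r hr => h r (hr.trans hq)
  · exact Mt.mono h hq

theorem FF_dense {K : Node → Set (PT e)} {ε : Bool} {t : Node} {p : PT e}
    (h : ∀ q ≤ p, ∃ r ≤ q, r ∈ FF K ε t) : p ∈ FF K ε t := by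
  cases ε
  · intro q hq hqK
    obtain ⟨r, hr, h1⟩ := h q hq
    exact h1 r le_rfl (hqK.mono hr)
  · exact Mt.dense h

/-- `G` is dense above `s` below `q`. -/
def DAb (G : Node → Set (PT e)) (q : PT e) (s : Fn) : Prop :=
  ∀ q' ≤ q, ∀ f ∈ q'.1.S none, Agr q.1.ht f s → ∃ r ≤ q', ∃ g ∈ r.1.S none, Agr q'.1.ht g f ∧
    ∃ c, q'.1.ht ≤ c ∧ c < r.1.ht ∧ r ∈ G (node c g)

/-- A higher condition, as an element of the forcing notion. -/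
theorem PT.higher (p : PT e) (b : W) : ∃ q ≤ p, b ≤ q.1.ht ∧ p.1.ht ≤ q.1.ht := by
  obtain ⟨q, hq, hqp, h, -⟩ := exists_higher p.2 (le_max_left p.1.ht b) ∅
  exact ⟨⟨q, hq⟩, hqp, by
    show b ≤ q.ht
    rw [h]
    exact le_max_right _ _, hqp.ht⟩

theorem exists_DAb (K : Node → Set (PT e)) (p : PT e) :
    ∃ ε, ∃ q ≤ p, ∃ s ∈ q.1.S none, DAb (FF K ε) q s := by
  obtain ⟨s, hs⟩ := p.1.ne
  by_cases h : DAb (FF K true) p s
  · exact ⟨true, p, le_rfl, s, hs, h⟩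
  unfold DAb at h
  push Not at h
  obtain ⟨q, hq, f, hf, hfs, h⟩ := h
  refine ⟨false, q, hq, f, hf, ?_⟩
  intro q' hq' f' hf' hff
  obtain ⟨r, hr, h1, h2⟩ := q'.higher (sc q'.1.ht)
  obtain ⟨g, hg, hgf⟩ := Cnd.LE.up hr none f' hf'
  have hlt : q'.1.ht < r.1.ht := (lt_sc _).trans_le h1
  refine ⟨r, hr, g, hg, hgf, q'.1.ht, le_rfl, hlt, ?_⟩
  intro r' hr' hK
  obtain ⟨g', hg', h3⟩ := Cnd.LE.up hr' none g hg
  have hle : q.1.ht ≤ q'.1.ht := Cnd.LE.ht hq'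
  refine h r' ((hr'.trans hr).trans hq') g' hg' ((h3.mono (hle.trans h2)).trans ((hgf.mono hle).trans hff)) _ hle
    (hlt.trans_le (Cnd.LE.ht hr')) ?_
  rw [node_congr (h3.mono hlt.le)]
  exact hK

/-- The bookkeeping hypothesis. -/
def BK (e : J → Node → Set (Cnd J)) : Prop :=
  ∀ D : Node → Set (Cnd J), (∀ t, D t ⊆ PA e) → (∀ t, ∀ p ∈ D t, ∀ q ∈ PA e, q ≤ p → q ∈ D t) →
    (∀ p ∈ PA e, ∀ f ∈ p.S none, ∃ r ∈ PA e, r ≤ p ∧ ∃ g ∈ r.S none, Agr p.ht g f ∧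
      ∃ c, p.ht ≤ c ∧ c < r.ht ∧ r ∈ D (node c g)) →
    ∀ q ∈ PA e, ∃ j, q ∈ PP e j ∧ Dns (PP e j) (e j) ∧ ∀ t, ∀ n ∈ e j t, n ∈ PP e j → n ∈ D t

/-- The names given to the bookkeeping. -/
def DD (G : Node → Set (PT e)) (q : PT e) (s : Fn) (t : Node) : Set (Cnd J) :=
  {r | ∃ hr : r ∈ PA e, (r ≤ q.1 ∧ (¬ (q.1.ht ≤ t.1 ∧ Agr q.1.ht t.fn s) ∨ (⟨r, hr⟩ : PT e) ∈ G t)) ∨
    ∀ r' ∈ PA e, r' ≤ r → ¬ r' ≤ q.1}

theorem DD_dense {G : Node → Set (PT e)} {q : PT e} {s : Fn} (h : DAb G q s) :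
    ∀ p ∈ PA e, ∀ f ∈ p.S none, ∃ r ∈ PA e, r ≤ p ∧ ∃ g ∈ r.S none, Agr p.ht g f ∧
      ∃ c, p.ht ≤ c ∧ c < r.ht ∧ r ∈ DD G q s (node c g) := by
  intro p hp f hf
  by_cases hpq : ∃ r ∈ PA e, r ≤ p ∧ r ≤ q.1
  · obtain ⟨r, hr, hrp, hrq⟩ := hpq
    obtain ⟨f', hf', hff⟩ := hrp.up none f hf
    by_cases hfs : Agr q.1.ht f' s
    · obtain ⟨r', hr', g, hg, hgf, c, hc1, hc2, hG⟩ := h ⟨r, hr⟩ hrq f' hf' hfs
      refine ⟨r'.1, r'.2, le_trans hr' hrp, g, hg, (hgf.mono hrp.ht).trans hff, c, hrp.ht.trans hc1, hc2, r'.2,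
        Or.inl ⟨le_trans hr' hrq, Or.inr hG⟩⟩
    · obtain ⟨r', hr', h1, h2⟩ := PT.higher (⟨r, hr⟩ : PT e) (sc r.ht)
      obtain ⟨g, hg, hgf⟩ := Cnd.LE.up hr' none f' hf'
      refine ⟨r'.1, r'.2, le_trans hr' hrp, g, hg, (hgf.mono hrp.ht).trans hff, r.ht, hrp.ht,
        (lt_sc _).trans_le h1, r'.2, Or.inl ⟨le_trans hr' hrq, Or.inl ?_⟩⟩
      rintro ⟨h3, h4⟩
      exact hfs ((hgf.mono hrq.ht).symm.trans (((fn_node (a := r.ht) (f := g)).mono hrq.ht).symm.trans h4))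
  · push Not at hpq
    obtain ⟨r', hr', h1, h2⟩ := PT.higher (⟨p, hp⟩ : PT e) (sc p.ht)
    obtain ⟨g, hg, hgf⟩ := Cnd.LE.up hr' none f hf
    refine ⟨r'.1, r'.2, hr', g, hg, hgf, p.ht, le_rfl, (lt_sc _).trans_le h1, r'.2, Or.inr ?_⟩
    intro r hr hrr
    exact hpq r hr (hrr.trans hr')

/-- The name of the antichain. -/
def AA (G : Node → Set (PT e)) (q : PT e) (j : J) (t : Node) : Set (PT e) :=
  {r | ∃ g ∈ r.1.S (some j), ∃ h ∈ r.1.S none, ∃ c, Agr c g h ∧ c < r.1.ht ∧ q.1.ht ≤ c ∧ t = node (sc c) h ∧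
    r ∈ G (node c g) ∧ ∀ g' ∈ r.1.S (some j), ¬ Agr (sc c) g' h}

theorem AA_mono {G : Node → Set (PT e)} (hG : ∀ t, ∀ p ∈ G t, ∀ q ≤ p, q ∈ G t) {q : PT e} {j : J} {t : Node}
    {r r' : PT e} (h : r ∈ AA G q j t) (hr : r' ≤ r) : r' ∈ AA G q j t := by
  obtain ⟨g, hg, h, hh, c, h1, h2, h3, h4, h5, h6⟩ := h
  obtain ⟨g1, hg1, h7⟩ := Cnd.LE.up hr _ g hg
  obtain ⟨h', hh1, h8⟩ := Cnd.LE.up hr _ h hh
  have hsc : sc c ≤ r.1.ht := sc_le_iff.2 h2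
  refine ⟨g1, hg1, h', hh1, c, ((h7.mono h2.le).trans h1).trans (h8.mono h2.le).symm, h2.trans_le (Cnd.LE.ht hr), h3,
    ?_, ?_, ?_⟩
  · rw [h4, node_congr (h8.mono hsc)]
  · rw [node_congr (h7.mono h2.le)]
    exact hG _ _ h5 _ hr
  · intro g' hg' h9
    obtain ⟨g2, hg2, h10⟩ := Cnd.LE.down hr _ ⟨g, hg⟩ g' hg'
    exact h6 g2 hg2 ((h10.mono hsc).symm.trans (h9.trans (h8.mono hsc)))

theorem AA_sub {G : Node → Set (PT e)} {q : PT e} {j : J} {t : Node} : AA G q j t ⊆ TT e t := by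
  rintro r ⟨g, hg, h, hh, c, h1, h2, h3, h4, h5, h6⟩
  rw [h4]
  exact ⟨sc_le_iff.2 h2, h, hh, rfl⟩

/-- The main theorem on the tree: every set `K` of nodes has an uncountable antichain with all meets in `K`
or all meets outside `K`. -/
theorem cat (hBK : BK e) (K : Node → Set (PT e)) (p : PT e) : ∃ q ≤ p, ∃ A : Node → Set (PT e),
    (∀ t, A t ⊆ TT e t) ∧ (∀ t, ∀ r ∈ A t, ∀ r' ≤ r, r' ∈ A t) ∧
    (∀ r ≤ q, ∀ t t', Mt (A t) r → Mt (A t') r → NLe t t' → t = t') ∧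
    (∀ r ≤ q, ∀ b : W, ∃ r' ≤ r, ∃ t : Node, b ≤ t.1 ∧ r' ∈ A t) ∧
    ∃ ε, ∀ r ≤ q, ∀ t t' z, Mt (A t) r → Mt (A t') r → MeetOf t t' z → r ∈ FF K ε z := by
  obtain ⟨ε, q, hqp, s, hs, hD⟩ := exists_DAb K p
  have hGm : ∀ t, ∀ p ∈ FF K ε t, ∀ q ≤ p, q ∈ FF K ε t := fun t p hp q hq => FF_mono hp hq
  obtain ⟨j, hqj, hDns, hej⟩ := hBK (DD (FF K ε) q s) (fun t r hr => hr.1)
    (by
      rintro t r ⟨hr, h | h⟩ r' hr' hrr
      · refine ⟨hr', Or.inl ⟨hrr.trans h.1, h.2.imp id fun h2 => FF_mono h2 hrr⟩⟩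
      · exact ⟨hr', Or.inr fun r'' h1 h2 => h r'' h1 (h2.trans hrr)⟩)
    (DD_dense hD) q.1 q.2
  obtain ⟨q1, hq1, hq1q, hht, hS, hSj⟩ := fresh hqj hDns hs
  -- the meets of the subtree
  have key : ∀ r : PT e, r.1 ≤ q1 → ∀ c, q.1.ht ≤ c → ∀ g ∈ r.1.S (some j),
      Frc (PP e j) (e j (node c g)) (r.1.res (Iio j)) → r ∈ FF K ε (node c g) := by
    intro r hr c hc g hg hF
    refine FF_dense fun r1 hr1 => ?_
    have h1 : Frc (PP e j) (e j (node c g) ∩ PP e j) (r.1.res (Iio j)) := by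
      intro a ha ha'
      obtain ⟨b, hb, hba, n, hn, hn', hbn⟩ := hF a ha ha'
      exact ⟨b, hb, hba, n, ⟨hn, hn'⟩, hn', hbn⟩
    obtain ⟨r2, hr2, hr21, n, hn, hnP, hr2n⟩ := h1.lift r1.1 r1.2 hr1
    obtain ⟨hnP', h2 | h2⟩ := hej _ n hn.1 hn.2
    · refine ⟨⟨r2, hr2⟩, hr21, ?_⟩
      rcases h2.2 with h3 | h3
      · exfalso
        apply h3
        refine ⟨hc, ?_⟩
        obtain ⟨g0, hg0, h4⟩ := hr.down (some j) (by rw [hSj]; exact ⟨s, rfl⟩) g hg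
        rw [hSj] at hg0
        rw [hht] at h4
        rw [mem_singleton_iff.1 hg0] at h4
        exact (fn_node.mono hc).trans h4
      · exact FF_mono h3 (show (⟨r2, hr2⟩ : PT e) ≤ ⟨n, hnP'⟩ from hr2n)
    · exact absurd ((hr21.trans (le_trans hr1 hr)).trans hq1q) (h2 r2 hr2 hr2n)
  have hss : ∀ r : PT e, r.1 ≤ q1 → ∀ g ∈ r.1.S (some j), Agr q.1.ht g s := by
    intro r hr g hg
    obtain ⟨g0, hg0, h4⟩ := hr.down (some j) (by rw [hSj]; exact ⟨s, rfl⟩) g hg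
    rw [hSj] at hg0
    rw [hht] at h4
    rwa [mem_singleton_iff.1 hg0] at h4
  -- common elements
  have hcom : ∀ r : PT e, ∀ t t', Mt (AA (FF K ε) q j t) r → Mt (AA (FF K ε) q j t') r → ∀ r' ≤ r, ∃ r'' ≤ r',
      r'' ∈ AA (FF K ε) q j t ∧ r'' ∈ AA (FF K ε) q j t' := by
    intro r t t' h1 h2 r' hr'
    obtain ⟨r1, hr1, a, ha, hra⟩ := h1 r' hr'
    obtain ⟨r2, hr2, a', ha', hra'⟩ := h2 r1 (hr1.trans hr')
    exact ⟨r2, hr2.trans hr1, AA_mono hGm (AA_mono hGm ha hra) hr2, AA_mono hGm ha' hra'⟩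
  refine ⟨⟨q1, hq1⟩, le_trans hq1q hqp, AA (FF K ε) q j, fun t => AA_sub, fun t r hr r' hr' => AA_mono hGm hr hr', ?_,
    ?_, ε, ?_⟩
  · intro r hr t t' h1 h2 hle
    obtain ⟨r', hr', ⟨g, hg, h, hh, c, a1, a2, a3, a4, a5, a6⟩, ⟨g', hg', h', hh', c', b1, b2, b3, b4, b5, b6⟩⟩ :=
      hcom r t t' h1 h2 r le_rfl
    subst a4
    subst b4
    rw [NLe_node] at hle
    obtain ⟨hle1, hle2⟩ := hle
    rcases lt_trichotomy c c' with hcc | hcc | hcc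
    · exfalso
      have h5 : sc c ≤ c' := sc_le_iff.2 hcc
      exact a6 g' hg' ((b1.mono h5).trans hle2.symm)
    · subst hcc
      exact node_congr hle2
    · exfalso
      have h5 : c < sc c' := (lt_sc c).trans_le hle1
      exact absurd (lt_sc_iff.1 h5) (not_le.2 hcc)
  · intro r hr b
    obtain ⟨r1, hr1, hb1, -⟩ := r.higher b
    have hne : (r1.1.S (some j)).Nonempty :=
      Cnd.nonempty_of_le (le_trans hr1 hr : r1.1 ≤ q1) (by rw [hSj]; exact ⟨s, rfl⟩)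
    obtain ⟨s1, hs1⟩ := hne
    obtain ⟨r2, hr2, hr21, g0, hg0, g1, hg1, h1, h2, c, hc1, hc2, h3, h4, h5, h6, h7⟩ := split r1.2 hs1
    have hr2q : r2 ≤ q1 := hr21.trans (le_trans hr1 hr)
    have hqc : q.1.ht ≤ c := by
      rw [← hht]
      exact (Cnd.LE.ht (le_trans hr1 hr : r1.1 ≤ q1)).trans hc1
    obtain ⟨h, hh, h8, h9⟩ := r2.br g0 (r2.sub _ hg0) c hc2 2
    refine ⟨⟨r2, hr2⟩, le_trans hr21 hr1, node (sc c) h, ?_, g0, hg0, h, hh, c, h8.symm, hc2, hqc, rfl, ?_, ?_⟩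
    · exact hb1.trans (hc1.trans (lt_sc c).le)
    · exact key ⟨r2, hr2⟩ hr2q c hqc g0 hg0 h7
    · intro g' hg' h10
      have h11 := h10 c (lt_sc c)
      rcases h6 g' hg' ((h10.mono (lt_sc c).le).trans h8) with h12 | h12
      · rw [h12, h9] at h11
        exact absurd h11 (by norm_num)
      · rw [h12, h9] at h11
        exact absurd h11 (by norm_num)
  · intro r hr t t' z h1 h2 hz
    refine FF_dense fun r0 hr0 => ?_
    obtain ⟨r', hr', ⟨g, hg, h, hh, c, a1, a2, a3, a4, a5, a6⟩, ⟨g', hg', h', hh', c', b1, b2, b3, b4, b5, b6⟩⟩ :=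
      hcom r t t' h1 h2 r0 hr0
    subst a4
    subst b4
    refine ⟨r', hr', ?_⟩
    obtain ⟨z1, z2, z3, z4, z5⟩ := MeetOf_node hz
    rw [lt_sc_iff] at z1 z2
    rcases z1.eq_or_lt with hz1 | hz1
    · rw [z3, hz1, ← node_congr a1]
      exact a5
    rcases z2.eq_or_lt with hz2 | hz2
    · rw [z3, node_congr z4, hz2, ← node_congr b1]
      exact b5
    have h3 : Agr z.1 g g' := (a1.mono hz1.le).trans (z4.trans (b1.mono hz2.le).symm)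
    have h4 : g z.1 ≠ g' z.1 := by
      rw [a1 z.1 hz1, b1 z.1 hz2]
      exact z5
    have hr'q : r'.1 ≤ q1 := le_trans hr' (le_trans hr0 hr)
    have h5 : q.1.ht ≤ z.1 := by
      by_contra hc
      rw [not_le] at hc
      exact h4 ((hss r' hr'q g hg z.1 hc).trans (hss r' hr'q g' hg' z.1 hc).symm)
    rw [z3, ← node_congr (a1.mono hz1.le)]
    exact key r' hr'q z.1 h5 g hg ((r'.2 j ⟨g, hg⟩).2 g hg g' hg' z.1 h3 h4)

end Run7.h704
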