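import Pool.Agent.Run7.h704.Limit

set_option autoImplicit false

namespace Run7.h704

open Set

universe u v

variable {J : Type u} [LinearOrder J] [WellFoundedLT J] {e : J → Node → Set (Cnd J)}

/-- All nodes of all coordinates split. -/
theorem split_all {p : Cnd J} (hp : p ∈ PA e) : ∃ q ∈ PA e, q ≤ p ∧ p.ht ≤ q.ht ∧ ∀ o, ∀ f ∈ p.S o,
    ∃ g ∈ q.S o, ∃ g' ∈ q.S o, Agr p.ht g f ∧ Agr p.ht g' f ∧ ∃ c < q.ht, g c ≠ g' c := by
  have hc : {x : Option J × Fn | x.2 ∈ p.S x.1}.Countable := by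
    have : (⋃ o ∈ {o | (p.S o).Nonempty}, (fun f : Fn => (o, f)) '' p.S o).Countable :=
      p.supp.biUnion fun o _ => (p.ctb.mono (p.sub o)).image _
    refine this.mono ?_
    rintro ⟨o, f⟩ hf
    exact mem_biUnion (show o ∈ {o | (p.S o).Nonempty} from ⟨f, hf⟩) ⟨f, hf, rfl⟩
  have hne : {x : Option J × Fn | x.2 ∈ p.S x.1}.Nonempty := by
    obtain ⟨f, hf⟩ := p.ne
    exact ⟨(none, f), hf⟩
  obtain ⟨en, hen⟩ := hc.exists_eq_range hne
  have hen' : ∀ n, (en n).2 ∈ p.S (en n).1 := by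
    intro n
    have : en n ∈ {x : Option J × Fn | x.2 ∈ p.S x.1} := by
      rw [hen]
      exact ⟨n, rfl⟩
    exact this
  have hbaire := baire (e := e) (fun n => {q | p.ht ≤ q.ht ∧ ∃ g ∈ q.S (en n).1, ∃ g' ∈ q.S (en n).1,
      Agr p.ht g (en n).2 ∧ Agr p.ht g' (en n).2 ∧ ∃ c < q.ht, g c ≠ g' c}) p ?_ ?_ hp
  · obtain ⟨q, hq, hqp, hD⟩ := hbaire
    refine ⟨q, hq, hqp, (hD 0).1, fun o f hf => ?_⟩
    have : (o, f) ∈ range en := by
      rw [← hen]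
      exact hf
    obtain ⟨n, hn⟩ := this
    have h := (hD n).2
    rw [hn] at h
    exact h
  · intro n r hr hrp
    obtain ⟨f, hf, hff⟩ := hrp.up _ _ (hen' n)
    cases ho : (en n).1 with
    | none =>
      rw [ho] at hf
      obtain ⟨q, hq, hqr, hqht, -⟩ := exists_higher hr (lt_sc r.ht).le ∅
      obtain ⟨g, hg, hgf⟩ := hqr.up _ _ hf
      have hlt : r.ht < q.ht := by rw [hqht]; exact lt_sc _
      obtain ⟨g0, hg0, h1, h2⟩ := q.br g hg r.ht hlt 0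
      obtain ⟨g1, hg1, h3, h4⟩ := q.br g hg r.ht hlt 1
      have hpr := hrp.ht
      refine ⟨q, hq, hqr, hpr.trans hqr.ht, g0, hg0, g1, hg1,
        ((h1.trans hgf).mono hpr).trans hff, ((h3.trans hgf).mono hpr).trans hff, r.ht, hlt, ?_⟩
      rw [h2, h4]
      exact zero_ne_one
    | some j =>
      rw [ho] at hf
      obtain ⟨q, hq, hqr, g0, hg0, g1, hg1, h1, h2, c, hc1, hc2, h3, h4, h5, -⟩ := split hr hf
      have hpr := hrp.ht
      refine ⟨q, hq, hqr, hpr.trans hqr.ht, g0, hg0, g1, hg1,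
        (h1.mono hpr).trans hff, (h2.mono hpr).trans hff, c, hc2, ?_⟩
      rw [h4, h5]
      exact zero_ne_one
  · rintro n q r ⟨h1, g, hg, g', hg', h2, h3, c, hc, h4⟩ hr hrq
    obtain ⟨k, hk, hk'⟩ := hrq.up _ g hg
    obtain ⟨k2, hk2, hk2'⟩ := hrq.up _ g' hg'
    refine ⟨h1.trans hrq.ht, k, hk, k2, hk2, (hk'.mono h1).trans h2, (hk2'.mono h1).trans h3, c,
      hc.trans_le hrq.ht, ?_⟩
    rw [hk' c hc, hk2' c hc]
    exact h4

/-- The forcing notion. -/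
def PT (e : J → Node → Set (Cnd J)) : Type u := {p : Cnd J // p ∈ PA e}

instance : Preorder (PT e) := Subtype.preorder _

theorem PT.closed (s : ℕ → PT e) (h : ∀ n, s (n + 1) ≤ s n) : ∃ q, ∀ n, q ≤ s n := by
  obtain ⟨q, hq, h1⟩ := Run7.h704.closed (p := fun n => (s n).1) (fun n => (s n).2) h
  exact ⟨⟨q, hq⟩, h1⟩

/-- `p` forces that the generic filter meets `N`. -/
def Mt {P : Type u} [Preorder P] (N : Set P) (p : P) : Prop := ∀ q ≤ p, ∃ r ≤ q, ∃ s ∈ N, r ≤ s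

theorem Mt.mono {P : Type u} [Preorder P] {N : Set P} {p q : P} (h : Mt N p) (hq : q ≤ p) : Mt N q :=
  fun r hr => h r (hr.trans hq)

theorem Mt.dense {P : Type u} [Preorder P] {N : Set P} {p : P} (h : ∀ q ≤ p, ∃ r ≤ q, Mt N r) : Mt N p := by
  intro q hq
  obtain ⟨r, hr, h1⟩ := h q hq
  obtain ⟨s, hs, t, ht, hst⟩ := h1 r le_rfl
  exact ⟨s, hs.trans hr, t, ht, hst⟩

theorem Mt.of_mem {P : Type u} [Preorder P] {N : Set P} {p : P} (h : p ∈ N) : Mt N p :=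
  fun q hq => ⟨q, le_rfl, p, h, hq⟩

/-- The name of the tree. -/
def TT (e : J → Node → Set (Cnd J)) (t : Node) : Set (PT e) :=
  {p | t.1 ≤ p.1.ht ∧ ∃ f ∈ p.1.S none, node t.1 f = t}

theorem TT_mono {t : Node} {p q : PT e} (h : p ∈ TT e t) (hq : q ≤ p) : q ∈ TT e t := by
  obtain ⟨h1, f, hf, h2⟩ := h
  obtain ⟨g, hg, h3⟩ := Cnd.LE.up hq none f hf
  exact ⟨h1.trans (Cnd.LE.ht hq), g, hg, by rw [node_congr (h3.mono h1), h2]⟩

theorem TT_of_Mt {t : Node} {p : PT e} (h : Mt (TT e t) p) (h1 : t.1 ≤ p.1.ht) : p ∈ TT e t := by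
  obtain ⟨q, hq, s, hs, hqs⟩ := h p le_rfl
  obtain ⟨-, f, hf, h2⟩ := TT_mono hs hqs
  obtain ⟨g, hg, h3⟩ := Cnd.LE.down hq none p.1.ne f hf
  exact ⟨h1, g, hg, by rw [← node_congr (h3.mono h1), h2]⟩

/-- The comparison of nodes: `y` extends `x`. -/
def NLe (x y : Node) : Prop := x.1 ≤ y.1 ∧ Agr x.1 x.fn y.fn

/-- There is no uncountable chain. -/
theorem no_chain (p0 : PT e) (C : Node → Set (PT e))
    (h1 : ∀ q ≤ p0, ∀ t, Mt (C t) q → Mt (TT e t) q)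
    (h2 : ∀ q ≤ p0, ∀ t t', Mt (C t) q → Mt (C t') q → NLe t t' ∨ NLe t' t)
    (h3 : ∀ q ≤ p0, ∀ b : W, ∃ r ≤ q, ∃ t : Node, b ≤ t.1 ∧ Mt (C t) r) : False := by
  classical
  -- one step
  have step : ∀ x : {x : PT e // x ≤ p0}, ∃ y : {x : PT e // x ≤ p0}, ∃ t : Node, y.1 ≤ x.1 ∧ x.1.1.ht ≤ t.1 ∧
      t.1 < y.1.1.ht ∧ Mt (C t) y.1 ∧ ∀ o, ∀ f ∈ x.1.1.S o,
      ∃ g ∈ y.1.1.S o, ∃ g' ∈ y.1.1.S o, Agr x.1.1.ht g f ∧ Agr x.1.1.ht g' f ∧ ∃ c < y.1.1.ht, g c ≠ g' c := by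
    rintro ⟨x, hx⟩
    obtain ⟨r, hr, t, ht, hC⟩ := h3 x hx x.1.ht
    obtain ⟨r1, hr1, hr1', hht, -⟩ := exists_higher r.2 (le_max_left r.1.ht (sc t.1)) ∅
    obtain ⟨r2, hr2, hr2', h4, h5⟩ := split_all hr1
    have hr2r : (⟨r2, hr2⟩ : PT e) ≤ r := hr2'.trans hr1'
    refine ⟨⟨⟨r2, hr2⟩, (hr2r.trans hr).trans hx⟩, t, hr2r.trans hr, ht, ?_, hC.mono hr2r, ?_⟩
    · refine lt_of_lt_of_le ?_ h4
      rw [hht]
      exact (lt_sc _).trans_le (le_max_right _ _)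
    · intro o f hf
      have hr1x : r1 ≤ x.1 := le_trans hr1' hr
      obtain ⟨f', hf', hff⟩ := hr1x.up o f hf
      obtain ⟨g, hg, g', hg', h6, h7, h8⟩ := h5 o f' hf'
      exact ⟨g, hg, g', hg', (h6.mono hr1x.ht).trans hff, (h7.mono hr1x.ht).trans hff, h8⟩
  choose st nd hst1 hst2 hst3 hst4 hst5 using step
  let sq : ℕ → {x : PT e // x ≤ p0} := fun n => Nat.rec ⟨p0, le_rfl⟩ (fun _ x => st x) n
  have hsq : ∀ n, sq (n + 1) = st (sq n) := fun n => rfl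
  have hdec : ∀ n, (sq (n + 1)).1.1 ≤ (sq n).1.1 := fun n => hst1 (sq n)
  obtain ⟨α, hα, hα'⟩ := W_lub fun n => (sq n).1.1.ht
  -- the nodes of the chain
  have hnd : ∀ n, (nd (sq n)).1 < (sq (n + 1)).1.1.ht := fun n => hst3 (sq n)
  have hnd' : ∀ n, (sq n).1.1.ht ≤ (nd (sq n)).1 := fun n => hst2 (sq n)
  let b : Fn := fun c => if h : ∃ n, c < (nd (sq n)).1 then (nd (sq (Nat.find h))).fn c else 0
  have hC : ∀ m n, m ≤ n → Mt (C (nd (sq m))) (sq (n + 1)).1 := by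
    intro m n h
    exact (hst4 (sq m)).mono (dec_le (p := fun n => (sq n).1.1) hdec (by omega : m + 1 ≤ n + 1))
  have hb : ∀ n, Agr (nd (sq n)).1 b (nd (sq n)).fn := by
    intro n c hc
    have h : ∃ n, c < (nd (sq n)).1 := ⟨n, hc⟩
    have h6 : b c = (nd (sq (Nat.find h))).fn c := by simp only [b, h, dite_true]
    rw [h6]
    have h7 := Nat.find_spec h
    rcases h2 (sq (n + 1)).1 (sq (n + 1)).2 _ _ (hC _ n (Nat.find_min' h hc)) (hC n n le_rfl) with h8 | h8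
    · exact h8.2 c h7
    · exact (h8.2 c hc).symm
  obtain ⟨q, hq, hqn, hqα, hqD⟩ := limit (fun n => (sq n).1.2) hdec hα hα' {g | ¬ Agr α g b} (by
    intro o m f hf
    obtain ⟨g, hg, g', hg', h6, h7, c, hc, h8⟩ := hst5 (sq m) o f hf
    have h9 : ∃ k ∈ (sq (m + 1)).1.1.S o, Agr (sq m).1.1.ht k f ∧ ¬ Agr (sq (m + 1)).1.1.ht k b := by
      by_cases h10 : Agr (sq (m + 1)).1.1.ht g b
      · refine ⟨g', hg', h7, fun h11 => h8 ?_⟩
        rw [h10 c hc, h11 c hc]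
      · exact ⟨g, hg, h6, h10⟩
    obtain ⟨k, hk, h10, h11⟩ := h9
    obtain ⟨k', hk', h12⟩ := exists_branch (p := fun n => (sq n).1.1) (m := m + 1) hdec hα hk
    refine ⟨k', hk', fun h13 => h11 (h12.symm.trans (Agr.mono h13 (hα (m + 1)))), (h12.mono (hdec m).ht).trans h10⟩)
  -- a node of the chain above
  have hq0 : (⟨q, hq⟩ : PT e) ≤ p0 := hqn 0
  obtain ⟨r, hr, t, ht, hCt⟩ := h3 ⟨q, hq⟩ hq0 α
  obtain ⟨r1, hr1, hr1', hht, -⟩ := exists_higher r.2 (le_max_left r.1.ht t.1) ∅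
  have hr1r : (⟨r1, hr1⟩ : PT e) ≤ r := hr1'
  have h6 : (⟨r1, hr1⟩ : PT e) ∈ TT e t := by
    refine TT_of_Mt (h1 _ ((hr1r.trans hr).trans hq0) _ (hCt.mono hr1r)) ?_
    show t.1 ≤ r1.ht
    rw [hht]
    exact le_max_right _ _
  obtain ⟨-, f, hf, hft⟩ := h6
  have hr1q : r1 ≤ q := le_trans hr1' hr
  have htf : Agr t.1 f t.fn := by
    have := hft
    rw [← node_fn t] at this
    exact (node_inj this).2
  have hfb : Agr α f b := by
    intro c hc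
    obtain ⟨n, hn⟩ := hα' c hc
    have hcn : c < (nd (sq n)).1 := hn.trans_le (hnd' n)
    have h7 : Mt (C (nd (sq n))) (⟨r1, hr1⟩ : PT e) := (hC n n le_rfl).mono
      (show r1 ≤ (sq (n + 1)).1.1 from le_trans hr1q (hqn (n + 1)))
    rw [htf c (hc.trans_le ht), hb n c hcn]
    rcases h2 _ ((hr1r.trans hr).trans hq0) _ _ (hCt.mono hr1r) h7 with h8 | h8
    · exact h8.2 c (hc.trans_le ht)
    · exact (h8.2 c hcn).symm
  obtain ⟨f', hf', h7⟩ := hr1q.down none q.ne f hf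
  rw [hqα] at h7
  exact hqD hf' (h7.symm.trans hfb)

end Run7.h704
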