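import Pool.Agent.Run7.h704.Basic

set_option autoImplicit false

namespace Run7.h704

open Set

universe u v

/-- The conditions: a countable height, a sequence of reals, the top level of a countable tree (coordinate `none`)
and the top levels of countably many subtrees. -/
structure Cnd (J : Type u) where
  ht : W
  R : W → Set ℕ
  S : Option J → Set Fn
  norm : ∀ f ∈ S none, ∀ b, ht ≤ b → f b = 0
  ne : (S none).Nonempty
  ctb : (S none).Countable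
  br : ∀ f ∈ S none, ∀ b < ht, ∀ n : ℕ, ∃ g ∈ S none, Agr b g f ∧ g b = n
  sub : ∀ o, S o ⊆ S none
  supp : {o | (S o).Nonempty}.Countable

variable {J : Type u}

/-- Two functions of a coordinate which agree below the height are equal. -/
theorem Cnd.eq_of_agr (p : Cnd J) {o o' : Option J} {f g : Fn} (hf : f ∈ p.S o) (hg : g ∈ p.S o')
    (h : Agr p.ht f g) : f = g := by
  funext b
  rcases lt_or_ge b p.ht with hb | hb
  · exact h b hb
  · rw [p.norm f (p.sub o hf) b hb, p.norm g (p.sub o' hg) b hb]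

theorem Cnd.lt_of_ne (p : Cnd J) {o o' : Option J} {f g : Fn} (hf : f ∈ p.S o) (hg : g ∈ p.S o') {c : W}
    (h : f c ≠ g c) : c < p.ht := by
  by_contra hc
  rw [not_lt] at hc
  exact h (by rw [p.norm f (p.sub o hf) c hc, p.norm g (p.sub o' hg) c hc])

/-- The order. -/
structure Cnd.LE (q p : Cnd J) : Prop where
  ht : p.ht ≤ q.ht
  R : ∀ b < p.ht, q.R b = p.R b
  down : ∀ o, (p.S o).Nonempty → ∀ g ∈ q.S o, ∃ f ∈ p.S o, Agr p.ht g f
  up : ∀ o, ∀ f ∈ p.S o, ∃ g ∈ q.S o, Agr p.ht g f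

instance : Preorder (Cnd J) where
  le := Cnd.LE
  le_refl p := ⟨le_rfl, fun _ _ => rfl, fun _ _ g hg => ⟨g, hg, Agr.refl _ _⟩, fun _ g hg => ⟨g, hg, Agr.refl _ _⟩⟩
  le_trans r q p h1 h2 := by
    refine ⟨h2.ht.trans h1.ht, fun b hb => (h1.R b (hb.trans_le h2.ht)).trans (h2.R b hb), ?_, ?_⟩
    · intro o ho g hg
      have hq : (q.S o).Nonempty := by
        obtain ⟨f, hf⟩ := ho
        obtain ⟨g', hg', _⟩ := h2.up o f hf
        exact ⟨g', hg'⟩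
      obtain ⟨g', hg', h3⟩ := h1.down o hq g hg
      obtain ⟨f, hf, h4⟩ := h2.down o ho g' hg'
      exact ⟨f, hf, (h3.mono h2.ht).trans h4⟩
    · intro o f hf
      obtain ⟨g', hg', h3⟩ := h2.up o f hf
      obtain ⟨g, hg, h4⟩ := h1.up o g' hg'
      exact ⟨g, hg, (h4.mono h2.ht).trans h3⟩

theorem Cnd.le_iff {q p : Cnd J} : q ≤ p ↔ Cnd.LE q p := Iff.rfl

theorem Cnd.nonempty_of_le {q p : Cnd J} (h : q ≤ p) {o : Option J} (ho : (p.S o).Nonempty) : (q.S o).Nonempty := by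
  obtain ⟨f, hf⟩ := ho
  obtain ⟨g, hg, _⟩ := Cnd.LE.up h o f hf
  exact ⟨g, hg⟩

/-- The coordinates in `U` (and the coordinate `none`). -/
def Cnd.res (U : Set J) (p : Cnd J) : Cnd J where
  ht := p.ht
  R := p.R
  S o := {f | f ∈ p.S o ∧ ∀ j, o = some j → j ∈ U}
  norm f hf := p.norm f hf.1
  ne := by
    obtain ⟨f, hf⟩ := p.ne
    exact ⟨f, hf, fun j hj => by cases hj⟩
  ctb := p.ctb.mono fun f hf => hf.1
  br f hf b hb n := by
    obtain ⟨g, hg, h⟩ := p.br f hf.1 b hb n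
    exact ⟨g, ⟨hg, fun j hj => by cases hj⟩, h⟩
  sub o f hf := ⟨p.sub o hf.1, fun j hj => by cases hj⟩
  supp := p.supp.mono fun o ho => by
    obtain ⟨f, hf⟩ := ho
    exact ⟨f, hf.1⟩

section res

variable {U V : Set J} {p q : Cnd J}

@[simp] theorem res_ht : (p.res U).ht = p.ht := rfl
@[simp] theorem res_R : (p.res U).R = p.R := rfl
theorem mem_res_none {f : Fn} : f ∈ (p.res U).S none ↔ f ∈ p.S none :=
  ⟨fun h => h.1, fun h => ⟨h, fun j hj => by cases hj⟩⟩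
theorem mem_res_some {f : Fn} {j : J} : f ∈ (p.res U).S (some j) ↔ f ∈ p.S (some j) ∧ j ∈ U :=
  ⟨fun h => ⟨h.1, h.2 j rfl⟩, fun h => ⟨h.1, fun i hi => by cases hi; exact h.2⟩⟩

theorem res_mono (h : q ≤ p) : q.res U ≤ p.res U := by
  refine ⟨h.ht, h.R, ?_, ?_⟩
  · rintro o ⟨f0, hf0⟩ g hg
    obtain ⟨f, hf, h1⟩ := h.down o ⟨f0, hf0.1⟩ g hg.1
    exact ⟨f, ⟨hf, hf0.2⟩, h1⟩
  · intro o f hf
    obtain ⟨g, hg, h1⟩ := h.up o f hf.1
    exact ⟨g, ⟨hg, hf.2⟩, h1⟩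

theorem le_res : p ≤ p.res U := by
  refine ⟨le_rfl, fun _ _ => rfl, ?_, ?_⟩
  · rintro o ⟨f0, hf0⟩ g hg
    exact ⟨g, ⟨hg, hf0.2⟩, Agr.refl _ _⟩
  · intro o f hf
    exact ⟨f, hf.1, Agr.refl _ _⟩

theorem res_anti (h : U ⊆ V) : p.res V ≤ p.res U := by
  refine ⟨le_rfl, fun _ _ => rfl, ?_, ?_⟩
  · rintro o ⟨f0, hf0⟩ g hg
    exact ⟨g, ⟨hg.1, hf0.2⟩, Agr.refl _ _⟩
  · intro o f hf
    exact ⟨f, ⟨hf.1, fun j hj => h (hf.2 j hj)⟩, Agr.refl _ _⟩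

/-- A restriction which contains the support. -/
theorem res_le_of_supp (h : ∀ j, (p.S (some j)).Nonempty → j ∈ U) : p.res U ≤ p := by
  refine ⟨le_rfl, fun _ _ => rfl, ?_, ?_⟩
  · rintro o - g hg
    exact ⟨g, hg.1, Agr.refl _ _⟩
  · intro o f hf
    refine ⟨f, ⟨hf, fun j hj => ?_⟩, Agr.refl _ _⟩
    subst hj
    exact h j ⟨f, hf⟩

theorem res_le_res_res (h : U ⊆ V) : (p.res V).res U ≤ p.res U := by
  refine ⟨le_rfl, fun _ _ => rfl, ?_, ?_⟩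
  · rintro o ⟨f0, hf0⟩ g hg
    exact ⟨g, ⟨hg.1.1, hf0.2⟩, Agr.refl _ _⟩
  · intro o f hf
    exact ⟨f, ⟨⟨hf.1, fun j hj => h (hf.2 j hj)⟩, hf.2⟩, Agr.refl _ _⟩

theorem res_res_le_res (h : U ⊆ V) : p.res U ≤ (p.res V).res U := by
  refine ⟨le_rfl, fun _ _ => rfl, ?_, ?_⟩
  · rintro o ⟨f0, hf0⟩ g hg
    exact ⟨g, ⟨⟨hg.1, fun j hj => h (hf0.2 j hj)⟩, hg.2⟩, Agr.refl _ _⟩
  · intro o f hf
    exact ⟨f, ⟨hf.1.1, hf.2⟩, Agr.refl _ _⟩

end res

/-! ### Forcing -/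

/-- `p` forces over `Q` that the generic filter meets `N`. -/
def Frc (Q N : Set (Cnd J)) (p : Cnd J) : Prop :=
  ∀ q ∈ Q, q ≤ p → ∃ r ∈ Q, r ≤ q ∧ ∃ n ∈ N, n ∈ Q ∧ r ≤ n

theorem Frc.mono {Q N : Set (Cnd J)} {p q : Cnd J} (h : Frc Q N p) (hq : q ≤ p) : Frc Q N q :=
  fun r hr hrq => h r hr (hrq.trans hq)

/-- The name `K` is dense. -/
def Dns (Q : Set (Cnd J)) (K : Node → Set (Cnd J)) : Prop :=
  ∀ p ∈ Q, ∀ f ∈ p.S none, ∃ q ∈ Q, q ≤ p ∧ ∃ g ∈ q.S none, Agr p.ht g f ∧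
    ∃ c, p.ht ≤ c ∧ c < q.ht ∧ Frc Q (K (node c g)) q

variable [LinearOrder J]

/-- The condition on the coordinate `j`. -/
def GoodAt (Q : Set (Cnd J)) (K : Node → Set (Cnd J)) (j : J) (p : Cnd J) : Prop :=
  (p.S (some j)).Nonempty → Dns Q K ∧ ∀ f ∈ p.S (some j), ∀ g ∈ p.S (some j), ∀ c, Agr c f g → f c ≠ g c →
    Frc Q (K (node c f)) (p.res (Iio j))

variable [WellFoundedLT J]

/-- The iterations of length `j`. -/
noncomputable def PP (e : J → Node → Set (Cnd J)) : J → Set (Cnd J) :=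
  WellFounded.fix (r := fun a b : J => a < b) wellFounded_lt fun j PPi =>
    {p | (∀ i, (p.S (some i)).Nonempty → i < j) ∧ ∀ i (h : i < j), GoodAt (PPi i h) (e i) i p}

variable (e : J → Node → Set (Cnd J))

theorem PP_eq (j : J) :
    PP e j = {p | (∀ i, (p.S (some i)).Nonempty → i < j) ∧ ∀ i, i < j → GoodAt (PP e i) (e i) i p} := by
  unfold PP
  rw [WellFounded.fix_eq]

/-- The forcing notion. -/
def PA : Set (Cnd J) := {p | ∀ i, GoodAt (PP e i) (e i) i p}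

theorem mem_PP {j : J} {p : Cnd J} : p ∈ PP e j ↔ p ∈ PA e ∧ ∀ i, (p.S (some i)).Nonempty → i < j := by
  rw [PP_eq]
  constructor
  · rintro ⟨h1, h2⟩
    exact ⟨fun i hi => h2 i (h1 i hi) hi, h1⟩
  · rintro ⟨h1, h2⟩
    exact ⟨h2, fun i _ => h1 i⟩

variable {e}

theorem PP_sub {j : J} : PP e j ⊆ PA e := fun _ hp => ((mem_PP e).1 hp).1

theorem PP_mono {i j : J} (h : i ≤ j) : PP e i ⊆ PP e j := fun _ hp =>
  (mem_PP e).2 ⟨((mem_PP e).1 hp).1, fun k hk => (((mem_PP e).1 hp).2 k hk).trans_le h⟩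

omit [WellFoundedLT J] in
/-- Transfer of the condition on meets to a stronger condition. -/
theorem GoodAt.transfer {Q : Set (Cnd J)} {K : Node → Set (Cnd J)} {j : J} {r q : Cnd J} (h : GoodAt Q K j r)
    (hqr : q ≤ r) (hne : (r.S (some j)).Nonempty) {f g : Fn} (hf : f ∈ q.S (some j)) (hg : g ∈ q.S (some j)) {c : W}
    (hc : c < r.ht) (hfg : Agr c f g) (hfg' : f c ≠ g c) : Frc Q (K (node c f)) (q.res (Iio j)) := by
  obtain ⟨f', hf', h1⟩ := hqr.down _ hne f hf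
  obtain ⟨g', hg', h2⟩ := hqr.down _ hne g hg
  have h3 := (h hne).2 f' hf' g' hg' c (((h1.mono hc.le).symm.trans hfg).trans (h2.mono hc.le))
    (by rw [← h1 c hc, ← h2 c hc]; exact hfg')
  rw [← node_congr (h1.mono hc.le)] at h3
  exact h3.mono (res_mono hqr)

theorem res_mem_PA {U : Set J} (hU : ∀ i ∈ U, ∀ j < i, j ∈ U) {p : Cnd J} (hp : p ∈ PA e) : p.res U ∈ PA e := by
  rintro i ⟨f0, hf0⟩
  have hi : i ∈ U := (mem_res_some.1 hf0).2
  refine ⟨(hp i ⟨f0, (mem_res_some.1 hf0).1⟩).1, fun f hf g hg c h1 h2 => ?_⟩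
  refine ((hp i ⟨f0, (mem_res_some.1 hf0).1⟩).2 f (mem_res_some.1 hf).1 g (mem_res_some.1 hg).1 c h1 h2).mono ?_
  exact res_le_res_res fun j hj => hU i hi j hj

theorem res_mem_PP {j : J} {p : Cnd J} (hp : p ∈ PA e) : p.res (Iio j) ∈ PP e j := by
  refine (mem_PP e).2 ⟨res_mem_PA (fun i hi k hk => hk.trans hi) hp, ?_⟩
  rintro i ⟨f0, hf0⟩
  exact (mem_res_some.1 hf0).2

end Run7.h704
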