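import Pool.Agent.Run7.h704.Mod5

set_option autoImplicit false

namespace Run7.h704Mod

open Set
open Pool.Agent.H42.ZF hiding Fn
open Run7.h704 hiding Frc
open Run7.h704.TreeDefs

/-- The trivial condition. -/
theorem nonempty_PT (e : JJ → Node → Set (Cnd JJ)) : Nonempty (PT e) := by
  have hne : (univ : Set W).Nonempty := univ_nonempty
  let b : W := WellFounded.min wellFounded_lt univ hne
  have hb : ∀ c, ¬ c < b := fun c => WellFounded.not_lt_min wellFounded_lt univ (mem_univ c)
  let p : Cnd JJ :=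
    { ht := b
      R := fun _ => ∅
      S := fun o => {f | o = none ∧ f = fun _ => 0}
      norm := by
        rintro f ⟨-, rfl⟩ c _
        rfl
      ne := ⟨fun _ => 0, rfl, rfl⟩
      ctb := (countable_singleton (fun _ => 0 : W → ℕ)).mono fun f hf => hf.2
      br := fun f _ c hc => absurd hc (hb c)
      sub := fun o f hf => ⟨rfl, hf.2⟩
      supp := (countable_singleton (none : Option JJ)).mono fun o ho => by
        obtain ⟨f, hf⟩ := ho
        exact hf.1 }
  refine ⟨⟨p, ?_⟩⟩
  rintro i ⟨f, hf⟩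
  cases hf.1

theorem main : ∃ (M : Type 1) (E : M → M → Prop), ZFC E ∧ CH E ∧ ∃ T, Aronszajn E T ∧ CAT E T := by
  obtain ⟨e, he⟩ := exists_book
  have hBK : BK e := BK_of he
  obtain ⟨p⟩ := nonempty_PT e
  obtain ⟨U, -⟩ := ex_ult p
  exact ⟨M U, E U, M_zfc U, ch_holds, mk U (TN e), aronszajn_TN, cat_TN hBK⟩

end Run7.h704Mod
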