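import Pool.Agent.Run7.h704.Amalg

set_option autoImplicit false

namespace Run7.h704

open Set

universe u v

variable {J : Type u}

/-! ### Higher conditions -/

/-- The top level of the higher condition. -/
def hiT (p : Cnd J) (b : W) : Set Fn :=
  {g | (∃ f ∈ p.S none, Agr p.ht g f) ∧ (∀ c, b ≤ c → g c = 0) ∧ {c | p.ht ≤ c ∧ g c ≠ 0}.Finite}

theorem hiT_of_mem {p : Cnd J} {b : W} (hb : p.ht ≤ b) {f : Fn} (hf : f ∈ p.S none) : f ∈ hiT p b := by
  refine ⟨⟨f, hf, Agr.refl _ _⟩, fun c hc => p.norm f hf c (hb.trans hc), ?_⟩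
  have : {c | p.ht ≤ c ∧ f c ≠ 0} = ∅ := by
    ext c
    simp only [mem_ofPred_eq, mem_empty_iff_false, iff_false, not_and, not_not]
    exact p.norm f hf c
  rw [this]
  exact finite_empty

theorem hiT_countable (p : Cnd J) (b : W) : (hiT p b).Countable := by
  classical
  have : Countable (Iio b) := (W_Iio_countable b).to_subtype
  have h1 : (⋃ f ∈ p.S none, range fun h : (Iio b) →₀ ℕ => (fun c : W => if c < p.ht then f c else
      if hc : c < b then h ⟨c, hc⟩ else 0 : Fn)).Countable :=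
    p.ctb.biUnion fun f _ => countable_range _
  refine h1.mono ?_
  rintro g ⟨⟨f, hf, hgf⟩, h2, h3⟩
  refine mem_biUnion hf ?_
  have h4 : {d : Iio b | p.ht ≤ d.1 ∧ g d.1 ≠ 0}.Finite := by
    refine Finite.preimage (f := fun d : Iio b => d.1) (fun _ _ _ _ h => Subtype.ext h) h3
  refine ⟨⟨h4.toFinset, fun d => if p.ht ≤ d.1 then g d.1 else 0, ?_⟩, ?_⟩
  · intro d
    simp
  · funext c
    simp only [Finsupp.coe_mk]
    by_cases hc : c < p.ht
    · simp only [hc, if_true]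
      exact (hgf c hc).symm
    · simp only [hc, if_false]
      rw [not_lt] at hc
      by_cases hcb : c < b
      · simp [hcb, hc]
      · simp only [hcb, dite_false]
        exact (h2 c (not_lt.1 hcb)).symm

/-- The higher condition. -/
noncomputable def hi (p : Cnd J) (b : W) (hb : p.ht ≤ b) (x : Set ℕ) : Cnd J where
  ht := b
  R c := by
    classical
    exact if c < p.ht then p.R c else x
  S o := {g | (o = none ∧ g ∈ hiT p b) ∨ g ∈ p.S o}
  norm f hf c hc := by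
    rcases hf with ⟨_, hf⟩ | hf
    · exact hf.2.1 c hc
    · exact p.norm f hf c (hb.trans hc)
  ne := by
    obtain ⟨f, hf⟩ := p.ne
    exact ⟨f, Or.inr hf⟩
  ctb := by
    refine (hiT_countable p b).mono ?_
    rintro f (⟨_, hf⟩ | hf)
    · exact hf
    · exact hiT_of_mem hb hf
  br f hf c hc n := by
    classical
    have hf : f ∈ hiT p b := by
      rcases hf with ⟨_, hf⟩ | hf
      · exact hf
      · exact hiT_of_mem hb hf
    obtain ⟨⟨f0, hf0, h1⟩, h2, h3⟩ := hf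
    rcases lt_or_ge c p.ht with hcp | hcp
    · obtain ⟨g, hg, h4, h5⟩ := p.br f0 hf0 c hcp n
      exact ⟨g, Or.inr hg, h4.trans (h1.mono hcp.le).symm, h5⟩
    · refine ⟨fun d => if d < c then f d else if d = c then n else 0, Or.inl ⟨rfl, ⟨f0, hf0, ?_⟩, ?_, ?_⟩, ?_, ?_⟩
      · intro d hd
        simp only [hd.trans_le hcp, if_true]
        exact h1 d hd
      · intro d hd
        have h4 : ¬ d < c := not_lt.2 (hc.le.trans hd)
        have h5 : d ≠ c := (hc.trans_le hd).ne'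
        simp [h4, h5]
      · refine (h3.union (finite_singleton c)).subset ?_
        rintro d ⟨hd1, hd2⟩
        by_cases h4 : d < c
        · left
          simp only [h4, if_true] at hd2
          exact ⟨hd1, hd2⟩
        · right
          by_contra h5
          rw [mem_singleton_iff] at h5
          simp [h4, h5] at hd2
      · intro d hd
        simp [hd]
      · simp
  sub o f hf := by
    rcases hf with ⟨h1, hf⟩ | hf
    · exact Or.inl ⟨rfl, hf⟩
    · exact Or.inr (p.sub o hf)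
  supp := by
    refine (p.supp.insert none).mono ?_
    rintro o ⟨f, ⟨h1, hf⟩ | hf⟩
    · exact Or.inl h1
    · exact Or.inr ⟨f, hf⟩

section

variable {p : Cnd J} {b : W} (hb : p.ht ≤ b) (x : Set ℕ)

theorem mem_hi_some {j : J} {g : Fn} : g ∈ (hi p b hb x).S (some j) ↔ g ∈ p.S (some j) := by
  constructor
  · rintro (⟨h1, _⟩ | h)
    · cases h1
    · exact h
  · exact Or.inr

theorem hi_le : hi p b hb x ≤ p := by
  refine ⟨hb, fun c hc => by simp [hi, hc], ?_, fun o f hf => ⟨f, Or.inr hf, Agr.refl _ _⟩⟩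
  rintro o ho g (⟨rfl, hg⟩ | hg)
  · exact hg.1
  · exact ⟨g, hg, Agr.refl _ _⟩

theorem hi_R {c : W} (h1 : p.ht ≤ c) : (hi p b hb x).R c = x := by
  simp [hi, not_lt.2 h1]

end

variable [LinearOrder J] [WellFoundedLT J] {e : J → Node → Set (Cnd J)}

theorem hi_mem {p : Cnd J} (hp : p ∈ PA e) {b : W} (hb : p.ht ≤ b) (x : Set ℕ) : hi p b hb x ∈ PA e := by
  rintro i ⟨f0, hf0⟩
  rw [mem_hi_some] at hf0
  refine ⟨(hp i ⟨f0, hf0⟩).1, fun f hf g hg c h1 h2 => ?_⟩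
  refine (hp i).transfer (hi_le hb x) ⟨f0, hf0⟩ hf hg ?_ h1 h2
  exact p.lt_of_ne ((mem_hi_some hb x).1 hf) ((mem_hi_some hb x).1 hg) h2

theorem exists_higher {p : Cnd J} (hp : p ∈ PA e) {b : W} (hb : p.ht ≤ b) (x : Set ℕ) :
    ∃ q ∈ PA e, q ≤ p ∧ q.ht = b ∧ (∀ c, p.ht ≤ c → q.R c = x) ∧
      ∀ i, (q.S (some i)).Nonempty → (p.S (some i)).Nonempty :=
  ⟨hi p b hb x, hi_mem hp hb x, hi_le hb x, rfl, fun c h1 => hi_R hb x h1, fun i hi => by
    obtain ⟨f, hf⟩ := hi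
    exact ⟨f, (mem_hi_some hb x).1 hf⟩⟩

/-! ### Limits -/

section limit

omit [LinearOrder J] [WellFoundedLT J]

/-- The branches through the coordinate `o`. -/
def Brn (p : ℕ → Cnd J) (α : W) (o : Option J) : Set Fn :=
  {b | (∀ c, α ≤ c → b c = 0) ∧ ∃ m, ∀ n, m ≤ n → ∃ f ∈ (p n).S o, Agr (p n).ht b f}

variable {p : ℕ → Cnd J} (hdec : ∀ n, p (n + 1) ≤ p n)
include hdec

theorem dec_le {m n : ℕ} (h : m ≤ n) : p n ≤ p m := by
  induction n, h using Nat.le_induction with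
  | base => exact le_rfl
  | succ n _ ih => exact (hdec n).trans ih

theorem exists_branch {α : W} (hα : ∀ n, (p n).ht ≤ α) {o : Option J} {m : ℕ} {f : Fn} (hf : f ∈ (p m).S o) :
    ∃ b ∈ Brn p α o, Agr (p m).ht b f := by
  classical
  have h1 : ∀ (n : ℕ) (g : Fn), ∃ g' : Fn, g ∈ (p n).S o → g' ∈ (p (n + 1)).S o ∧ Agr (p n).ht g' g := by
    intro n g
    by_cases hg : g ∈ (p n).S o
    · obtain ⟨g', h1, h2⟩ := (hdec n).up o g hg
      exact ⟨g', fun _ => ⟨h1, h2⟩⟩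
    · exact ⟨g, fun h => absurd h hg⟩
  choose st hst using h1
  let sq : ℕ → Fn := fun k => Nat.rec f (fun k g => st (m + k) g) k
  have hsq : ∀ k, sq k ∈ (p (m + k)).S o := by
    intro k
    induction k with
    | zero => exact hf
    | succ k ih => exact (hst (m + k) (sq k) ih).1
  have hsq2 : ∀ k, Agr (p (m + k)).ht (sq (k + 1)) (sq k) := fun k => (hst (m + k) (sq k) (hsq k)).2
  have hht : ∀ k l, k ≤ l → (p (m + k)).ht ≤ (p (m + l)).ht := fun k l h => (dec_le hdec (by omega)).ht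
  have hsq3 : ∀ k l, k ≤ l → Agr (p (m + k)).ht (sq l) (sq k) := by
    intro k l h
    induction l, h using Nat.le_induction with
    | base => exact Agr.refl _ _
    | succ l h ih => exact ((hsq2 l).mono (hht k l h)).trans ih
  let b : Fn := fun c => if h : ∃ k, c < (p (m + k)).ht then sq (Nat.find h) c else 0
  have hb : ∀ k, Agr (p (m + k)).ht b (sq k) := by
    intro k c hc
    have h : ∃ k, c < (p (m + k)).ht := ⟨k, hc⟩
    have h2 : b c = sq (Nat.find h) c := by simp only [b, h, dite_true]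
    rw [h2]
    exact (hsq3 _ _ (Nat.find_min' h hc) c (Nat.find_spec h)).symm
  refine ⟨b, ⟨fun c hc => ?_, m, fun n hn => ?_⟩, hb 0⟩
  · have h : ¬ ∃ k, c < (p (m + k)).ht := by
      rintro ⟨k, hk⟩
      exact absurd hk (not_lt.2 ((hα _).trans hc))
    simp only [b, h, dite_false]
  · obtain ⟨k, rfl⟩ := Nat.exists_eq_add_of_le hn
    exact ⟨sq k, hsq k, hb k⟩

end limit

section limit2

theorem limit {p : ℕ → Cnd J} (hp : ∀ n, p n ∈ PA e) (hdec : ∀ n, p (n + 1) ≤ p n) {α : W}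
    (hα : ∀ n, (p n).ht ≤ α) (hα' : ∀ c < α, ∃ n, c < (p n).ht) (D : Set Fn)
    (hD : ∀ o m, ∀ f ∈ (p m).S o, ∃ b ∈ Brn p α o, b ∈ D ∧ Agr (p m).ht b f) :
    ∃ q ∈ PA e, (∀ n, q ≤ p n) ∧ q.ht = α ∧ q.S none ⊆ D := by
  classical
  have hle : ∀ m n, m ≤ n → p n ≤ p m := fun m n => dec_le hdec
  have h1 : ∀ (o : Option J) (m : ℕ) (f : Fn), ∃ b : Fn, f ∈ (p m).S o → b ∈ Brn p α o ∧ b ∈ D ∧ Agr (p m).ht b f := by
    intro o m f
    by_cases hf : f ∈ (p m).S o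
    · obtain ⟨b, h1, h2, h3⟩ := hD o m f hf
      exact ⟨b, fun _ => ⟨h1, h2, h3⟩⟩
    · exact ⟨f, fun h => absurd h hf⟩
  choose F hF using h1
  -- the top level
  let T : Set Fn := {b | ∃ m, ∃ o, ∃ f ∈ (p m).S o, b = F o m f}
  have hT : ∀ o m, ∀ f ∈ (p m).S o, F o m f ∈ T := fun o m f hf => ⟨m, o, f, hf, rfl⟩
  have hTc : T.Countable := by
    have h2 : (⋃ m : ℕ, ⋃ o ∈ {o | ((p m).S o).Nonempty}, F o m '' ((p m).S o)).Countable := by
      refine countable_iUnion fun m => (p m).supp.biUnion fun o _ => ?_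
      exact ((p m).ctb.mono ((p m).sub o)).image _
    refine h2.mono ?_
    rintro b ⟨m, o, f, hf, rfl⟩
    exact mem_iUnion.2 ⟨m, mem_biUnion (show o ∈ {o | ((p m).S o).Nonempty} from ⟨f, hf⟩) ⟨f, hf, rfl⟩⟩
  have hBn : ∀ o, Brn p α o ⊆ Brn p α none := by
    rintro o b ⟨h1, m, h2⟩
    refine ⟨h1, m, fun n hn => ?_⟩
    obtain ⟨f, hf, h3⟩ := h2 n hn
    exact ⟨f, (p n).sub o hf, h3⟩
  have hTB : T ⊆ Brn p α none := by
    rintro b ⟨m, o, f, hf, rfl⟩
    exact hBn o (hF o m f hf).1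
  have hTD : T ⊆ D := by
    rintro b ⟨m, o, f, hf, rfl⟩
    exact (hF o m f hf).2.1
  let R : W → Set ℕ := fun c => if h : ∃ n, c < (p n).ht then (p (Nat.find h)).R c else ∅
  have hR : ∀ n, ∀ c < (p n).ht, R c = (p n).R c := by
    intro n c hc
    have h : ∃ n, c < (p n).ht := ⟨n, hc⟩
    have h2 : R c = (p (Nat.find h)).R c := by simp only [R, h, dite_true]
    rw [h2]
    exact ((hle _ _ (Nat.find_min' h hc)).R c (Nat.find_spec h)).symm
  let q : Cnd J :=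
    { ht := α
      R := R
      S := fun o => {b | b ∈ T ∧ b ∈ Brn p α o}
      norm := fun f hf c hc => hf.2.1 c hc
      ne := by
        obtain ⟨f, hf⟩ := (p 0).ne
        exact ⟨F none 0 f, hT _ _ f hf, (hF none 0 f hf).1⟩
      ctb := hTc.mono fun f hf => hf.1
      br := by
        rintro b ⟨hb, -, m0, hm0⟩ c hc n
        obtain ⟨m1, hm1⟩ := hα' c hc
        have hcm : c < (p (max m0 m1)).ht := hm1.trans_le (hle _ _ (le_max_right _ _)).ht
        obtain ⟨f, hf, hbf⟩ := hm0 (max m0 m1) (le_max_left _ _)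
        obtain ⟨g, hg, h2, h3⟩ := (p (max m0 m1)).br f hf c hcm n
        obtain ⟨h4, h5, h6⟩ := hF none _ g hg
        refine ⟨F none _ g, ⟨hT _ _ g hg, h4⟩, ((h6.mono hcm.le).trans h2).trans (hbf.mono hcm.le).symm, ?_⟩
        rw [h6 c hcm, h3]
      sub := fun o b hb => ⟨hb.1, hBn o hb.2⟩
      supp := by
        refine (countable_iUnion fun m => (p m).supp).mono ?_
        rintro o ⟨b, -, -, m, hm⟩
        obtain ⟨f, hf, -⟩ := hm m le_rfl
        exact mem_iUnion.2 ⟨m, f, hf⟩ }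
  have hq : ∀ n, q ≤ p n := by
    intro n
    refine ⟨hα n, hR n, ?_, ?_⟩
    · rintro o ho b ⟨-, -, m, hm⟩
      obtain ⟨f, hf, h2⟩ := hm (max m n) (le_max_left _ _)
      obtain ⟨f', hf', h3⟩ := (hle _ _ (le_max_right m n)).down o ho f hf
      exact ⟨f', hf', (h2.mono (hle _ _ (le_max_right m n)).ht).trans h3⟩
    · intro o f hf
      exact ⟨F o n f, ⟨hT _ _ f hf, (hF o n f hf).1⟩, (hF o n f hf).2.2⟩
  refine ⟨q, ?_, hq, rfl, fun b hb => hTD hb.1⟩
  rintro i ⟨b0, -, -, m0, hm0⟩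
  obtain ⟨f0, hf0, -⟩ := hm0 m0 le_rfl
  refine ⟨(hp m0 i ⟨f0, hf0⟩).1, fun f hf g hg c h2 h3 => ?_⟩
  have hc : c < α := by
    by_contra hc
    rw [not_lt] at hc
    exact h3 (by rw [hf.2.1 c hc, hg.2.1 c hc])
  obtain ⟨m1, hm1⟩ := hα' c hc
  have hle0 : p (max m0 m1) ≤ p m0 := hle _ _ (le_max_left _ _)
  refine (hp (max m0 m1) i).transfer (hq _) (Cnd.nonempty_of_le hle0 ⟨f0, hf0⟩) hf hg
    (hm1.trans_le (hle _ _ (le_max_right _ _)).ht) h2 h3

/-- The forcing notion is closed under limits of decreasing sequences. -/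
theorem closed {p : ℕ → Cnd J} (hp : ∀ n, p n ∈ PA e) (hdec : ∀ n, p (n + 1) ≤ p n) :
    ∃ q ∈ PA e, ∀ n, q ≤ p n := by
  obtain ⟨α, hα, hα'⟩ := W_lub fun n => (p n).ht
  obtain ⟨q, hq, h1, -⟩ := limit hp hdec hα hα' univ fun o m f hf => by
    obtain ⟨b, hb, h⟩ := exists_branch hdec hα hf
    exact ⟨b, hb, mem_univ _, h⟩
  exact ⟨q, hq, h1⟩

end limit2

/-- Meeting countably many dense sets. -/
theorem baire (D : ℕ → Set (Cnd J)) (p0 : Cnd J) (hd : ∀ n, ∀ p ∈ PA e, p ≤ p0 → ∃ q ∈ PA e, q ≤ p ∧ q ∈ D n)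
    (ho : ∀ n q r, q ∈ D n → r ∈ PA e → r ≤ q → r ∈ D n) (hp : p0 ∈ PA e) : ∃ q ∈ PA e, q ≤ p0 ∧ ∀ n, q ∈ D n := by
  classical
  have h1 : ∀ (n : ℕ) (x : {x : Cnd J // x ∈ PA e ∧ x ≤ p0}), ∃ y : {x : Cnd J // x ∈ PA e ∧ x ≤ p0}, y.1 ≤ x.1 ∧ y.1 ∈ D n := by
    intro n x
    obtain ⟨q, hq, h1, h2⟩ := hd n x.1 x.2.1 x.2.2
    exact ⟨⟨q, hq, h1.trans x.2.2⟩, h1, h2⟩
  choose st hst using h1
  let sq : ℕ → {x : Cnd J // x ∈ PA e ∧ x ≤ p0} := fun n => Nat.rec ⟨p0, hp, le_rfl⟩ (fun n x => st n x) n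
  obtain ⟨q, hq, h2⟩ := closed (p := fun n => (sq n).1) (fun n => (sq n).2.1) (fun n => (hst n (sq n)).1)
  exact ⟨q, hq, h2 0, fun n => ho n _ _ (hst n (sq n)).2 hq (h2 (n + 1))⟩

end Run7.h704
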