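import Pool.Agent.H42.ZFDefs

set_option autoImplicit false

/-! Trees of functions from countable ordinals to `ω`, interpreted in a structure `(M, E)`. -/

namespace Run7.h704.TreeDefs

open Pool.Agent.H42.ZF

variable {M : Type 1} (E : M → M → Prop)

/-- `a` is an ordinal: a transitive set which is linearly ordered by membership -/
def IsOrd (a : M) : Prop :=
  (∀ x, E x a → Sub E x a) ∧ ∀ x y, E x a → E y a → E x y ∨ x = y ∨ E y x

/-- `x` is countable: there is a one-to-one function from `x` to `ω` -/
def Ctbl (x : M) : Prop :=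
  ∃ w f, IsOmega E w ∧ IsFun E f x w ∧ ∀ a b c, App E f a c → App E f b c → a = b

/-- `a` is a countable ordinal -/
def COrd (a : M) : Prop := IsOrd E a ∧ Ctbl E a

/-- `s` is a function from the countable ordinal `a` to `ω` -/
def SeqOn (s a : M) : Prop := COrd E a ∧ ∃ w, IsOmega E w ∧ IsFun E s a w

/-- The continuum hypothesis: some function maps the set of all countable ordinals onto the power set
of `ω`. -/
def CH : Prop :=
  ∃ w o R F, IsOmega E w ∧ (∀ a, E a o ↔ COrd E a) ∧ (∀ x, E x R ↔ Sub E x w) ∧ IsFun E F o R ∧
    ∀ x, E x R → ∃ a, App E F a x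

/-- `T` is a set of functions from countable ordinals to `ω` and is closed under restrictions to
countable ordinals -/
def Tree (T : M) : Prop :=
  (∀ s, E s T → ∃ a, SeqOn E s a) ∧ ∀ s a r, E s T → COrd E a → Restr E r s a → E r T

/-- any two elements of `C` are comparable -/
def Chain (C : M) : Prop := ∀ s t, E s C → E t C → Sub E s t ∨ Sub E t s

/-- any two distinct elements of `A` are incomparable -/
def Antichain (A : M) : Prop := ∀ s t, E s A → E t A → Sub E s t → s = t

/-- `T` is an Aronszajn tree: the levels of `T` are nonempty and countable, and all chains of `T` are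
countable -/
def Aronszajn (T : M) : Prop :=
  Tree E T ∧ (∀ a, COrd E a → ∃ s, E s T ∧ SeqOn E s a) ∧
    (∀ a L, COrd E a → (∀ s, E s L ↔ E s T ∧ SeqOn E s a) → Ctbl E L) ∧
    ∀ D, Sub E D T → Chain E D → Ctbl E D

/-- `z` is the meet of the incomparable functions `s` and `t`: the restriction of both to the least
ordinal `d` at which they differ -/
def Meet (s t z : M) : Prop :=
  ∃ d m n, Restr E z s d ∧ Restr E z t d ∧ App E s d m ∧ App E t d n ∧ m ≠ n

/-- `T` satisfies CAT: for every `K ⊆ T` there is an uncountable antichain `A ⊆ T` such that the meets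
of its distinct elements are all in `K` or all in `T \ K` -/
def CAT (T : M) : Prop :=
  ∀ K, Sub E K T → ∃ A, Sub E A T ∧ ¬ Ctbl E A ∧ Antichain E A ∧
    ((∀ s t z, E s A → E t A → s ≠ t → Meet E s t z → E z K) ∨
      ∀ s t z, E s A → E t A → s ≠ t → Meet E s t z → E z T ∧ ¬ E z K)

end Run7.h704.TreeDefs
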