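import Pool.Agent.H42.Frc4
import Pool.Agent.Run7.h704.Cat
import Pool.Agent.Run7.h704.TreeDefs

set_option autoImplicit false

namespace Run7.h704Mod

open Set
open Pool.Agent.H42.ZF hiding Fn
open Run7.h704 hiding Frc
open Run7.h704.TreeDefs

variable {P : Type} [Preorder P] {U : Ult P}

section inst
instance cIsOrd (x : Nm P) : C (fun U => IsOrd (E U) (mk U x)) := by unfold IsOrd; infer_instance
instance cCtbl (x : Nm P) : C (fun U => Ctbl (E U) (mk U x)) := by unfold Ctbl; infer_instance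
instance cCOrd (x : Nm P) : C (fun U => COrd (E U) (mk U x)) := by unfold COrd; infer_instance
instance cSeqOn (x y : Nm P) : C (fun U => SeqOn (E U) (mk U x) (mk U y)) := by
  unfold SeqOn; infer_instance
instance cMeet (x y z : Nm P) : C (fun U => Meet (E U) (mk U x) (mk U y) (mk U z)) := by
  unfold Meet; infer_instance
instance cChain (x : Nm P) : C (fun U => Chain (E U) (mk U x)) := by unfold Chain; infer_instance
instance cAntichain (x : Nm P) : C (fun U => Antichain (E U) (mk U x)) := by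
  unfold Antichain; infer_instance
end inst

theorem no_cycle {x y : M U} (h : E U x y) (h' : E U y x) : False := by
  obtain ⟨z, hz⟩ := ex_upair x y
  obtain ⟨w, h1, h2⟩ := M_found z ⟨x, (hz x).2 (Or.inl rfl)⟩
  rcases (hz w).1 h1 with rfl | rfl
  · exact h2 ⟨y, (hz y).2 (Or.inr rfl), h'⟩
  · exact h2 ⟨x, (hz x).2 (Or.inl rfl), h⟩

/-! ### Countable ordinals -/

/-- The name of a countable ordinal. -/
noncomputable def ordN : W → Nm P :=
  WellFounded.fix (r := fun a b : W => a < b) wellFounded_lt fun a rec =>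
    fam (fun b : Iio a => rec b.1 b.2) (fun _ _ => True)

theorem ordN_eq (a : W) : (ordN a : Nm P) = fam (fun b : Iio a => ordN b.1) (fun _ _ => True) := by
  unfold ordN
  rw [WellFounded.fix_eq]

theorem ord_mem {a b : W} (h : b < a) : E U (mk U (ordN b)) (mk U (ordN a)) := by
  rw [ordN_eq a]
  exact fam_intro (A := fun b : Iio a => ordN b.1) (Q := fun _ _ => True) ⟨b, h⟩ trivial

@[elab_as_elim] theorem ord_cases {a : W} {z : Nm P} {R : Ult P → Prop} [C R]
    (h : ∀ b < a, ∀ U, mk U z = mk U (ordN b) → R U) (U : Ult P)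
    (hU : E U (mk U z) (mk U (ordN a))) : R U := by
  rw [ordN_eq a] at hU
  exact fam_cases (fun b V _ => h b.1 b.2 V) U hU

/-- The name of `ω₁`. -/
noncomputable def w1N : Nm P := fam ordN (fun _ _ => True)

theorem ord_mem_w1 (a : W) : E U (mk U (ordN a)) (mk U w1N) := fam_intro a trivial

@[elab_as_elim] theorem w1_cases {z : Nm P} {R : Ult P → Prop} [C R]
    (h : ∀ a, ∀ U, mk U z = mk U (ordN a) → R U) (U : Ult P)
    (hU : E U (mk U z) (mk U w1N)) : R U :=
  fam_cases (fun n V _ => h n V) U hU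

theorem isOrd_ordN (a : W) : IsOrd (E U) (mk U (ordN a)) := by
  constructor
  · intro x hx
    obtain ⟨x, rfl⟩ := mk_surj x
    refine ord_cases (R := fun U => Sub (E U) (mk U x) (mk U (ordN a))) (fun b hb U e => ?_) U hx
    rw [e]
    intro y hy
    obtain ⟨y, rfl⟩ := mk_surj y
    refine ord_cases (R := fun U => E U (mk U y) (mk U (ordN a))) (fun c hc U e => ?_) U hy
    rw [e]
    exact ord_mem (hc.trans hb)
  · intro x y hx hy
    obtain ⟨x, rfl⟩ := mk_surj x
    obtain ⟨y, rfl⟩ := mk_surj y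
    revert hy
    refine ord_cases (R := fun U => E U (mk U y) (mk U (ordN a)) → E U (mk U x) (mk U y) ∨ mk U x = mk U y ∨
      E U (mk U y) (mk U x)) (fun b hb U e hy => ?_) U hx
    revert e
    refine ord_cases (R := fun U => mk U x = mk U (ordN b) → E U (mk U x) (mk U y) ∨ mk U x = mk U y ∨
      E U (mk U y) (mk U x)) (fun c hc U e e' => ?_) U hy
    rw [e, e']
    rcases lt_trichotomy b c with h | h | h
    · exact Or.inl (ord_mem h)
    · exact Or.inr (Or.inl (by rw [h]))
    · exact Or.inr (Or.inr (ord_mem h))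

theorem ordN_inj {a b : W} (h : mk U (ordN a) = mk U (ordN b)) : a = b := by
  rcases lt_trichotomy a b with h' | h' | h'
  · exact absurd (ord_mem (U := U) h') (h ▸ not_mem_self _)
  · exact h'
  · exact absurd (ord_mem (U := U) h') (h ▸ not_mem_self _)

theorem ord_mem_iff {a b : W} : E U (mk U (ordN a)) (mk U (ordN b)) ↔ a < b := by
  refine ⟨fun h => ?_, ord_mem⟩
  rcases lt_trichotomy a b with h' | h' | h'
  · exact h'
  · subst h'
    exact absurd h (not_mem_self _)
  · exact (no_cycle h (ord_mem h')).elim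

/-- A transitive proper subset of an ordinal is an element. -/
theorem mem_of_sub {z y : M U} (hz : IsOrd (E U) z) (hy : ∀ x, E U x y → Sub (E U) x y)
    (hyz : Sub (E U) y z) (hne : y ≠ z) : E U y z := by
  obtain ⟨z, rfl⟩ := mk_surj z
  obtain ⟨y, rfl⟩ := mk_surj y
  have hD : ∀ x, E U x (mk U (sepN z fun U x => ¬ E U x (mk U y))) ↔
      E U x (mk U z) ∧ ¬ E U x (mk U y) := fun x => mem_sepN (S := fun U x => ¬ E U x (mk U y))
  have h1 : ∃ x, E U x (mk U (sepN z fun U x => ¬ E U x (mk U y))) := by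
    by_contra hc
    push Not at hc
    refine hne (M_ext fun x => ⟨fun h => hyz x h, fun h => ?_⟩)
    by_contra hx
    exact hc x ((hD x).2 ⟨h, hx⟩)
  obtain ⟨x, hx, hmin⟩ := M_found _ h1
  obtain ⟨hxz, hxy⟩ := (hD x).1 hx
  have h2 : mk U y = x := by
    refine M_ext fun w => ⟨fun hw => ?_, fun hw => ?_⟩
    · rcases hz.2 w x (hyz w hw) hxz with h | h | h
      · exact h
      · exact absurd (h ▸ hw) hxy
      · exact absurd (hy w hw x h) hxy
    · by_contra hc
      exact hmin ⟨w, (hD w).2 ⟨hz.1 x hxz w hw, hc⟩, hw⟩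
  rw [h2]
  exact hxz

/-- An ordinal which is not in `ω₁` contains `ω₁`. -/
theorem ord_mem_of_not {z : Nm P} {p : P}
    (h : Frc p (fun U => IsOrd (E U) (mk U z) ∧ ¬ E U (mk U z) (mk U w1N))) (a : W) :
    Frc p (fun U => E U (mk U (ordN a)) (mk U z)) := by
  induction a using WellFoundedLT.induction with
  | ind a ih =>
    intro U hU
    have h1 : Sub (E U) (mk U (ordN a)) (mk U z) := by
      intro x hx
      obtain ⟨x, rfl⟩ := mk_surj x
      revert hU
      refine ord_cases (R := fun U => Iic p ∈ U.U → E U (mk U x) (mk U z)) (fun b hb U e hU => ?_) U hx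
      rw [e]
      exact ih b hb U hU
    refine mem_of_sub (h U hU).1 (isOrd_ordN a).1 h1 fun e => ?_
    refine (h U hU).2 ?_
    rw [← e]
    exact ord_mem_w1 a

/-! ### Countability -/

/-- The graph of a function given by names. -/
theorem rel_app {ι : Type} {A : ι → Nm P} {g : ι → ℕ} {Q : ι → Ult P → Prop} [∀ i, C (Q i)] {U : Ult P} {a b : Nm P}
    {R : Ult P → Prop} [C R] (h : ∀ i U, Q i U → mk U a = mk U (A i) → mk U b = mk U (natN (g i)) → R U)
    (hU : App (E U) (mk U (rel A (fun i => natN (g i)) Q)) (mk U a) (mk U b)) : R U :=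
  rel_cases (B := fun i => natN (g i)) h U hU

/-- A set all of whose elements are among countably many names is countable. -/
theorem ctbl_of {ι : Type} {A : ι → Nm P} (hA : ∀ (U : Ult P) i j, mk U (A i) = mk U (A j) → i = j) {B : Set ι}
    (hB : B.Countable) {L : Nm P} {q : P}
    (hL : ∀ r ≤ q, ∀ x, Frc r (fun U => E U (mk U x) (mk U L)) → ∃ r' ≤ r, ∃ i ∈ B, Frc r' (fun U => mk U x = mk U (A i))) :
    Frc q (fun U => Ctbl (E U) (mk U L)) := by
  obtain ⟨g, hg⟩ := (countable_iff_exists_injective _).1 hB.to_subtype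
  let f : Nm P := rel (fun i : B => A i.1) (fun i => natN (g i)) (fun i U => E U (mk U (A i.1)) (mk U L))
  intro U hU
  refine ⟨_, mk U f, isOmega_omegaN, isFun_of rel_pairs ?_ ?_ ?_, ?_⟩
  · intro a b h
    obtain ⟨a, rfl⟩ := mk_surj a
    obtain ⟨b, rfl⟩ := mk_surj b
    refine rel_app (R := fun U => E U (mk U a) (mk U L) ∧ E U (mk U b) (mk U omegaN)) (fun i U hi e1 e2 => ?_) h
    rw [e1, e2]
    exact ⟨hi, nat_mem_omega _⟩
  · intro a ha
    obtain ⟨a, rfl⟩ := mk_surj a
    revert hU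
    refine by_dense (H := fun U => E U (mk U a) (mk U L)) (R := fun U => Iic q ∈ U.U → ∃ b, App (E U) (mk U f) (mk U a) b)
      (fun p hp => ?_) U ha
    by_cases hpq : ∃ r ≤ p, r ≤ q
    · obtain ⟨r, hrp, hrq⟩ := hpq
      obtain ⟨r', hr', i, hi, h⟩ := hL r hrq a (hp.mono hrp)
      refine ⟨r', hr'.trans hrp, fun U hU _ => ?_⟩
      have h1 : mk U a = mk U (A i) := h U hU
      have h2 : E U (mk U a) (mk U L) := hp.mono (hr'.trans hrp) U hU
      rw [h1] at h2 ⊢
      exact ⟨_, rel_intro (A := fun i : B => A i.1) (B := fun i => natN (g i)) ⟨i, hi⟩ h2⟩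
    · refine ⟨p, le_rfl, fun U hU hU' => ?_⟩
      obtain ⟨r, h1, h2⟩ := Filter.nonempty_of_mem (Filter.inter_mem hU hU')
      exact absurd ⟨r, h1, h2⟩ hpq
  · intro a b c h1 h2
    obtain ⟨a, rfl⟩ := mk_surj a
    obtain ⟨b, rfl⟩ := mk_surj b
    obtain ⟨c, rfl⟩ := mk_surj c
    clear hU
    revert h2
    refine rel_app (R := fun U => App (E U) (mk U f) (mk U a) (mk U c) → mk U b = mk U c) (fun i U _ e1 e2 h2 => ?_) h1
    revert e1 e2
    refine rel_app (R := fun U => mk U a = mk U (A i.1) → mk U b = mk U (natN (g i)) → mk U b = mk U c)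
      (fun j U _ e3 e4 e1 e2 => ?_) h2
    have : i = j := Subtype.ext (hA U _ _ (e1.symm.trans e3))
    rw [e2, e4, this]
  · intro a b c h1 h2
    obtain ⟨a, rfl⟩ := mk_surj a
    obtain ⟨b, rfl⟩ := mk_surj b
    obtain ⟨c, rfl⟩ := mk_surj c
    clear hU
    revert h2
    refine rel_app (R := fun U => App (E U) (mk U f) (mk U b) (mk U c) → mk U a = mk U b) (fun i U _ e1 e2 h2 => ?_) h1
    revert e1 e2
    refine rel_app (R := fun U => mk U a = mk U (A i.1) → mk U c = mk U (natN (g i)) → mk U a = mk U b)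
      (fun j U _ e3 e4 e1 e2 => ?_) h2
    have : i = j := hg (natN_inj (e2.symm.trans e4))
    rw [e1, e3, this]

/-- A countable set contains only countably many of the given names, below some condition. -/
theorem of_ctbl (hP : SClosed P) {ι : Type} (A : ι → Nm P) {X : Nm P} {p : P}
    (hX : Frc p (fun U => Ctbl (E U) (mk U X))) :
    ∃ q ≤ p, ∃ s : Set ι, s.Countable ∧ ∀ r ≤ q, ∀ i, Frc r (fun U => E U (mk U (A i)) (mk U X)) →
      ∃ r' ≤ r, ∃ i' ∈ s, Frc r' (fun U => mk U (A i) = mk U (A i')) := by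
  unfold Ctbl at hX
  obtain ⟨w, hw⟩ := frc_ex hX
  obtain ⟨f, hf⟩ := frc_ex hw
  have hf' : Frc p (fun U => IsFun (E U) (mk U f) (mk U X) (mk U omegaN)) := fun U hU => by
    have h1 := hf U hU
    beta_reduce
    rw [← h1.1.eq]
    exact h1.2.1
  let R : ℕ → Option ι → Ult P → Prop := fun n o U => match o with
    | some i => App (E U) (mk U f) (mk U (A i)) (mk U (natN n))
    | none => {r | ∀ i, ∀ r' ≤ r, ¬ Frc r' (fun U => App (E U) (mk U f) (mk U (A i)) (mk U (natN n)))} ∈ U.U
  obtain ⟨q, hq, g, hg⟩ := omega_cases hP (p := p) (R := R) (fun n q hq => by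
    by_cases h : ∃ i, ∃ r ≤ q, Frc r (fun U => App (E U) (mk U f) (mk U (A i)) (mk U (natN n)))
    · obtain ⟨i, r, hr, h⟩ := h
      exact ⟨r, hr, some i, h⟩
    · push Not at h
      refine ⟨q, le_rfl, none, fun U hU => Filter.mem_of_superset hU fun r hr i r' hr' => ?_⟩
      exact h i r' (le_trans hr' hr))
  refine ⟨q, hq, {i | ∃ n, g n = some i}, ?_, fun r hr i hi => ?_⟩
  · have h1 : {i | ∃ n, g n = some i} ⊆ ⋃ n : ℕ, {i | g n = some i} := fun i ⟨n, hn⟩ => mem_iUnion.2 ⟨n, hn⟩
    refine (countable_iUnion fun n => ?_).mono h1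
    refine Set.Subsingleton.countable fun i hi j hj => ?_
    exact Option.some.inj ((show g n = some i from hi).symm.trans hj)
  · obtain ⟨r1, hr1, k, hk⟩ := decide_app (f := f) (a := A i) (A := X) (p := r)
      (frc_and (hf'.mono (hr.trans hq)) hi)
    have hgk := (hg k).mono (hr1.trans hr)
    cases hgk' : g k with
    | none =>
      rw [hgk'] at hgk
      obtain ⟨U, hU, h1⟩ := hgk.ex
      obtain ⟨r2, h2, h3⟩ := Filter.nonempty_of_mem (Filter.inter_mem hU h1)
      exact absurd (hk.mono h2) (h3 i r2 le_rfl)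
    | some i' =>
      rw [hgk'] at hgk
      refine ⟨r1, hr1, i', ⟨k, hgk'⟩, fun U hU => ?_⟩
      exact (hf.mono ((hr1.trans hr).trans hq) U hU).2.2 _ _ _ (hk U hU) (hgk U hU)

theorem ctbl_ordN (a : W) : Ctbl (E U) (mk U (ordN a)) := by
  refine (cl (Q := fun U : Ult P => Ctbl (E U) (mk U (ordN a)))).all (fun p => ⟨p, le_rfl, ?_⟩) U
  refine ctbl_of (A := ordN) (fun U i j => ordN_inj) (W_Iio_countable a) fun r _ x hx => ?_
  rw [ordN_eq] at hx
  obtain ⟨q, hq, i, hi⟩ := fam_elim hx
  exact ⟨q, hq, i.1, i.2, hi.imp fun _ h => h.2⟩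

theorem cord_ordN (a : W) : COrd (E U) (mk U (ordN a)) := ⟨isOrd_ordN a, ctbl_ordN a⟩

theorem cord_iff (hP : SClosed P) {z : M U} : COrd (E U) z ↔ E U z (mk U w1N) := by
  obtain ⟨z, rfl⟩ := mk_surj z
  constructor
  · refine (cl (Q := fun U => COrd (E U) (mk U z) → E U (mk U z) (mk U w1N))).by_contra (fun p hp => ?_) U
    have h1 := ord_mem_of_not (z := z) (p := p) fun U hU => by
      have := hp U hU
      push Not at this
      exact ⟨this.1.1, this.2⟩
    obtain ⟨q, hq, s, hs, h2⟩ := of_ctbl hP ordN (X := z) (p := p) fun U hU => by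
      have := hp U hU
      push Not at this
      exact this.1.2
    obtain ⟨b, hb⟩ := W_bdd hs
    obtain ⟨r', hr', i', hi', h3⟩ := h2 q le_rfl b ((h1 b).mono hq)
    obtain ⟨V, -, hV⟩ := h3.ex
    exact absurd (ordN_inj hV) (hb i' hi').ne'
  · intro h
    refine w1_cases (R := fun U => COrd (E U) (mk U z)) (fun a U e => ?_) U h
    rw [e]
    exact cord_ordN a

end Run7.h704Mod
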