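import Pool.Agent.Run7.h704.Mod1

set_option autoImplicit false

namespace Run7.h704Mod

open Set
open Pool.Agent.H42.ZF hiding Fn
open Run7.h704 hiding Frc
open Run7.h704.TreeDefs

variable {P : Type} [Preorder P] {U : Ult P}

/-! ### Functions from countable ordinals to `ω` -/

/-- The name of a function. -/
noncomputable def nodeN (t : Node) : Nm P :=
  rel (fun b : Iio t.1 => ordN b.1) (fun b => natN (t.2 b)) (fun _ _ => True)

theorem app_nodeN (t : Node) {b : W} (hb : b < t.1) :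
    App (E U) (mk U (nodeN t)) (mk U (ordN b)) (mk U (natN (t.fn b))) := by
  rw [t.fn_of_lt hb]
  exact rel_intro (A := fun b : Iio t.1 => ordN b.1) (B := fun b => natN (t.2 b)) (Q := fun _ _ => True) ⟨b, hb⟩ trivial

theorem nodeN_cases {t : Node} {a b : Nm P} {R : Ult P → Prop} [C R]
    (h : ∀ c < t.1, ∀ U, mk U a = mk U (ordN c) → mk U b = mk U (natN (t.fn c)) → R U) (U : Ult P)
    (hU : App (E U) (mk U (nodeN t)) (mk U a) (mk U b)) : R U := by
  refine rel_cases (fun i U _ e1 e2 => ?_) U hU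
  refine h i.1 i.2 U e1 ?_
  rw [t.fn_of_lt i.2]
  exact e2

theorem isFun_nodeN (t : Node) : IsFun (E U) (mk U (nodeN t)) (mk U (ordN t.1)) (mk U omegaN) := by
  refine isFun_of rel_pairs ?_ ?_ ?_
  · intro a b h
    obtain ⟨a, rfl⟩ := mk_surj a
    obtain ⟨b, rfl⟩ := mk_surj b
    refine nodeN_cases (R := fun U => E U (mk U a) (mk U (ordN t.1)) ∧ E U (mk U b) (mk U omegaN)) (fun c hc U e1 e2 => ?_) U h
    rw [e1, e2]
    exact ⟨ord_mem hc, nat_mem_omega _⟩
  · intro a ha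
    obtain ⟨a, rfl⟩ := mk_surj a
    refine ord_cases (R := fun U => ∃ b, App (E U) (mk U (nodeN t)) (mk U a) b) (fun b hb U e => ?_) U ha
    rw [e]
    exact ⟨_, app_nodeN t hb⟩
  · intro a b c h1 h2
    obtain ⟨a, rfl⟩ := mk_surj a
    obtain ⟨b, rfl⟩ := mk_surj b
    obtain ⟨c, rfl⟩ := mk_surj c
    revert h2
    refine nodeN_cases (R := fun U => App (E U) (mk U (nodeN t)) (mk U a) (mk U c) → mk U b = mk U c)
      (fun d hd U e1 e2 h2 => ?_) U h1
    revert e1 e2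
    refine nodeN_cases (R := fun U => mk U a = mk U (ordN d) → mk U b = mk U (natN (t.fn d)) → mk U b = mk U c)
      (fun d' hd' U e3 e4 e1 e2 => ?_) U h2
    have : d = d' := ordN_inj (e1.symm.trans e3)
    rw [e2, e4, this]

theorem app_nodeN_iff {t : Node} {b : W} {k : ℕ} :
    App (E U) (mk U (nodeN t)) (mk U (ordN b)) (mk U (natN k)) ↔ b < t.1 ∧ t.fn b = k := by
  constructor
  · intro h
    refine nodeN_cases (R := fun _ => b < t.1 ∧ t.fn b = k) (fun c hc U e1 e2 => ?_) U h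
    have h1 : b = c := ordN_inj e1
    subst h1
    exact ⟨hc, (natN_inj e2).symm⟩
  · rintro ⟨h1, rfl⟩
    exact app_nodeN t h1

theorem sub_nodeN {s t : Node} : Sub (E U) (mk U (nodeN s)) (mk U (nodeN t)) ↔ NLe s t := by
  constructor
  · intro h
    have h1 : ∀ b < s.1, b < t.1 ∧ t.fn b = s.fn b := by
      intro b hb
      refine app_nodeN_iff (U := U).1 ?_
      obtain ⟨p, hp, hp'⟩ := app_nodeN (U := U) s hb
      exact ⟨p, h p hp, hp'⟩
    exact ⟨le_of_forall_lt fun b hb => (h1 b hb).1, fun b hb => (h1 b hb).2.symm⟩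
  · rintro ⟨h1, h2⟩ p hp
    obtain ⟨p, rfl⟩ := mk_surj p
    refine fam_cases (A := fun b : Iio s.1 => kpair (ordN b.1) (natN (s.2 b))) (Q := fun _ _ => True)
      (R := fun U => E U (mk U p) (mk U (nodeN t))) (fun b U _ e => ?_) U hp
    have h3 : s.2 b = t.2 ⟨b.1, b.2.trans_le h1⟩ := by
      rw [← s.fn_of_lt b.2, ← t.fn_of_lt (lt_of_lt_of_le b.2 h1)]
      exact h2 b.1 b.2
    rw [e, h3]
    exact fam_intro (A := fun b : Iio t.1 => kpair (ordN b.1) (natN (t.2 b))) (Q := fun _ _ => True)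
      ⟨b.1, b.2.trans_le h1⟩ trivial

theorem NLe.antisymm {s t : Node} (h : NLe s t) (h' : NLe t s) : s = t := by
  rw [← node_fn s, ← node_fn t]
  exact node_eq_iff.2 ⟨le_antisymm h.1 h'.1, h.2⟩

theorem nodeN_inj {s t : Node} (h : mk U (nodeN s) = mk U (nodeN t)) : s = t :=
  NLe.antisymm (sub_nodeN.1 (fun _ hz => h ▸ hz : Sub (E U) (mk U (nodeN s)) (mk U (nodeN t))))
    (sub_nodeN.1 (fun _ hz => h ▸ hz : Sub (E U) (mk U (nodeN t)) (mk U (nodeN s))))

/-- The restriction of a node. -/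
noncomputable def rs (t : Node) (b : W) : Node := node (min t.1 b) t.fn

theorem rs_ht (t : Node) (b : W) : (rs t b).1 = min t.1 b := rfl

theorem rs_fn {t : Node} {b c : W} (h : c < (rs t b).1) : (rs t b).fn c = t.fn c :=
  fn_node c h

theorem restr_nodeN (t : Node) (b : W) : Restr (E U) (mk U (nodeN (rs t b))) (mk U (nodeN t)) (mk U (ordN b)) := by
  have hle : NLe (rs t b) t := ⟨min_le_left _ _, fun c hc => rs_fn hc⟩
  intro p
  constructor
  · intro hp
    refine ⟨sub_nodeN.2 hle p hp, ?_⟩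
    obtain ⟨p, rfl⟩ := mk_surj p
    refine rel_mem (R := fun U => ∃ x y, E U x (mk U (ordN b)) ∧ IsPair (E U) (mk U p) x y)
      (fun i U _ h => ⟨_, _, ord_mem ?_, h⟩) U hp
    exact i.2.trans_le (min_le_right _ _)
  · rintro ⟨hp, x, y, hx, hxy⟩
    obtain ⟨p, rfl⟩ := mk_surj p
    obtain ⟨x, rfl⟩ := mk_surj x
    obtain ⟨y, rfl⟩ := mk_surj y
    have h1 : App (E U) (mk U (nodeN t)) (mk U x) (mk U y) := ⟨_, hp, hxy⟩
    clear hp
    revert hx hxy
    refine nodeN_cases (R := fun U => E U (mk U x) (mk U (ordN b)) → IsPair (E U) (mk U p) (mk U x) (mk U y) →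
      E U (mk U p) (mk U (nodeN (rs t b)))) (fun c hc U e1 e2 hx hxy => ?_) U h1
    rw [e1] at hx hxy
    rw [e2] at hxy
    have hcb : c < (rs t b).1 := lt_min hc (ord_mem_iff.1 hx)
    obtain ⟨q, hq, hq'⟩ := app_nodeN (U := U) (rs t b) hcb
    rw [rs_fn hcb] at hq'
    rw [hxy.uniq hq']
    exact hq

theorem eq_rs {t : Node} {b : W} {r : M U} (h : Restr (E U) r (mk U (nodeN t)) (mk U (ordN b))) :
    r = mk U (nodeN (rs t b)) := h.uniq (restr_nodeN t b)

theorem seqOn_nodeN (t : Node) : SeqOn (E U) (mk U (nodeN t)) (mk U (ordN t.1)) :=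
  ⟨cord_ordN _, _, isOmega_omegaN, isFun_nodeN t⟩

theorem seqOn_ht {t : Node} {a : W} (h : SeqOn (E U) (mk U (nodeN t)) (mk U (ordN a))) : t.1 = a := by
  obtain ⟨-, w, hw, hf⟩ := h
  have hd : ∀ x, E U x (mk U (ordN a)) ↔ E U x (mk U (ordN t.1)) := by
    intro x
    constructor
    · intro hx
      obtain ⟨y, hy⟩ := hf.ex hx
      exact ((isFun_nodeN t).dom hy).1
    · intro hx
      obtain ⟨y, hy⟩ := (isFun_nodeN t).ex hx
      exact (hf.dom hy).1
  exact (ordN_inj (M_ext hd)).symm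

/-- In the extension by a countably closed forcing notion every function from a countable ordinal to `ω`
is in the ground model. -/
theorem seq_dense (hP : SClosed P) {z : Nm P} {p : P} (h : Frc p (fun U => ∃ a, SeqOn (E U) (mk U z) a)) :
    ∃ q ≤ p, ∃ t, Frc q (fun U => mk U z = mk U (nodeN t)) := by
  obtain ⟨a, ha⟩ := frc_ex h
  have h1 : Frc p (fun U => E U (mk U a) (mk U w1N)) := fun U hU => (cord_iff hP).1 (ha U hU).1
  obtain ⟨q, hq, α, hα⟩ := fam_elim h1
  have h2 : Frc q (fun U => IsFun (E U) (mk U z) (mk U (ordN α)) (mk U omegaN)) := fun U hU => by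
    obtain ⟨-, w, hw, hf⟩ := ha.mono hq U hU
    have e : mk U a = mk U (ordN α) := (hα U hU).2
    rw [← hw.eq, ← e]
    exact hf
  obtain ⟨g, hg⟩ := countable_iff_exists_subset_range.1 (W_Iio_countable α)
  obtain ⟨r, hr, k, hk⟩ := omega_cases hP (p := q)
    (R := fun n (k : ℕ) U => g n < α → App (E U) (mk U z) (mk U (ordN (g n))) (mk U (natN k)))
    (fun n q' hq' => by
      by_cases hn : g n < α
      · obtain ⟨r, hr, k, hk⟩ := decide_app (f := z) (a := ordN (g n)) (A := ordN α) (p := q')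
          (fun U hU => ⟨h2.mono hq' U hU, ord_mem hn⟩)
        exact ⟨r, hr, k, fun U hU _ => hk U hU⟩
      · exact ⟨q', le_rfl, 0, fun U hU h => absurd h hn⟩)
  choose n hn using fun b : Iio α => hg b.2
  refine ⟨r, hr.trans hq, ⟨α, fun b => k (n b)⟩, fun U hU => ?_⟩
  refine ((isFun_nodeN (⟨α, fun b => k (n b)⟩ : Node)).eq (h2.mono hr U hU) fun x y hxy => ?_).symm
  obtain ⟨x, rfl⟩ := mk_surj x
  obtain ⟨y, rfl⟩ := mk_surj y
  revert hU
  refine nodeN_cases (R := fun U => Iic r ∈ U.U → App (E U) (mk U z) (mk U x) (mk U y)) (fun c hc U e1 e2 hU => ?_) U hxy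
  rw [e1, e2, Node.fn_of_lt _ hc]
  have h3 := hk (n ⟨c, hc⟩) U hU
  have h4 : g (n ⟨c, hc⟩) = c := hn ⟨c, hc⟩
  rw [h4] at h3
  exact h3 hc

theorem meet_cases {s t : Node} {z : Nm P} {R : Ult P → Prop} [C R]
    (h : ∀ r, MeetOf s t r → ∀ U, mk U z = mk U (nodeN r) → R U) (U : Ult P)
    (hU : Meet (E U) (mk U (nodeN s)) (mk U (nodeN t)) (mk U z)) : R U := by
  obtain ⟨d, m, n, h1, h2, h3, h4, h5⟩ := hU
  obtain ⟨d, rfl⟩ := mk_surj d
  obtain ⟨m, rfl⟩ := mk_surj m
  obtain ⟨n, rfl⟩ := mk_surj n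
  revert h1 h2 h4 h5
  refine nodeN_cases (R := fun U => Restr (E U) (mk U z) (mk U (nodeN s)) (mk U d) →
    Restr (E U) (mk U z) (mk U (nodeN t)) (mk U d) → App (E U) (mk U (nodeN t)) (mk U d) (mk U n) →
    mk U m ≠ mk U n → R U) (fun b hb U e1 e2 h1 h2 h4 h5 => ?_) U h3
  revert h1 h2 h5 e1 e2
  refine nodeN_cases (R := fun U => mk U d = mk U (ordN b) → mk U m = mk U (natN (s.fn b)) →
    Restr (E U) (mk U z) (mk U (nodeN s)) (mk U d) →
    Restr (E U) (mk U z) (mk U (nodeN t)) (mk U d) → mk U m ≠ mk U n → R U) (fun c hc U e3 e4 e1 e2 h1 h2 h5 => ?_) U h4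
  have hbc : b = c := ordN_inj (e1.symm.trans e3)
  subst hbc
  rw [e1] at h1 h2
  have h6 := eq_rs h1
  have h7 := eq_rs h2
  have h8 : rs s b = rs t b := nodeN_inj (h6.symm.trans h7)
  have h9 : Agr b s.fn t.fn := by
    unfold rs at h8
    rw [min_eq_right hb.le, min_eq_right hc.le] at h8
    exact (node_inj h8).2
  refine h (rs s b) ?_ U h6
  have hsb : (rs s b).1 = b := min_eq_right hb.le
  refine ⟨by rw [hsb]; exact hb, by rw [hsb]; exact hc, fun c hc => (rs_fn hc).symm, fun c hc => ?_, ?_⟩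
  · rw [rs_fn hc]
    rw [hsb] at hc
    exact (h9 c hc).symm
  · rw [hsb]
    intro h10
    rw [e2, e4, h10] at h5
    exact h5 rfl

end Run7.h704Mod
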