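import Pool.Agent.Run7.h704.Mod2
import Pool.Agent.Run7.h704.Book

set_option autoImplicit false

namespace Run7.h704Mod

open Set
open Pool.Agent.H42.ZF hiding Fn
open Run7.h704 hiding Frc
open Run7.h704.TreeDefs

section sets

variable {P : Type} [Preorder P] {U : Ult P}

/-- The name of a set of nodes. -/
noncomputable def nsN (S : Node → LowerSet P) : Nm P := fam nodeN (fun t U => (S t : Set P) ∈ U.U)

@[elab_as_elim] theorem ns_cases {S : Node → LowerSet P} {z : Nm P} {R : Ult P → Prop} [C R]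
    (h : ∀ t, ∀ U : Ult P, (S t : Set P) ∈ U.U → mk U z = mk U (nodeN t) → R U) (U : Ult P)
    (hU : E U (mk U z) (mk U (nsN S))) : R U :=
  fam_cases (fun t V h1 h2 => h t V h1 h2) U hU

theorem ns_mem {S : Node → LowerSet P} {t : Node} : E U (mk U (nodeN t)) (mk U (nsN S)) ↔ (S t : Set P) ∈ U.U := by
  constructor
  · intro h
    refine ns_cases (R := fun U : Ult P => (S t : Set P) ∈ U.U) (fun s U h1 h2 => ?_) U h
    rw [nodeN_inj h2]
    exact h1
  · intro h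
    exact fam_intro (Q := fun t U => (S t : Set P) ∈ U.U) t h

theorem frc_iff_Mt {S : LowerSet P} {p : P} : Frc p (fun U : Ult P => (S : Set P) ∈ U.U) ↔ Mt (S : Set P) p := by
  rw [frc_iff S.lower fun _ => Iff.rfl]
  constructor
  · intro h q hq
    obtain ⟨r, hr, h1⟩ := h q hq
    exact ⟨r, hr, r, h1, le_rfl⟩
  · intro h q hq
    obtain ⟨r, hr, s, hs, hrs⟩ := h q hq
    exact ⟨r, hr, S.lower hrs hs⟩

/-- The truth values of `t ∈ K`. -/
def tv (k : Nm P) (t : Node) : LowerSet P := ⟨{r | Frc r (fun U => E U (mk U (nodeN t)) (mk U k))}, lower_frc _⟩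

theorem tv_mem {k : Nm P} {t : Node} : E U (mk U (nodeN t)) (mk U k) ↔ (tv k t : Set P) ∈ U.U :=
  cl (Q := fun U => E U (mk U (nodeN t)) (mk U k)) U

theorem tv_Mt {k : Nm P} {t : Node} {p : P} (h : Mt (tv k t : Set P) p) :
    Frc p (fun U => E U (mk U (nodeN t)) (mk U k)) :=
  (frc_iff_Mt.2 h).imp fun _ h => tv_mem.2 h

theorem ns_elim {S : Node → LowerSet P} {z : Nm P} {p : P} (h : Frc p (fun U => E U (mk U z) (mk U (nsN S)))) :
    ∃ q ≤ p, ∃ t, Mt (S t : Set P) q ∧ Frc q (fun U => mk U z = mk U (nodeN t)) := by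
  obtain ⟨q, hq, t, ht⟩ := fam_elim h
  exact ⟨q, hq, t, frc_iff_Mt.1 (ht.imp fun _ h => h.1), ht.imp fun _ h => h.2⟩

theorem frc_ns {S : Node → LowerSet P} {t : Node} {p : P} (h : Frc p (fun U => E U (mk U (nodeN t)) (mk U (nsN S)))) :
    Mt (S t : Set P) p := frc_iff_Mt.1 (h.imp fun _ h => ns_mem.1 h)

end sets

variable {e : JJ → Node → Set (Cnd JJ)} {U : Ult (PT e)}

theorem sclosed (e : JJ → Node → Set (Cnd JJ)) : SClosed (PT e) := fun p hp =>
  PT.closed p fun n => hp (Nat.le_succ n)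

/-- The nodes of the tree. -/
noncomputable def TL (e : JJ → Node → Set (Cnd JJ)) (t : Node) : LowerSet (PT e) := ⟨TT e t, fun _ _ hab h => TT_mono h hab⟩

/-- The name of the tree. -/
noncomputable def TN (e : JJ → Node → Set (Cnd JJ)) : Nm (PT e) := nsN (TL e)

theorem TT_down {t : Node} {q r : PT e} (h : r ∈ TT e t) (hr : r ≤ q) (h1 : t.1 ≤ q.1.ht) : q ∈ TT e t := by
  obtain ⟨-, f, hf, h2⟩ := h
  obtain ⟨g, hg, h3⟩ := Cnd.LE.down hr none q.1.ne f hf
  exact ⟨h1, g, hg, by rw [← node_congr (h3.mono h1), h2]⟩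

theorem TT_le {s t : Node} (h : NLe s t) : TT e t ⊆ TT e s := by
  rintro p ⟨h1, f, hf, h2⟩
  refine ⟨h.1.trans h1, f, hf, ?_⟩
  rw [← node_fn t] at h2
  rw [node_congr (((node_inj h2).2.mono h.1).trans h.2.symm), node_fn]

theorem ns_le {s t : Node} (h : NLe s t) (ht : E U (mk U (nodeN t)) (mk U (TN e))) :
    E U (mk U (nodeN s)) (mk U (TN e)) :=
  ns_mem.2 (Filter.mem_of_superset (ns_mem.1 ht) (TT_le h))

theorem tree_TN : Tree (E U) (mk U (TN e)) := by
  constructor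
  · intro s hs
    obtain ⟨s, rfl⟩ := mk_surj s
    refine ns_cases (R := fun U => ∃ a, SeqOn (E U) (mk U s) a) (fun t U _ h2 => ?_) U hs
    rw [h2]
    exact ⟨_, seqOn_nodeN t⟩
  · intro s a r hs ha hr
    obtain ⟨s, rfl⟩ := mk_surj s
    obtain ⟨a, rfl⟩ := mk_surj a
    obtain ⟨r, rfl⟩ := mk_surj r
    rw [cord_iff (sclosed e)] at ha
    revert hr hs
    refine w1_cases (R := fun U => E U (mk U s) (mk U (TN e)) → Restr (E U) (mk U r) (mk U s) (mk U a) →
      E U (mk U r) (mk U (TN e))) (fun α U e1 hs hr => ?_) U ha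
    revert hr e1
    refine ns_cases (R := fun U => mk U a = mk U (ordN α) → Restr (E U) (mk U r) (mk U s) (mk U a) →
      E U (mk U r) (mk U (TN e))) (fun t U h1 h2 e1 hr => ?_) U hs
    rw [e1, h2] at hr
    rw [eq_rs hr]
    exact ns_le ⟨min_le_left _ _, fun c hc => rs_fn hc⟩ (ns_mem.2 h1)

/-- A node of the tree on a given level. -/
theorem exists_node (p : PT e) (a : W) : ∃ q ≤ p, ∃ t : Node, t.1 = a ∧ q ∈ TT e t := by
  obtain ⟨q, hq, h1, h2⟩ := p.higher a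
  obtain ⟨f, hf⟩ := q.1.ne
  exact ⟨q, hq, node a f, rfl, h1, f, hf, rfl⟩

theorem height_TN (a : M U) (ha : COrd (E U) a) : ∃ s, E U s (mk U (TN e)) ∧ SeqOn (E U) s a := by
  obtain ⟨a, rfl⟩ := mk_surj a
  rw [cord_iff (sclosed e)] at ha
  refine w1_cases (R := fun U => ∃ s, E U s (mk U (TN e)) ∧ SeqOn (E U) s (mk U a)) (fun α U e1 => ?_) U ha
  rw [e1]
  refine (cl (Q := fun U => ∃ s, E U s (mk U (TN e)) ∧ SeqOn (E U) s (mk U (ordN α)))).all (fun p => ?_) U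
  obtain ⟨q, hq, t, ht, hqt⟩ := exists_node p α
  refine ⟨q, hq, fun V hV => ⟨mk V (nodeN t), ns_mem.2 (Filter.mem_of_superset hV fun r hr => TT_mono hqt hr), ?_⟩⟩
  rw [← ht]
  exact seqOn_nodeN t

/-- The nodes decided by a condition. -/
theorem countable_dec (q : PT e) (b : W) : {t : Node | t.1 ≤ b ∧ q ∈ TT e t}.Countable := by
  have : (⋃ c ∈ Iic b, (fun f => node c f) '' q.1.S none).Countable :=
    (W_Iic_countable b).biUnion fun c _ => q.1.ctb.image _
  refine this.mono ?_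
  rintro t ⟨h1, h2, f, hf, h3⟩
  exact mem_biUnion (show t.1 ∈ Iic b from h1) ⟨f, hf, h3⟩

theorem levels_TN (a L : M U) (ha : COrd (E U) a) (hL : ∀ s, E U s L ↔ E U s (mk U (TN e)) ∧ SeqOn (E U) s a) :
    Ctbl (E U) L := by
  obtain ⟨a, rfl⟩ := mk_surj a
  obtain ⟨L, rfl⟩ := mk_surj L
  rw [cord_iff (sclosed e)] at ha
  revert hL
  refine w1_cases (R := fun U => (∀ s, E U s (mk U L) ↔ E U s (mk U (TN e)) ∧ SeqOn (E U) s (mk U a)) →
    Ctbl (E U) (mk U L)) (fun α U e1 hL => ?_) U ha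
  rw [e1] at hL
  clear e1
  refine by_dense (H := fun U => ∀ s, E U s (mk U L) ↔ E U s (mk U (TN e)) ∧ SeqOn (E U) s (mk U (ordN α)))
    (R := fun U => Ctbl (E U) (mk U L)) (fun p hp => ?_) U hL
  obtain ⟨q, hq, h1, h2⟩ := p.higher α
  refine ⟨q, hq, ctbl_of (A := nodeN) (fun U i j => nodeN_inj) (countable_dec q α) fun r hr x hx => ?_⟩
  have h3 : Frc r (fun U => E U (mk U x) (mk U (TN e))) := fun V hV =>
    ((hp.mono (hr.trans hq) V hV _).1 (hx V hV)).1
  obtain ⟨r', hr', t, h5, ht'⟩ := ns_elim h3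
  have h4 : t.1 = α := by
    obtain ⟨V, hV, h5⟩ := ht'.ex
    refine seqOn_ht (U := V) ?_
    rw [← (h5 : mk V x = mk V (nodeN t))]
    exact ((hp.mono ((hr'.trans hr).trans hq) V hV _).1 (hx.mono hr' V hV)).2
  refine ⟨r', hr', t, ⟨h4.le, ?_⟩, ht'⟩
  have h6 : t.1 ≤ q.1.ht := h4.le.trans h1
  exact TT_down (TT_of_Mt h5 (h6.trans (Cnd.LE.ht (hr'.trans hr)))) (hr'.trans hr) h6

end Run7.h704Mod
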