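import Pool.Agent.Run7.h704.Mod3

set_option autoImplicit false

namespace Run7.h704Mod

open Set
open Pool.Agent.H42.ZF hiding Fn
open Run7.h704 hiding Frc
open Run7.h704.TreeDefs

variable {e : JJ → Node → Set (Cnd JJ)} {U : Ult (PT e)}

theorem chains_TN (D : M U) (h1 : Sub (E U) D (mk U (TN e))) (h2 : Chain (E U) D) : Ctbl (E U) D := by
  obtain ⟨D, rfl⟩ := mk_surj D
  have key : ∀ U : Ult (PT e), (Sub (E U) (mk U D) (mk U (TN e)) ∧ Chain (E U) (mk U D)) → Ctbl (E U) (mk U D) := by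
    refine (cl (Q := fun U : Ult (PT e) => (Sub (E U) (mk U D) (mk U (TN e)) ∧ Chain (E U) (mk U D)) →
      Ctbl (E U) (mk U D))).by_contra fun p hp => ?_
    have hp1 : Frc p (fun U => Sub (E U) (mk U D) (mk U (TN e))) := fun V hV => by
      have := hp V hV
      push Not at this
      exact this.1.1
    have hp2 : Frc p (fun U => Chain (E U) (mk U D)) := fun V hV => by
      have := hp V hV
      push Not at this
      exact this.1.2
    have hp3 : Frc p (fun U => ¬ Ctbl (E U) (mk U D)) := fun V hV => by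
      have := hp V hV
      push Not at this
      exact this.2
    refine no_chain p (fun t => (tv D t : Set (PT e))) ?_ ?_ ?_
    · intro q hq t ht
      exact frc_ns (S := TL e) fun V hV => hp1.mono hq V hV _ (tv_Mt ht V hV)
    · intro q hq t t' ht ht'
      obtain ⟨V, hV⟩ := ex_ult q
      exact (hp2.mono hq V hV _ _ (tv_Mt ht V hV) (tv_Mt ht' V hV)).imp sub_nodeN.1 sub_nodeN.1
    · intro q hq b
      by_contra hc
      push Not at hc
      obtain ⟨q', hq', h3, h4⟩ := q.higher b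
      have h5 : Frc q' (fun U => Ctbl (E U) (mk U D)) := by
        refine ctbl_of (A := nodeN) (fun U i j => nodeN_inj) (countable_dec q' b) fun r hr x hx => ?_
        have h6 : Frc r (fun U => E U (mk U x) (mk U (TN e))) := fun V hV =>
          hp1.mono ((hr.trans hq').trans hq) V hV _ (hx V hV)
        obtain ⟨r', hr', t, h7, h8⟩ := ns_elim h6
        have h9 : r' ∈ (tv D t : Set (PT e)) := fun V hV => by
          have h10 : mk V x = mk V (nodeN t) := h8 V hV
          beta_reduce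
          rw [← h10]
          exact hx.mono hr' V hV
        have h10 : t.1 < b := by
          by_contra h11
          exact hc r' ((hr'.trans hr).trans hq') t (not_lt.1 h11) (Mt.of_mem h9)
        refine ⟨r', hr', t, ⟨h10.le, ?_⟩, h8⟩
        have h11 : t.1 ≤ q'.1.ht := h10.le.trans h3
        exact TT_down (TT_of_Mt h7 (h11.trans (Cnd.LE.ht (hr'.trans hr)))) (hr'.trans hr) h11
      obtain ⟨V, hV, h6⟩ := h5.ex
      exact hp3.mono (hq'.trans hq) V hV h6
  exact key U ⟨h1, h2⟩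

theorem aronszajn_TN : Aronszajn (E U) (mk U (TN e)) :=
  ⟨tree_TN, height_TN, levels_TN, chains_TN⟩

instance cCATc (k : Nm (PT e)) : C (fun U : Ult (PT e) => Sub (E U) (mk U k) (mk U (TN e)) →
    ∃ A, Sub (E U) A (mk U (TN e)) ∧ ¬ Ctbl (E U) A ∧ Antichain (E U) A ∧
    ((∀ s t z, E U s A → E U t A → s ≠ t → Meet (E U) s t z → E U z (mk U k)) ∨
      ∀ s t z, E U s A → E U t A → s ≠ t → Meet (E U) s t z → E U z (mk U (TN e)) ∧ ¬ E U z (mk U k))) := by
  infer_instance

theorem cat_TN (hBK : BK e) : CAT (E U) (mk U (TN e)) := by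
  intro K
  obtain ⟨k, rfl⟩ := mk_surj K
  refine (cl (Q := fun U : Ult (PT e) => Sub (E U) (mk U k) (mk U (TN e)) →
    ∃ A, Sub (E U) A (mk U (TN e)) ∧ ¬ Ctbl (E U) A ∧ Antichain (E U) A ∧
    ((∀ s t z, E U s A → E U t A → s ≠ t → Meet (E U) s t z → E U z (mk U k)) ∨
      ∀ s t z, E U s A → E U t A → s ≠ t → Meet (E U) s t z → E U z (mk U (TN e)) ∧ ¬ E U z (mk U k)))).all
    (fun p => ?_) U
  obtain ⟨q, hq, A, hA1, hA2, hA3, hA4, ε, hA5⟩ := cat hBK (fun t => (tv k t : Set (PT e))) p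
  let S : Node → LowerSet (PT e) := fun t => ⟨A t, fun a b hab ha => hA2 t a ha b hab⟩
  refine ⟨q, hq, fun U hU _ => ⟨mk U (nsN S), ?_, ?_, ?_, ?_⟩⟩
  · intro x hx
    obtain ⟨x, rfl⟩ := mk_surj x
    refine ns_cases (R := fun U => E U (mk U x) (mk U (TN e))) (fun t U h1 h2 => ?_) U hx
    rw [h2]
    exact ns_mem.2 (Filter.mem_of_superset h1 (hA1 t))
  · intro hC
    obtain ⟨r, hr, hrC⟩ := (cl (Q := fun U => Ctbl (E U) (mk U (nsN S)))).ex hU hC
    obtain ⟨r1, hr1, s, hs, h1⟩ := of_ctbl (sclosed e) nodeN hrC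
    obtain ⟨b, hb⟩ := W_bdd (hs.image fun t : Node => t.1)
    obtain ⟨r2, hr2, t, ht, h2⟩ := hA4 r1 (hr1.trans hr) b
    obtain ⟨r3, hr3, t', ht', h3⟩ := h1 r2 hr2 t fun V hV => ns_mem.2 (Filter.mem_of_superset hV fun a ha => hA2 t r2 h2 a ha)
    obtain ⟨V, -, hV⟩ := h3.ex
    have h4 : t = t' := nodeN_inj hV
    subst h4
    exact absurd (hb _ ⟨t, ht', rfl⟩) (not_lt.2 ht)
  · intro x y hx hy hxy
    obtain ⟨x, rfl⟩ := mk_surj x
    obtain ⟨y, rfl⟩ := mk_surj y
    revert hU hy hxy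
    refine ns_cases (R := fun U => Iic q ∈ U.U → E U (mk U y) (mk U (nsN S)) → Sub (E U) (mk U x) (mk U y) →
      mk U x = mk U y) (fun t U h1 h2 hU hy hxy => ?_) U hx
    revert hU h1 h2 hxy
    refine ns_cases (R := fun U : Ult (PT e) => (S t : Set (PT e)) ∈ U.U → mk U x = mk U (nodeN t) → Iic q ∈ U.U →
      Sub (E U) (mk U x) (mk U y) → mk U x = mk U y) (fun t' U h3 h4 h1 h2 hU hxy => ?_) U hy
    rw [h2, h4] at hxy ⊢
    rw [sub_nodeN] at hxy
    obtain ⟨r, ⟨h5, h6⟩, h7⟩ := Filter.nonempty_of_mem (Filter.inter_mem (Filter.inter_mem h1 h3) hU)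
    rw [hA3 r h7 t t' (Mt.of_mem h5) (Mt.of_mem h6) hxy]
  · have key : ∀ (x y z : Nm (PT e)) (R : Ult (PT e) → Prop) [C R],
        (∀ (t t' r : Node) (U : Ult (PT e)), {a | a ∈ FF (fun t => (tv k t : Set (PT e))) ε r} ∈ U.U →
          mk U z = mk U (nodeN r) → MeetOf t t' r → (A t : Set (PT e)) ∈ U.U → mk U x = mk U (nodeN t) → R U) →
        ∀ U : Ult (PT e), Iic q ∈ U.U → E U (mk U x) (mk U (nsN S)) → E U (mk U y) (mk U (nsN S)) →
          Meet (E U) (mk U x) (mk U y) (mk U z) → R U := by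
      intro x y z R _ hR U hU hx hy hm
      revert hU hy hm
      refine ns_cases (R := fun U => Iic q ∈ U.U → E U (mk U y) (mk U (nsN S)) →
        Meet (E U) (mk U x) (mk U y) (mk U z) → R U) (fun t U h1 h2 hU hy hm => ?_) U hx
      revert hU h1 h2 hm
      refine ns_cases (R := fun U : Ult (PT e) => (S t : Set (PT e)) ∈ U.U → mk U x = mk U (nodeN t) → Iic q ∈ U.U →
        Meet (E U) (mk U x) (mk U y) (mk U z) → R U) (fun t' U h3 h4 h1 h2 hU hm => ?_) U hy
      rw [h2, h4] at hm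
      revert h1 h3 hU h2
      refine meet_cases (R := fun U : Ult (PT e) => (S t' : Set (PT e)) ∈ U.U → (S t : Set (PT e)) ∈ U.U →
        mk U x = mk U (nodeN t) → Iic q ∈ U.U → R U) (fun r hr U h5 h3 h1 h2 hU => ?_) U hm
      refine hR t t' r U ?_ h5 hr h1 h2
      filter_upwards [h1, h3, hU] with a ha1 ha2 ha3
      exact hA5 a ha3 t t' r (Mt.of_mem ha1) (Mt.of_mem ha2) hr
    cases ε with
    | true =>
      left
      intro x y z hx hy _ hm
      obtain ⟨x, rfl⟩ := mk_surj x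
      obtain ⟨y, rfl⟩ := mk_surj y
      obtain ⟨z, rfl⟩ := mk_surj z
      refine key x y z (fun U => E U (mk U z) (mk U k)) (fun t t' r U h1 h2 _ _ _ => ?_) U hU hx hy hm
      rw [h2, tv_mem]
      filter_upwards [h1] with a ha
      exact tv_Mt ha
    | false =>
      right
      intro x y z hx hy _ hm
      obtain ⟨x, rfl⟩ := mk_surj x
      obtain ⟨y, rfl⟩ := mk_surj y
      obtain ⟨z, rfl⟩ := mk_surj z
      refine key x y z (fun U => E U (mk U z) (mk U (TN e)) ∧ ¬ E U (mk U z) (mk U k))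
        (fun t t' r U h1 h2 hr h3 _ => ?_) U hU hx hy hm
      rw [h2]
      constructor
      · refine ns_le ⟨hr.1.le, hr.2.2.1.symm⟩ (ns_mem.2 (Filter.mem_of_superset h3 (hA1 t)))
      · rw [tv_mem]
        intro h4
        obtain ⟨a, ha1, ha2⟩ := Filter.nonempty_of_mem (Filter.inter_mem h1 h4)
        exact ha1 a le_rfl (Mt.of_mem ha2)

end Run7.h704Mod
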