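import Pool.Agent.Run7.h704.Mod4

set_option autoImplicit false

namespace Run7.h704Mod

open Set
open Pool.Agent.H42.ZF hiding Fn
open Run7.h704 hiding Frc
open Run7.h704.TreeDefs

section sets

variable {P : Type} [Preorder P] {U : Ult P}

/-- The name of a set of natural numbers. -/
noncomputable def setN (x : Set ℕ) : Nm P := fam natN (fun n _ => n ∈ x)

theorem mem_setN {x : Set ℕ} {n : ℕ} : E U (mk U (natN n)) (mk U (setN x)) ↔ n ∈ x := by
  constructor
  · intro h
    refine fam_cases (A := natN) (Q := fun n (_ : Ult P) => n ∈ x) (R := fun _ => n ∈ x) (fun m U h1 h2 => ?_) U h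
    rw [natN_inj h2]
    exact h1
  · exact fun h => fam_intro (A := natN) (Q := fun n (_ : Ult P) => n ∈ x) n h

theorem setN_sub {x : Set ℕ} : Sub (E U) (mk U (setN x)) (mk U omegaN) := by
  intro z hz
  obtain ⟨z, rfl⟩ := mk_surj z
  refine fam_cases (A := natN) (Q := fun n (_ : Ult P) => n ∈ x) (R := fun U => E U (mk U z) (mk U omegaN))
    (fun m U _ h2 => ?_) U hz
  rw [h2]
  exact nat_mem_omega m

/-- The power set of `ω`. -/
noncomputable def powO : Nm P := sepN (powN omegaN) (fun U z => Sub (E U) z (mk U omegaN))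

theorem mem_powO {z : M U} : E U z (mk U (powO : Nm P)) ↔ Sub (E U) z (mk U omegaN) := by
  unfold powO
  rw [mem_sepN]
  exact ⟨fun h => h.2, fun h => ⟨mem_powN h, h⟩⟩

/-- There are no new subsets of `ω`. -/
theorem set_dense (hP : SClosed P) {z : Nm P} {p : P} (h : Frc p (fun U => Sub (E U) (mk U z) (mk U omegaN))) :
    ∃ q ≤ p, ∃ x, Frc q (fun U => mk U z = mk U (setN x)) := by
  obtain ⟨q, hq, g, hg⟩ := omega_cases hP (p := p)
    (R := fun n (b : Bool) U => (b = true → E U (mk U (natN n)) (mk U z)) ∧ (b = false → ¬ E U (mk U (natN n)) (mk U z)))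
    (fun n q' hq' => by
      by_cases h1 : Frc q' (fun U => E U (mk U (natN n)) (mk U z))
      · exact ⟨q', le_rfl, true, h1.imp fun U h => ⟨fun _ => h, fun h => (by cases h)⟩⟩
      · obtain ⟨r, hr, h2⟩ := (cl (Q := fun U : Ult P => E U (mk U (natN n)) (mk U z))).decide h1
        exact ⟨r, hr, false, h2.imp fun U h => ⟨fun h => (by cases h), fun _ => h⟩⟩)
  refine ⟨q, hq, {n | g n = true}, fun U hU => M_ext fun w => ?_⟩
  obtain ⟨w, rfl⟩ := mk_surj w
  constructor
  · intro hw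
    have h1 := h.mono hq U hU _ hw
    revert hU hw
    refine nat_cases (R := fun U => Iic q ∈ U.U → E U (mk U w) (mk U z) → E U (mk U w) (mk U (setN {n | g n = true})))
      (fun n U e hU hw => ?_) U h1
    rw [e] at hw ⊢
    rw [mem_setN]
    by_contra hc
    have hc' : g n = false := by
      cases hgn : g n
      · rfl
      · exact absurd hgn hc
    exact (hg n U hU).2 hc' hw
  · intro hw
    revert hU
    refine fam_cases (A := natN) (Q := fun n (_ : Ult P) => n ∈ {n | g n = true})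
      (R := fun U => Iic q ∈ U.U → E U (mk U w) (mk U z)) (fun n U h1 h2 hU => ?_) U hw
    rw [h2]
    exact (hg n U hU).1 h1

end sets

variable {e : JJ → Node → Set (Cnd JJ)} {U : Ult (PT e)}

/-- The reals coded by the generic filter. -/
noncomputable def RL (e : JJ → Node → Set (Cnd JJ)) (t : W × Set ℕ) : LowerSet (PT e) :=
  ⟨{p | t.1 < p.1.ht ∧ p.1.R t.1 = t.2}, fun _ _ hab h =>
    ⟨h.1.trans_le (Cnd.LE.ht hab), (Cnd.LE.R hab _ h.1).trans h.2⟩⟩

theorem ch_holds : CH (E U) := by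
  let F : Nm (PT e) := rel (fun t : W × Set ℕ => ordN t.1) (fun t => setN t.2) (fun t U => (RL e t : Set (PT e)) ∈ U.U)
  have hF : ∀ (U : Ult (PT e)) (t : W × Set ℕ), (RL e t : Set (PT e)) ∈ U.U →
      App (E U) (mk U F) (mk U (ordN t.1)) (mk U (setN t.2)) := fun U t ht =>
    rel_intro (A := fun t : W × Set ℕ => ordN t.1) (B := fun t => setN t.2)
      (Q := fun t U => (RL e t : Set (PT e)) ∈ U.U) t ht
  have hF2 : ∀ (a b : Nm (PT e)) (R : Ult (PT e) → Prop) [C R], (∀ (t : W × Set ℕ) (U : Ult (PT e)),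
      (RL e t : Set (PT e)) ∈ U.U → mk U a = mk U (ordN t.1) → mk U b = mk U (setN t.2) → R U) →
      ∀ U : Ult (PT e), App (E U) (mk U F) (mk U a) (mk U b) → R U := fun a b R _ h U hU =>
    rel_cases (A := fun t : W × Set ℕ => ordN t.1) (B := fun t => setN t.2)
      (Q := fun t U => (RL e t : Set (PT e)) ∈ U.U) h U hU
  refine ⟨_, mk U w1N, mk U powO, mk U F, isOmega_omegaN, fun a => (cord_iff (sclosed e)).symm, fun x => mem_powO,
    isFun_of rel_pairs ?_ ?_ ?_, ?_⟩
  · intro a b h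
    obtain ⟨a, rfl⟩ := mk_surj a
    obtain ⟨b, rfl⟩ := mk_surj b
    refine hF2 a b (fun U => E U (mk U a) (mk U w1N) ∧ E U (mk U b) (mk U powO)) (fun t U _ h1 h2 => ?_) U h
    rw [h1, h2, mem_powO]
    exact ⟨ord_mem_w1 _, setN_sub⟩
  · intro a ha
    obtain ⟨a, rfl⟩ := mk_surj a
    refine w1_cases (R := fun U => ∃ b, App (E U) (mk U F) (mk U a) b) (fun α U h1 => ?_) U ha
    rw [h1]
    refine (cl (Q := fun U => ∃ b, App (E U) (mk U F) (mk U (ordN α)) b)).all (fun p => ?_) U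
    obtain ⟨q, hq, h2, -⟩ := p.higher (sc α)
    have h3 : α < q.1.ht := (lt_sc α).trans_le h2
    exact ⟨q, hq, fun V hV => ⟨_, hF V (α, q.1.R α) (Filter.mem_of_superset hV fun r hr =>
      (RL e (α, q.1.R α)).lower hr ⟨h3, rfl⟩)⟩⟩
  · intro a b c h1 h2
    obtain ⟨a, rfl⟩ := mk_surj a
    obtain ⟨b, rfl⟩ := mk_surj b
    obtain ⟨c, rfl⟩ := mk_surj c
    revert h2
    refine hF2 a b (fun U => App (E U) (mk U F) (mk U a) (mk U c) → mk U b = mk U c) (fun t U h3 h4 h5 h2 => ?_) U h1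
    revert h3 h4 h5
    refine hF2 a c (fun U => (RL e t : Set (PT e)) ∈ U.U → mk U a = mk U (ordN t.1) → mk U b = mk U (setN t.2) →
      mk U b = mk U c) (fun t' U h6 h7 h8 h3 h4 h5 => ?_) U h2
    obtain ⟨r, h9, h10⟩ := Filter.nonempty_of_mem (Filter.inter_mem h3 h6)
    have h11 : t.1 = t'.1 := ordN_inj (h4.symm.trans h7)
    have h12 : t.2 = t'.2 := by
      rw [← h9.2, ← h10.2, h11]
    rw [h5, h8, h12]
  · intro x hx
    obtain ⟨x, rfl⟩ := mk_surj x
    rw [mem_powO] at hx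
    refine by_dense (H := fun U => Sub (E U) (mk U x) (mk U omegaN)) (R := fun U => ∃ a, App (E U) (mk U F) a (mk U x))
      (fun p hp => ?_) U hx
    obtain ⟨q, hq, y, hy⟩ := set_dense (sclosed e) hp
    obtain ⟨q', hq', hqq, h1, h2, -⟩ := exists_higher q.2 (lt_sc q.1.ht).le y
    refine ⟨⟨q', hq'⟩, le_trans (show (⟨q', hq'⟩ : PT e) ≤ q from hqq) hq, fun V hV => ⟨mk V (ordN q.1.ht), ?_⟩⟩
    have h3 : mk V x = mk V (setN y) := hy V (Filter.mem_of_superset hV fun r hr => le_trans hr (show (⟨q', hq'⟩ : PT e) ≤ q from hqq))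
    rw [h3]
    refine hF V (q.1.ht, y) (Filter.mem_of_superset hV fun r hr => (RL e (q.1.ht, y)).lower hr ⟨?_, h2 _ le_rfl⟩)
    show q.1.ht < q'.ht
    rw [h1]
    exact lt_sc _

end Run7.h704Mod
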